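import Mathlib

/-!
# Creation and annihilation operators on functions on finite sets

For a linearly ordered type `α` we let `eps a` (wedge with `a`) and `iota a` (contraction with `a`)
act on functions `Finset α → ℂ`, and prove the canonical anticommutation relations.
-/

set_option autoImplicit false

open Finset

namespace Pool.Agent.GaussBetti

variable {α : Type*} [LinearOrder α]

/-- The sign `(-1)^(number of elements of S smaller than a)`. -/
def sg (a : α) (S : Finset α) : ℂ := (-1) ^ (S.filter (· < a)).card

lemma sg_mul_self (a : α) (S : Finset α) : sg a S * sg a S = 1 := by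
  unfold sg
  rw [← mul_pow]
  norm_num

lemma sg_ne_zero (a : α) (S : Finset α) : sg a S ≠ 0 := by
  unfold sg
  exact pow_ne_zero _ (by norm_num)

lemma sg_empty (a : α) : sg a (∅ : Finset α) = 1 := by simp [sg]

lemma sg_insert {a b : α} {S : Finset α} (hb : b ∉ S) :
    sg a (insert b S) = (if b < a then -1 else 1) * sg a S := by
  unfold sg
  rw [Finset.filter_insert]
  by_cases h : b < a
  · rw [if_pos h, if_pos h, Finset.card_insert_of_notMem (by simp [hb]), pow_succ]
    ring
  · rw [if_neg h, if_neg h, one_mul]

lemma sg_insert_self {a : α} {S : Finset α} : sg a (insert a S) = sg a S := by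
  unfold sg
  rw [Finset.filter_insert, if_neg (lt_irrefl a)]

lemma sg_erase_self {a : α} {S : Finset α} : sg a (S.erase a) = sg a S := by
  unfold sg
  congr 2
  ext x
  simp only [mem_filter, mem_erase]
  constructor
  · rintro ⟨⟨_, h⟩, h'⟩; exact ⟨h, h'⟩
  · rintro ⟨h, h'⟩; exact ⟨⟨h'.ne, h⟩, h'⟩

/-- The basic sign rule. -/
lemma sg_swap {a b : α} {S : Finset α} (hab : a ≠ b) (ha : a ∉ S) (hb : b ∉ S) :
    sg a S * sg b (insert a S) = - (sg b S * sg a (insert b S)) := by
  rw [sg_insert ha, sg_insert hb]
  rcases lt_or_gt_of_ne hab with h | h
  · rw [if_pos h, if_neg h.not_gt]; ring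
  · rw [if_neg h.not_gt, if_pos h]; ring

/-- Contraction with `a`. -/
def iota (a : α) : (Finset α → ℂ) →ₗ[ℂ] (Finset α → ℂ) where
  toFun f S := if a ∈ S then 0 else sg a S * f (insert a S)
  map_add' f g := by
    funext S
    by_cases h : a ∈ S
    · simp [h]
    · simp [h, mul_add]
  map_smul' c f := by
    funext S
    by_cases h : a ∈ S
    · simp [h]
    · simp only [h, if_false, Pi.smul_apply, smul_eq_mul, RingHom.id_apply]; ring

/-- Wedge with `a`. -/
def eps (a : α) : (Finset α → ℂ) →ₗ[ℂ] (Finset α → ℂ) where
  toFun f S := if a ∈ S then sg a S * f (S.erase a) else 0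
  map_add' f g := by
    funext S
    by_cases h : a ∈ S
    · simp [h, mul_add]
    · simp [h]
  map_smul' c f := by
    funext S
    by_cases h : a ∈ S
    · simp only [h, if_true, Pi.smul_apply, smul_eq_mul, RingHom.id_apply]; ring
    · simp [h]

lemma iota_apply (a : α) (f : Finset α → ℂ) (S : Finset α) :
    iota a f S = if a ∈ S then 0 else sg a S * f (insert a S) := rfl

lemma eps_apply (a : α) (f : Finset α → ℂ) (S : Finset α) :
    eps a f S = if a ∈ S then sg a S * f (S.erase a) else 0 := rfl

lemma iota_iota (a b : α) (f : Finset α → ℂ) : iota a (iota b f) = - iota b (iota a f) := by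
  funext S
  simp only [iota_apply, Pi.neg_apply]
  by_cases hab : a = b
  · subst hab
    by_cases h : a ∈ S <;> simp [h]
  · by_cases ha : a ∈ S
    · by_cases hb : b ∈ S
      · simp [ha, hb]
      · simp [ha, hb]
    · by_cases hb : b ∈ S
      · simp [ha, hb]
      · have h1 : b ∉ insert a S := by simp [hb, Ne.symm hab]
        have h2 : a ∉ insert b S := by simp [ha, hab]
        rw [if_neg ha, if_neg h1, if_neg hb, if_neg h2, ← mul_assoc, ← mul_assoc,
          sg_swap hab ha hb, Finset.insert_comm a b S]
        ring

lemma eps_eps (a b : α) (f : Finset α → ℂ) : eps a (eps b f) = - eps b (eps a f) := by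
  funext S
  simp only [eps_apply, Pi.neg_apply]
  by_cases hab : a = b
  · subst hab
    by_cases h : a ∈ S <;> simp [h]
  · by_cases ha : a ∈ S
    · by_cases hb : b ∈ S
      · have h1 : b ∈ S.erase a := by simp [hb, Ne.symm hab]
        have h2 : a ∈ S.erase b := by simp [ha, hab]
        rw [if_pos ha, if_pos h1, if_pos hb, if_pos h2]
        set T := (S.erase a).erase b with hT
        have haT : a ∉ T := by simp [hT]
        have hbT : b ∉ T := by simp [hT]
        have e1 : S.erase a = insert b T := by rw [hT, Finset.insert_erase h1]
        have e2 : S.erase b = insert a T := by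
          rw [hT, Finset.erase_right_comm, Finset.insert_erase h2]
        have e3 : S = insert a (insert b T) := by rw [← e1, Finset.insert_erase ha]
        have e4 : (S.erase b).erase a = T := by rw [Finset.erase_right_comm]
        have e5 : S = insert b (insert a T) := by rw [← e2, Finset.insert_erase hb]
        rw [e4]
        have f1 : sg a S = sg a (insert b T) := by
          rw [← e1]; exact sg_erase_self.symm
        have f2 : sg b S = sg b (insert a T) := by
          rw [← e2]; exact sg_erase_self.symm
        have f3 : sg b (S.erase a) = sg b T := by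
          rw [e1]; exact sg_insert_self
        have f4 : sg a (S.erase b) = sg a T := by
          rw [e2]; exact sg_insert_self
        rw [f1, f2, f3, f4]
        have := sg_swap hab haT hbT
        linear_combination (f T) * this
      · simp [ha, hb]
    · by_cases hb : b ∈ S
      · simp [ha, hb]
      · simp [ha, hb]

lemma iota_eps_self (a : α) (f : Finset α → ℂ) : iota a (eps a f) + eps a (iota a f) = f := by
  funext S
  simp only [iota_apply, eps_apply, Pi.add_apply]
  by_cases h : a ∈ S
  · rw [if_pos h, if_pos h, if_neg (by simp), Finset.insert_erase h, sg_erase_self, ← mul_assoc,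
      sg_mul_self]
    ring
  · rw [if_neg h, if_neg h, if_pos (by simp), Finset.erase_insert h, sg_insert_self, ← mul_assoc,
      sg_mul_self]
    ring

lemma iota_eps_of_ne {a b : α} (hab : a ≠ b) (f : Finset α → ℂ) :
    iota a (eps b f) + eps b (iota a f) = 0 := by
  funext S
  simp only [iota_apply, eps_apply, Pi.add_apply, Pi.zero_apply]
  by_cases ha : a ∈ S
  · by_cases hb : b ∈ S
    · have : a ∈ S.erase b := by simp [ha, hab]
      simp [ha, hb, this]
    · simp [ha, hb]
  · by_cases hb : b ∈ S
    · have h1 : b ∈ insert a S := by simp [hb]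
      have h2 : a ∉ S.erase b := by simp [ha]
      rw [if_neg ha, if_pos h1, if_pos hb, if_neg h2]
      set T := S.erase b with hT
      have hbT : b ∉ T := by simp [hT]
      have haT : a ∉ T := h2
      have e1 : S = insert b T := by rw [hT, Finset.insert_erase hb]
      have e2 : (insert a S).erase b = insert a T := by
        rw [hT, Finset.erase_insert_of_ne hab]
      rw [e2, e1, sg_insert_self]
      have e3 : sg b (insert a (insert b T)) = sg b (insert a T) := by
        rw [Finset.insert_comm, sg_insert_self]
      rw [e3]
      have := sg_swap hab haT hbT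
      have sq1 := sg_mul_self a T
      have sq2 := sg_mul_self a (insert b T)
      linear_combination (f (insert a T) * sg a (insert b T) * sg a T) * this
        - f (insert a T) * sg a (insert b T) * sg b (insert a T) * sq1
        - f (insert a T) * sg b T * sg a T * sq2
    · have h1 : b ∉ insert a S := by simp [hb, Ne.symm hab]
      simp [ha, hb, h1]

lemma iota_eps (a b : α) (f : Finset α → ℂ) :
    iota a (eps b f) = (if a = b then f else 0) - eps b (iota a f) := by
  by_cases h : a = b
  · subst h
    rw [if_pos rfl, eq_sub_iff_add_eq, iota_eps_self]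
  · rw [if_neg h, eq_sub_iff_add_eq, iota_eps_of_ne h]

end Pool.Agent.GaussBetti
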