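import Pool.Agent.GaussBetti.CAR

/-!
# The Cech - Koszul complex

Abstract form of the duality between the Koszul cohomology of the section ring and that of the
canonical module, for products of projective lines.
-/

set_option autoImplicit false
set_option linter.unusedSectionVars false

open Finset

namespace Pool.Agent.GaussBetti

/-- Data for the Cech-Koszul complex of `n` projective lines: `B` is the set of multidegrees,
`α` the set of monomials of multidegree `(d,...,d)`. -/
structure CechData (B α : Type*) [LinearOrder α] [Fintype α] (n : ℕ) where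
  L : B → Finset α → Fin n → Prop
  H : B → Finset α → Fin n → Prop
  co : Finset (Fin n) → α
  L_anti : ∀ β S u i, L β (insert u S) i → L β S i
  H_anti : ∀ β S u i, H β (insert u S) i → H β S i
  L_co : ∀ β S I i, i ∉ I → co I ∉ S → L β S i → L β (insert (co I) S) i
  H_co : ∀ β S I i, i ∈ I → co I ∉ S → H β S i → H β (insert (co I) S) i
  mix : ∀ β S i j, L β S i → H β S i → ¬ L β S j → H β S j

namespace CechData

variable {B α : Type*} [LinearOrder α] [Fintype α] {n : ℕ} (C : CechData B α n)

/-- The big space of functions. -/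
abbrev Fld (B α : Type*) (n : ℕ) := B → Finset α → Finset (Fin n) → ℂ

/-- Valid index triples. -/
def valid (β : B) (S : Finset α) (I : Finset (Fin n)) : Prop :=
  (∀ i, i ∉ I → C.L β S i) ∧ (∀ i, i ∈ I → ¬ C.H β S i)

/-- the part of the differential in the direction of `S` -/
noncomputable def pa (f : Finset α → Finset (Fin n) → ℂ) (S : Finset α) (I : Finset (Fin n)) : ℂ :=
  ∑ u : α, iota u (fun S' => f S' I) S

/-- the part of the differential in the direction of `I` -/
noncomputable def de (f : Finset α → Finset (Fin n) → ℂ) (S : Finset α) (I : Finset (Fin n)) : ℂ :=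
  (-1) ^ S.card * ∑ i : Fin n, eps i (f S) I

open Classical in
/-- The differential. -/
noncomputable def D : Fld B α n →ₗ[ℂ] Fld B α n where
  toFun f β S I := if C.valid β S I then pa (f β) S I + de (f β) S I else 0
  map_add' f g := by
    funext β S I
    by_cases h : C.valid β S I
    · change (if C.valid β S I then pa ((f + g) β) S I + de ((f + g) β) S I else 0) =
        (if C.valid β S I then pa (f β) S I + de (f β) S I else 0) +
        (if C.valid β S I then pa (g β) S I + de (g β) S I else 0)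
      rw [if_pos h, if_pos h, if_pos h]
      have e1 : pa ((f + g) β) S I = pa (f β) S I + pa (g β) S I := by
        unfold pa
        rw [← Finset.sum_add_distrib]
        refine Finset.sum_congr rfl fun u _ => ?_
        have : (fun S' => (f + g) β S' I) = (fun S' => f β S' I) + (fun S' => g β S' I) := rfl
        rw [this, map_add]; rfl
      have e2 : de ((f + g) β) S I = de (f β) S I + de (g β) S I := by
        unfold de
        rw [← mul_add, ← Finset.sum_add_distrib]
        congr 1
        refine Finset.sum_congr rfl fun u _ => ?_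
        have : (f + g) β S = f β S + g β S := rfl
        rw [this, map_add]; rfl
      rw [e1, e2]; ring
    · change (if C.valid β S I then pa ((f + g) β) S I + de ((f + g) β) S I else 0) =
        (if C.valid β S I then pa (f β) S I + de (f β) S I else 0) +
        (if C.valid β S I then pa (g β) S I + de (g β) S I else 0)
      rw [if_neg h, if_neg h, if_neg h, add_zero]
  map_smul' c f := by
    funext β S I
    by_cases h : C.valid β S I
    · change (if C.valid β S I then pa ((c • f) β) S I + de ((c • f) β) S I else 0) =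
        c * (if C.valid β S I then pa (f β) S I + de (f β) S I else 0)
      rw [if_pos h, if_pos h]
      have e1 : pa ((c • f) β) S I = c * pa (f β) S I := by
        unfold pa
        rw [Finset.mul_sum]
        refine Finset.sum_congr rfl fun u _ => ?_
        have : (fun S' => (c • f) β S' I) = c • (fun S' => f β S' I) := rfl
        rw [this, map_smul]; rfl
      have e2 : de ((c • f) β) S I = c * de (f β) S I := by
        have key : ∑ i : Fin n, eps i ((c • f) β S) I = c * ∑ i : Fin n, eps i (f β S) I := by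
          rw [Finset.mul_sum]
          refine Finset.sum_congr rfl fun u _ => ?_
          have : (c • f) β S = c • f β S := rfl
          rw [this, map_smul]; rfl
        unfold de
        rw [key]; ring
      rw [e1, e2]; ring
    · change (if C.valid β S I then pa ((c • f) β) S I + de ((c • f) β) S I else 0) =
        c * (if C.valid β S I then pa (f β) S I + de (f β) S I else 0)
      rw [if_neg h, if_neg h, mul_zero]

lemma D_apply_valid {f : Fld B α n} {β : B} {S : Finset α} {I : Finset (Fin n)}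
    (h : C.valid β S I) : C.D f β S I = pa (f β) S I + de (f β) S I := by
  classical
  change (if C.valid β S I then _ else _) = _
  rw [if_pos h]

lemma D_apply_not_valid {f : Fld B α n} {β : B} {S : Finset α} {I : Finset (Fin n)}
    (h : ¬ C.valid β S I) : C.D f β S I = 0 := by
  classical
  change (if C.valid β S I then _ else _) = _
  rw [if_neg h]

/-- The graded piece of the complex. -/
def V (m : ℤ) : Submodule ℂ (Fld B α n) where
  carrier := {f | ∀ β S I, f β S I ≠ 0 → C.valid β S I ∧ (S.card : ℤ) - I.card = m}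
  add_mem' {f g} hf hg := by
    intro β S I h
    by_cases h1 : f β S I = 0
    · by_cases h2 : g β S I = 0
      · exact absurd (by simp [h1, h2]) h
      · exact hg β S I h2
    · exact hf β S I h1
  zero_mem' := by intro β S I h; exact absurd rfl h
  smul_mem' c f hf := by
    intro β S I h
    refine hf β S I ?_
    intro h1
    exact h (by simp [h1])

lemma mem_V {m : ℤ} {f : Fld B α n} :
    f ∈ C.V m ↔ ∀ β S I, f β S I ≠ 0 → C.valid β S I ∧ (S.card : ℤ) - I.card = m := Iff.rfl

lemma iota_ne_zero {α : Type*} [LinearOrder α] {u : α} {f : Finset α → ℂ} {S : Finset α}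
    (h : iota u f S ≠ 0) : u ∉ S ∧ f (insert u S) ≠ 0 := by
  rw [iota_apply] at h
  by_cases hu : u ∈ S
  · simp [hu] at h
  · rw [if_neg hu] at h
    exact ⟨hu, right_ne_zero_of_mul h⟩

lemma eps_ne_zero {α : Type*} [LinearOrder α] {u : α} {f : Finset α → ℂ} {S : Finset α}
    (h : eps u f S ≠ 0) : u ∈ S ∧ f (S.erase u) ≠ 0 := by
  rw [eps_apply] at h
  by_cases hu : u ∈ S
  · rw [if_pos hu] at h
    exact ⟨hu, right_ne_zero_of_mul h⟩
  · simp [hu] at h

lemma pa_ne_zero {f : Finset α → Finset (Fin n) → ℂ} {S : Finset α} {I : Finset (Fin n)}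
    (h : pa f S I ≠ 0) : ∃ u, u ∉ S ∧ f (insert u S) I ≠ 0 := by
  unfold pa at h
  obtain ⟨u, _, hu⟩ := Finset.exists_ne_zero_of_sum_ne_zero h
  exact ⟨u, iota_ne_zero hu⟩

lemma de_ne_zero {f : Finset α → Finset (Fin n) → ℂ} {S : Finset α} {I : Finset (Fin n)}
    (h : de f S I ≠ 0) : ∃ i, i ∈ I ∧ f S (I.erase i) ≠ 0 := by
  unfold de at h
  obtain ⟨u, _, hu⟩ := Finset.exists_ne_zero_of_sum_ne_zero (right_ne_zero_of_mul h)
  exact ⟨u, eps_ne_zero hu⟩

lemma pa_eq_zero {f : Finset α → Finset (Fin n) → ℂ} {S : Finset α} {I : Finset (Fin n)}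
    (h : ∀ u, u ∉ S → f (insert u S) I = 0) : pa f S I = 0 := by
  by_contra h1
  obtain ⟨u, hu, hu'⟩ := pa_ne_zero h1
  exact hu' (h u hu)

lemma de_eq_zero {f : Finset α → Finset (Fin n) → ℂ} {S : Finset α} {I : Finset (Fin n)}
    (h : ∀ i, i ∈ I → f S (I.erase i) = 0) : de f S I = 0 := by
  by_contra h1
  obtain ⟨u, hu, hu'⟩ := de_ne_zero h1
  exact hu' (h u hu)

lemma D_mem_V {m : ℤ} {f : Fld B α n} (hf : f ∈ C.V m) : C.D f ∈ C.V (m - 1) := by
  intro β S I h
  by_cases hv : C.valid β S I
  · refine ⟨hv, ?_⟩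
    rw [C.D_apply_valid hv] at h
    by_cases h1 : pa (f β) S I = 0
    · have h2 : de (f β) S I ≠ 0 := by
        intro h2; apply h; rw [h1, h2, add_zero]
      obtain ⟨i, hi, hi'⟩ := de_ne_zero h2
      have := (hf β S _ hi').2
      rw [Finset.card_erase_of_mem hi] at this
      have hpos : 0 < I.card := Finset.card_pos.mpr ⟨i, hi⟩
      push_cast [Nat.cast_sub (Nat.succ_le_of_lt hpos)] at this
      omega
    · obtain ⟨u, hu, hu'⟩ := pa_ne_zero h1
      have := (hf β _ I hu').2
      rw [Finset.card_insert_of_notMem hu] at this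
      push_cast at this
      omega
  · exact absurd (C.D_apply_not_valid hv) h

lemma antisymm_sum_zero {ι : Type*} [Fintype ι] (A : ι → ι → ℂ) (h : ∀ i j, A i j = - A j i) :
    ∑ i, ∑ j, A i j = 0 := by
  have h1 : ∑ i, ∑ j, A i j = ∑ i, ∑ j, A j i := Finset.sum_comm
  have h2 : ∑ i, ∑ j, A j i = - ∑ i, ∑ j, A i j := by
    rw [← Finset.sum_neg_distrib]
    refine Finset.sum_congr rfl fun i _ => ?_
    rw [← Finset.sum_neg_distrib]
    exact Finset.sum_congr rfl fun j _ => h j i
  have h3 : ∑ i, ∑ j, A i j = - ∑ i, ∑ j, A i j := h1.trans h2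
  exact self_eq_neg.mp h3

lemma pa_pa (f : Finset α → Finset (Fin n) → ℂ) (S : Finset α) (I : Finset (Fin n)) :
    pa (fun S' I' => pa f S' I') S I = 0 := by
  unfold pa
  have : ∀ u : α, iota u (fun S' => ∑ v : α, iota v (fun S'' => f S'' I) S') S
      = ∑ v : α, iota u (iota v (fun S'' => f S'' I)) S := by
    intro u
    have e : (fun S' => ∑ v : α, iota v (fun S'' => f S'' I) S')
        = ∑ v : α, iota v (fun S'' => f S'' I) := by
      funext S'; rw [Finset.sum_apply]
    rw [e, map_sum, Finset.sum_apply]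
  rw [Finset.sum_congr rfl fun u _ => this u]
  apply antisymm_sum_zero
  intro u v
  rw [iota_iota]; rfl

lemma de_de (f : Finset α → Finset (Fin n) → ℂ) (S : Finset α) (I : Finset (Fin n)) :
    de (fun S' I' => de f S' I') S I = 0 := by
  unfold de
  have : ∀ i : Fin n, eps i (fun I' => (-1 : ℂ) ^ S.card * ∑ j : Fin n, eps j (f S) I') I
      = (-1 : ℂ) ^ S.card * ∑ j : Fin n, eps i (eps j (f S)) I := by
    intro i
    have e : (fun I' => (-1 : ℂ) ^ S.card * ∑ j : Fin n, eps j (f S) I')
        = (-1 : ℂ) ^ S.card • ∑ j : Fin n, eps j (f S) := by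
      funext I'; rw [Pi.smul_apply, Finset.sum_apply, smul_eq_mul]
    rw [e, map_smul, map_sum, Pi.smul_apply, Finset.sum_apply, smul_eq_mul]
  rw [Finset.sum_congr rfl fun i _ => this i, ← Finset.mul_sum,
    antisymm_sum_zero (fun i j => eps i (eps j (f S)) I)]
  · ring
  · intro i j
    simp only [eps_eps i j]; rfl

lemma pa_de (f : Finset α → Finset (Fin n) → ℂ) (S : Finset α) (I : Finset (Fin n)) :
    pa (fun S' I' => de f S' I') S I + de (fun S' I' => pa f S' I') S I = 0 := by
  unfold pa de
  have h1 : ∀ u : α, iota u (fun S' => (-1 : ℂ) ^ S'.card * ∑ i : Fin n, eps i (f S') I) S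
      = ∑ i : Fin n, (if u ∈ S then 0 else if i ∈ I then
        - ((-1 : ℂ) ^ S.card * (sg u S * (sg i I * f (insert u S) (I.erase i)))) else 0) := by
    intro u
    rw [iota_apply]
    by_cases hu : u ∈ S
    · simp [hu]
    · simp only [hu, if_false]
      rw [Finset.card_insert_of_notMem hu, pow_succ, Finset.mul_sum, Finset.mul_sum]
      refine Finset.sum_congr rfl fun i _ => ?_
      rw [eps_apply]
      by_cases hi : i ∈ I
      · simp only [hi, if_true]; ring
      · simp [hi]
  have h2 : ∀ i : Fin n, eps i (fun I' => ∑ u : α, iota u (fun S' => f S' I') S) I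
      = ∑ u : α, (if u ∈ S then 0 else if i ∈ I then
        (sg u S * (sg i I * f (insert u S) (I.erase i))) else 0) := by
    intro i
    rw [eps_apply]
    by_cases hi : i ∈ I
    · simp only [hi, if_true]
      rw [Finset.mul_sum]
      refine Finset.sum_congr rfl fun u _ => ?_
      rw [iota_apply]
      by_cases hu : u ∈ S
      · simp [hu]
      · simp only [hu, if_false]; ring
    · simp [hi]
  rw [Finset.sum_congr rfl fun u _ => h1 u, Finset.sum_congr rfl fun i _ => h2 i,
    Finset.mul_sum, Finset.sum_comm, ← Finset.sum_add_distrib]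
  refine Finset.sum_eq_zero fun i _ => ?_
  rw [Finset.mul_sum, ← Finset.sum_add_distrib]
  refine Finset.sum_eq_zero fun u _ => ?_
  by_cases hu : u ∈ S
  · simp [hu]
  · by_cases hi : i ∈ I
    · simp only [hu, hi, if_false, if_true]; ring
    · simp [hu, hi]

lemma valid_of_insert {β : B} {S : Finset α} {I : Finset (Fin n)} {u v : α}
    (h1 : C.valid β (insert v (insert u S)) I) (h2 : C.valid β S I) :
    C.valid β (insert u S) I := by
  refine ⟨fun i hi => C.L_anti β _ v i (h1.1 i hi), fun i hi h => ?_⟩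
  exact h2.2 i hi (C.H_anti β S u i h)

lemma valid_of_insert_erase {β : B} {S : Finset α} {I : Finset (Fin n)} {u : α} {i : Fin n}
    (h1 : C.valid β (insert u S) (I.erase i)) (h2 : C.valid β S I) :
    C.valid β (insert u S) I := by
  refine ⟨fun j hj => h1.1 j (fun h => hj (Finset.mem_of_mem_erase h)), fun j hj h => ?_⟩
  exact h2.2 j hj (C.H_anti β S u j h)

lemma valid_of_insert_erase' {β : B} {S : Finset α} {I : Finset (Fin n)} {u : α} {i : Fin n}
    (h1 : C.valid β (insert u S) (I.erase i)) (h2 : C.valid β S I) :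
    C.valid β S (I.erase i) := by
  refine ⟨fun j hj => C.L_anti β _ u j (h1.1 j hj), fun j hj h => ?_⟩
  exact h2.2 j (Finset.mem_of_mem_erase hj) h

lemma valid_of_erase_erase {β : B} {S : Finset α} {I : Finset (Fin n)} {i j : Fin n}
    (h1 : C.valid β S ((I.erase i).erase j)) (h2 : C.valid β S I) :
    C.valid β S (I.erase i) := by
  refine ⟨fun k hk => h1.1 k (fun h => hk (Finset.mem_of_mem_erase h)), fun k hk h => ?_⟩
  exact h2.2 k (Finset.mem_of_mem_erase hk) h

lemma D_D {m : ℤ} {f : Fld B α n} (hf : f ∈ C.V m) : C.D (C.D f) = 0 := by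
  funext β S I
  by_cases hv : C.valid β S I
  swap
  · exact C.D_apply_not_valid hv
  rw [C.D_apply_valid hv]
  -- the raw differential
  have hpa : pa (C.D f β) S I = pa (fun S' I' => pa (f β) S' I' + de (f β) S' I') S I := by
    unfold pa
    refine Finset.sum_congr rfl fun u _ => ?_
    rw [iota_apply, iota_apply]
    by_cases hu : u ∈ S
    · simp [hu]
    · rw [if_neg hu, if_neg hu]
      congr 1
      by_cases hv' : C.valid β (insert u S) I
      · rw [C.D_apply_valid hv']; rfl
      · rw [C.D_apply_not_valid hv']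
        symm
        have e1 : pa (f β) (insert u S) I = 0 := by
          apply pa_eq_zero
          intro v hv1
          by_contra h
          exact hv' (C.valid_of_insert (hf β _ _ h).1 hv)
        have e2 : de (f β) (insert u S) I = 0 := by
          apply de_eq_zero
          intro i hi
          by_contra h
          exact hv' (C.valid_of_insert_erase (hf β _ _ h).1 hv)
        change pa (f β) (insert u S) I + de (f β) (insert u S) I = 0
        rw [e1, e2, add_zero]
  have hde : de (C.D f β) S I = de (fun S' I' => pa (f β) S' I' + de (f β) S' I') S I := by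
    unfold de
    congr 1
    refine Finset.sum_congr rfl fun i _ => ?_
    rw [eps_apply, eps_apply]
    by_cases hi : i ∈ I
    · rw [if_pos hi, if_pos hi]
      congr 1
      by_cases hv' : C.valid β S (I.erase i)
      · rw [C.D_apply_valid hv']; rfl
      · rw [C.D_apply_not_valid hv']
        symm
        have e1 : pa (f β) S (I.erase i) = 0 := by
          apply pa_eq_zero
          intro v hv1
          by_contra h
          exact hv' (C.valid_of_insert_erase' (hf β _ _ h).1 hv)
        have e2 : de (f β) S (I.erase i) = 0 := by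
          apply de_eq_zero
          intro j hj
          by_contra h
          exact hv' (C.valid_of_erase_erase (hf β _ _ h).1 hv)
        change pa (f β) S (I.erase i) + de (f β) S (I.erase i) = 0
        rw [e1, e2, add_zero]
    · rw [if_neg hi, if_neg hi]
  rw [hpa, hde]
  have a1 : pa (fun S' I' => pa (f β) S' I' + de (f β) S' I') S I
      = pa (fun S' I' => pa (f β) S' I') S I + pa (fun S' I' => de (f β) S' I') S I := by
    unfold pa
    rw [← Finset.sum_add_distrib]
    refine Finset.sum_congr rfl fun u _ => ?_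
    rw [← Pi.add_apply, ← map_add]; rfl
  have a2 : de (fun S' I' => pa (f β) S' I' + de (f β) S' I') S I
      = de (fun S' I' => pa (f β) S' I') S I + de (fun S' I' => de (f β) S' I') S I := by
    unfold de
    rw [← mul_add, ← Finset.sum_add_distrib]
    congr 1
    refine Finset.sum_congr rfl fun u _ => ?_
    rw [← Pi.add_apply, ← map_add]; rfl
  rw [a1, a2, pa_pa, de_de]
  have := pa_de (f β) S I
  simp only [Pi.zero_apply]
  linear_combination this

/-- The row homotopy. -/
def h (f : Fld B α n) : Fld B α n := fun β S I => eps (C.co I) (fun S' => f β S' I) S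

lemma valid_erase_co {β : B} {S : Finset α} {I : Finset (Fin n)} (hS : C.co I ∈ S) :
    C.valid β (S.erase (C.co I)) I ↔ C.valid β S I := by
  have hn : C.co I ∉ S.erase (C.co I) := by simp
  have e : insert (C.co I) (S.erase (C.co I)) = S := Finset.insert_erase hS
  constructor
  · intro hv
    refine ⟨fun i hi => ?_, fun i hi hh => ?_⟩
    · have := C.L_co β _ I i hi hn (hv.1 i hi)
      rwa [e] at this
    · refine hv.2 i hi ?_
      apply C.H_anti β _ (C.co I) i
      rwa [e]
  · intro hv
    refine ⟨fun i hi => ?_, fun i hi hh => ?_⟩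
    · apply C.L_anti β _ (C.co I) i
      rw [e]; exact hv.1 i hi
    · refine hv.2 i hi ?_
      have := C.H_co β _ I i hi hn hh
      rwa [e] at this

lemma h_mem_V {m : ℤ} {f : Fld B α n} (hf : f ∈ C.V m) : C.h f ∈ C.V (m + 1) := by
  intro β S I hh
  obtain ⟨h1, h2⟩ := eps_ne_zero hh
  obtain ⟨h3, h4⟩ := hf β _ _ h2
  refine ⟨(C.valid_erase_co h1).mp h3, ?_⟩
  rw [Finset.card_erase_of_mem h1] at h4
  have hpos : 0 < S.card := Finset.card_pos.mpr ⟨_, h1⟩
  push_cast [Nat.cast_sub (Nat.succ_le_of_lt hpos)] at h4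
  omega

/-- The row identity. -/
lemma D_h {m : ℤ} {f : Fld B α n} (hf : f ∈ C.V m) (hD : C.D f = 0) {β : B} {S : Finset α}
    {I : Finset (Fin n)} (hI : ∀ i ∈ I, ∀ S', f β S' (I.erase i) = 0) :
    C.D (C.h f) β S I = f β S I := by
  by_cases hv : C.valid β S I
  swap
  · rw [C.D_apply_not_valid hv]
    by_contra h
    exact hv (hf β S I (Ne.symm h)).1
  rw [C.D_apply_valid hv]
  have h1 : de (C.h f β) S I = 0 := by
    apply de_eq_zero
    intro i hi
    change eps (C.co (I.erase i)) (fun S' => f β S' (I.erase i)) S = 0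
    rw [eps_apply]
    by_cases hc : C.co (I.erase i) ∈ S
    · rw [if_pos hc, hI i hi, mul_zero]
    · rw [if_neg hc]
  have h2 : pa (C.h f β) S I = f β S I - eps (C.co I) (fun S' => pa (f β) S' I) S := by
    unfold pa
    change ∑ u : α, iota u (eps (C.co I) (fun S' => f β S' I)) S = _
    have : ∀ u : α, iota u (eps (C.co I) (fun S' => f β S' I)) S
        = (if u = C.co I then f β S I else 0)
          - eps (C.co I) (iota u (fun S' => f β S' I)) S := by
      intro u
      rw [iota_eps]
      by_cases hu : u = C.co I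
      · simp [hu]
      · simp [hu]
    rw [Finset.sum_congr rfl fun u _ => this u, Finset.sum_sub_distrib]
    congr 1
    · simp
    · have e : (fun S' => ∑ u : α, iota u (fun S'' => f β S'' I) S')
          = ∑ u : α, iota u (fun S'' => f β S'' I) := by
        funext S'; rw [Finset.sum_apply]
      rw [e, map_sum, Finset.sum_apply]
  rw [h1, h2, add_zero]
  have h3 : eps (C.co I) (fun S' => pa (f β) S' I) S = 0 := by
    rw [eps_apply]
    by_cases hc : C.co I ∈ S
    · rw [if_pos hc]
      have hv' : C.valid β (S.erase (C.co I)) I := (C.valid_erase_co hc).mpr hv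
      have e1 : C.D f β (S.erase (C.co I)) I = 0 := by rw [hD]; rfl
      rw [C.D_apply_valid hv'] at e1
      have e2 : de (f β) (S.erase (C.co I)) I = 0 := by
        apply de_eq_zero
        intro i hi
        exact hI i hi _
      rw [e2, add_zero] at e1
      rw [e1, mul_zero]
    · rw [if_neg hc]
  rw [h3, sub_zero]

/-- The total complex is exact. -/
theorem V_exact (m : ℤ) (f : Fld B α n) (hf : f ∈ C.V m) (hD : C.D f = 0) :
    ∃ y ∈ C.V (m + 1), C.D y = f := by
  suffices H : ∀ j : ℕ, ∀ f : Fld B α n, f ∈ C.V m → C.D f = 0 →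
      (∀ β S I, I.card + j < n + 1 → f β S I = 0) → ∃ y ∈ C.V (m + 1), C.D y = f by
    exact H (n + 1) f hf hD (fun β S I h => by omega)
  intro j
  induction j with
  | zero =>
    intro f hf _ h0
    refine ⟨0, Submodule.zero_mem _, ?_⟩
    rw [map_zero]
    funext β S I
    symm
    apply h0
    have := Finset.card_le_univ I
    rw [Fintype.card_fin] at this
    omega
  | succ j ih =>
    intro f hf hD h0
    have hh := C.h_mem_V hf
    have hm : m + 1 - 1 = m := by ring
    have hDh : C.D (C.h f) ∈ C.V m := by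
      have := C.D_mem_V hh
      rwa [hm] at this
    obtain ⟨y, hy, hy'⟩ := ih (f - C.D (C.h f)) (Submodule.sub_mem _ hf hDh)
      (by rw [map_sub, hD, C.D_D hh, sub_zero]) (by
        intro β S I hI
        change f β S I - C.D (C.h f) β S I = 0
        rw [C.D_h hf hD, sub_self]
        intro i hi S'
        apply h0
        rw [Finset.card_erase_of_mem hi]
        have hpos : 0 < I.card := Finset.card_pos.mpr ⟨i, hi⟩
        omega)
    refine ⟨C.h f + y, Submodule.add_mem _ hh hy, ?_⟩
    rw [map_add, hy']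
    abel

/-- Columns of the section ring. -/
def Rset (β : B) (S : Finset α) : Prop := ∀ i, C.L β S i ∧ C.H β S i

/-- Columns of the top cohomology module. -/
def Mset (β : B) (S : Finset α) : Prop := ∀ i, ¬ C.L β S i ∧ ¬ C.H β S i

/-- The remaining columns. -/
def Mid (β : B) (S : Finset α) : Prop := ∃ i, C.L β S i ∧ ¬ C.H β S i

lemma Rset_anti {β : B} {S : Finset α} {u : α} (h : C.Rset β (insert u S)) : C.Rset β S :=
  fun i => ⟨C.L_anti β S u i (h i).1, C.H_anti β S u i (h i).2⟩

lemma Mset_mono {β : B} {S : Finset α} {u : α} (h : C.Mset β S) : C.Mset β (insert u S) :=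
  fun i => ⟨fun h' => (h i).1 (C.L_anti β S u i h'), fun h' => (h i).2 (C.H_anti β S u i h')⟩

lemma not_Mid_of_Rset {β : B} {S : Finset α} (h : C.Rset β S) : ¬ C.Mid β S := by
  rintro ⟨i, _, hi⟩; exact hi (h i).2

lemma not_Mid_of_Mset {β : B} {S : Finset α} (h : C.Mset β S) : ¬ C.Mid β S := by
  rintro ⟨i, hi, _⟩; exact (h i).1 hi

lemma trichotomy {β : B} {S : Finset α} {I : Finset (Fin n)} (hv : C.valid β S I)
    (hm : ¬ C.Mid β S) : (C.Rset β S ∧ I = ∅) ∨ (C.Mset β S ∧ I = univ) := by
  have h1 : ∀ i, i ∉ I → C.L β S i ∧ C.H β S i := by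
    intro i hi
    refine ⟨hv.1 i hi, ?_⟩
    by_contra h
    exact hm ⟨i, hv.1 i hi, h⟩
  have h2 : ∀ i, i ∈ I → ¬ C.L β S i ∧ ¬ C.H β S i := by
    intro i hi
    refine ⟨fun h => hm ⟨i, h, hv.2 i hi⟩, hv.2 i hi⟩
  by_cases hI : I = univ
  · right
    refine ⟨fun i => h2 i (by rw [hI]; exact mem_univ i), hI⟩
  · left
    have : ∃ i, i ∉ I := by
      by_contra h
      push Not at h
      exact hI (Finset.eq_univ_of_forall h)
    obtain ⟨i, hi⟩ := this
    have hIe : I = ∅ := by
      rw [Finset.eq_empty_iff_forall_notMem]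
      intro j hj
      exact (h2 j hj).2 (C.mix β S i j (h1 i hi).1 (h1 i hi).2 (h2 j hj).1)
    refine ⟨fun j => h1 j (by rw [hIe]; simp), hIe⟩

/-- `f` has no component in the top cohomology module. -/
def offM (f : Fld B α n) : Prop := ∀ β S, C.Mset β S → f β S univ = 0

/-- `f` is supported on the section ring part. -/
def onR (f : Fld B α n) : Prop := ∀ β S I, f β S I ≠ 0 → C.Rset β S ∧ I = ∅

open Classical in
/-- the column homotopy -/
noncomputable def g (f : Fld B α n) : Fld B α n := fun β S I =>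
  if hm : C.Mid β S then (-1) ^ S.card * iota hm.choose (f β S) I else 0

lemma g_apply_mid {f : Fld B α n} {β : B} {S : Finset α} {I : Finset (Fin n)}
    (hm : C.Mid β S) : C.g f β S I = (-1) ^ S.card * iota hm.choose (f β S) I := by
  unfold g; rw [dif_pos hm]

lemma g_apply_not_mid {f : Fld B α n} {β : B} {S : Finset α} {I : Finset (Fin n)}
    (hm : ¬ C.Mid β S) : C.g f β S I = 0 := by
  unfold g; rw [dif_neg hm]

lemma g_mem_V {m : ℤ} {f : Fld B α n} (hf : f ∈ C.V m) : C.g f ∈ C.V (m + 1) := by
  intro β S I hh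
  by_cases hm : C.Mid β S
  swap
  · exact absurd (C.g_apply_not_mid hm) hh
  rw [C.g_apply_mid hm] at hh
  obtain ⟨h1, h2⟩ := iota_ne_zero (right_ne_zero_of_mul hh)
  obtain ⟨h3, h4⟩ := hf β _ _ h2
  have hs := hm.choose_spec
  refine ⟨⟨fun i hi => ?_, fun i hi => h3.2 i (by simp [hi])⟩, ?_⟩
  · by_cases hc : i = hm.choose
    · rw [hc]; exact hs.1
    · exact h3.1 i (by simp [hi, hc])
  · rw [Finset.card_insert_of_notMem h1] at h4
    push_cast at h4
    omega

/-- The column identity. -/
lemma D_g {m : ℤ} {f : Fld B α n} (hf : f ∈ C.V m) (hoff : C.offM f) (hD : C.onR (C.D f))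
    {β : B} {S : Finset α} (hm : C.Mid β S) (hS : ∀ u, u ∉ S → C.Mid β (insert u S) →
      ∀ I, f β (insert u S) I = 0) (I : Finset (Fin n)) :
    C.D (C.g f) β S I = f β S I := by
  by_cases hv : C.valid β S I
  swap
  · rw [C.D_apply_not_valid hv]
    by_contra h
    exact hv (hf β S I (Ne.symm h)).1
  rw [C.D_apply_valid hv]
  have h1 : pa (C.g f β) S I = 0 := by
    apply pa_eq_zero
    intro u hu
    by_cases hm' : C.Mid β (insert u S)
    · rw [C.g_apply_mid hm', iota_apply]
      by_cases hc : hm'.choose ∈ I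
      · rw [if_pos hc, mul_zero]
      · rw [if_neg hc, hS u hu hm', mul_zero, mul_zero]
    · exact C.g_apply_not_mid hm'
  have hgS : C.g f β S = (-1 : ℂ) ^ S.card • iota hm.choose (f β S) := by
    funext J
    rw [C.g_apply_mid hm]; rfl
  have h2 : de (C.g f β) S I = f β S I - iota hm.choose (∑ i : Fin n, eps i (f β S)) I := by
    unfold de
    rw [hgS]
    have : ∀ i : Fin n, eps i ((-1 : ℂ) ^ S.card • iota hm.choose (f β S)) I
        = (-1 : ℂ) ^ S.card * ((if hm.choose = i then f β S I else 0)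
          - iota hm.choose (eps i (f β S)) I) := by
      intro i
      rw [map_smul, Pi.smul_apply, smul_eq_mul]
      congr 1
      have := congrFun (iota_eps hm.choose i (f β S)) I
      rw [this]
      by_cases hc : hm.choose = i
      · simp [hc]
      · simp [hc]
    rw [Finset.sum_congr rfl fun i _ => this i, ← Finset.mul_sum, ← mul_assoc, ← mul_pow,
      Finset.sum_sub_distrib, map_sum, Finset.sum_apply]
    simp
  rw [h1, h2, zero_add]
  have h3 : iota hm.choose (∑ i : Fin n, eps i (f β S)) I = 0 := by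
    rw [iota_apply]
    by_cases hc : hm.choose ∈ I
    · rw [if_pos hc]
    · rw [if_neg hc]
      have hs := hm.choose_spec
      have hv' : C.valid β S (insert hm.choose I) := by
        refine ⟨fun i hi => hv.1 i (fun h => hi (by simp [h])), fun i hi => ?_⟩
        rcases Finset.mem_insert.mp hi with h | h
        · rw [h]; exact hs.2
        · exact hv.2 i h
      have e1 : C.D f β S (insert hm.choose I) = 0 := by
        by_contra h
        exact C.not_Mid_of_Rset (hD β S _ h).1 hm
      rw [C.D_apply_valid hv'] at e1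
      have e2 : pa (f β) S (insert hm.choose I) = 0 := by
        apply pa_eq_zero
        intro u hu
        by_contra h
        by_cases hm' : C.Mid β (insert u S)
        · exact h (hS u hu hm' _)
        · rcases C.trichotomy (hf β _ _ h).1 hm' with ⟨h5, _⟩ | ⟨h5, h6⟩
          · exact C.not_Mid_of_Rset (C.Rset_anti h5) hm
          · rw [h6] at h
            exact h (hoff β _ h5)
      rw [e2, zero_add] at e1
      unfold de at e1
      have e3 : ∑ i : Fin n, eps i (f β S) (insert hm.choose I) = 0 := by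
        rcases mul_eq_zero.mp e1 with h | h
        · exact absurd h (pow_ne_zero _ (by norm_num))
        · exact h
      rw [Finset.sum_apply, e3, mul_zero]
  rw [h3, sub_zero]

/-- Exactness of the middle part. -/
theorem mid_exact (m : ℤ) (f : Fld B α n) (hf : f ∈ C.V m) (hoff : C.offM f)
    (hD : C.onR (C.D f)) :
    ∃ z ∈ C.V (m + 1), C.offM z ∧ C.onR (f - C.D z) := by
  suffices H : ∀ j : ℕ, ∀ f : Fld B α n, f ∈ C.V m → C.offM f → C.onR (C.D f) →
      (∀ β S, C.Mid β S → j ≤ S.card → ∀ I, f β S I = 0) →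
      ∃ z ∈ C.V (m + 1), C.offM z ∧ C.onR (f - C.D z) by
    refine H (Fintype.card α + 1) f hf hoff hD (fun β S _ hc I => ?_)
    have := Finset.card_le_univ S
    omega
  intro j
  induction j with
  | zero =>
    intro f hf hoff _ h0
    refine ⟨0, Submodule.zero_mem _, fun β S _ => rfl, ?_⟩
    rw [map_zero, sub_zero]
    intro β S I h
    by_cases hm : C.Mid β S
    · exact absurd (h0 β S hm (Nat.zero_le _) I) h
    · rcases C.trichotomy (hf β S I h).1 hm with h1 | ⟨h1, h2⟩
      · exact h1
      · rw [h2] at h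
        exact absurd (hoff β S h1) h
  | succ j ih =>
    intro f hf hoff hD h0
    have hg := C.g_mem_V hf
    have hm1 : m + 1 - 1 = m := by ring
    have hDg : C.D (C.g f) ∈ C.V m := by
      have := C.D_mem_V hg
      rwa [hm1] at this
    have hoffg : C.offM (C.g f) := by
      intro β S hS
      exact C.g_apply_not_mid (C.not_Mid_of_Mset hS)
    have hoffDg : C.offM (C.D (C.g f)) := by
      intro β S hS
      by_contra h
      by_cases hv : C.valid β S univ
      swap
      · exact h (C.D_apply_not_valid hv)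
      rw [C.D_apply_valid hv] at h
      apply h
      rw [pa_eq_zero (fun u _ => hoffg β _ (C.Mset_mono hS)),
        de_eq_zero (fun i _ => C.g_apply_not_mid (C.not_Mid_of_Mset hS)), add_zero]
    obtain ⟨z, hz, hz1, hz2⟩ := ih (f - C.D (C.g f)) (Submodule.sub_mem _ hf hDg)
      (by
        intro β S hS
        change f β S univ - C.D (C.g f) β S univ = 0
        rw [hoff β S hS, hoffDg β S hS, sub_zero])
      (by rw [map_sub, C.D_D hg, sub_zero]; exact hD)
      (by
        intro β S hm hc I
        change f β S I - C.D (C.g f) β S I = 0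
        rw [C.D_g hf hoff hD hm, sub_self]
        intro u hu hm' I'
        apply h0 β _ hm'
        rw [Finset.card_insert_of_notMem hu]
        omega)
    refine ⟨C.g f + z, Submodule.add_mem _ hg hz, ?_, ?_⟩
    · intro β S hS
      change C.g f β S univ + z β S univ = 0
      rw [hoffg β S hS, hz1 β S hS, add_zero]
    · rw [map_add, ← sub_sub]
      exact hz2

/-- The zigzag: the homology of the section ring part is the cokernel of the top part. -/
theorem zigzag {R0 R1 M1 M2 : Type*} [AddCommGroup R0] [Module ℂ R0] [AddCommGroup R1]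
    [Module ℂ R1] [AddCommGroup M1] [Module ℂ M1] [AddCommGroup M2] [Module ℂ M2] (p : ℤ)
    (ρ0 : R0 →ₗ[ℂ] Fld B α n) (ρ1 : R1 →ₗ[ℂ] Fld B α n) (dR : R1 →ₗ[ℂ] R0)
    (Z : Submodule ℂ R0)
    (hρ0V : ∀ r, ρ0 r ∈ C.V p) (hρ1V : ∀ x, ρ1 x ∈ C.V (p + 1))
    (hρ0R : ∀ r, C.onR (ρ0 r)) (hρ1R : ∀ x, C.onR (ρ1 x))
    (hρ0inj : Function.Injective ρ0)
    (hρ0surj : ∀ f ∈ C.V p, C.onR f → ∃ r, ρ0 r = f)
    (hρ1surj : ∀ f ∈ C.V (p + 1), C.onR f → ∃ x, ρ1 x = f)
    (hdR : ∀ x, C.D (ρ1 x) = ρ0 (dR x))
    (hZ : ∀ r, r ∈ Z ↔ C.D (ρ0 r) = 0)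
    (μ1 : Fld B α n →ₗ[ℂ] M1) (μ2 : Fld B α n →ₗ[ℂ] M2) (dM : M2 →ₗ[ℂ] M1)
    (hμ1 : ∀ y ∈ C.V (p + 1), (μ1 y = 0 ↔ C.offM y))
    (hμ1s : ∀ m, ∃ y ∈ C.V (p + 1), μ1 y = m)
    (hμ2s : ∀ m, ∃ y ∈ C.V (p + 1 + 1), μ2 y = m)
    (hdM : ∀ y ∈ C.V (p + 1 + 1), μ1 (C.D y) = dM (μ2 y))
    (hbot : ∀ f ∈ C.V p, C.offM f)
    (hdisj : ∀ f, C.onR f → C.offM f) :
    Module.finrank ℂ (Z ⧸ (LinearMap.range dR).comap Z.subtype)
      = Module.finrank ℂ (M1 ⧸ LinearMap.range dM) := by
  have hVsub : ∀ m : ℤ, ∀ y ∈ C.V (m + 1), C.D y ∈ C.V m := by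
    intro m y hy
    have := C.D_mem_V hy
    rwa [show m + 1 - 1 = m by ring] at this
  let G : Submodule ℂ (R0 × Fld B α n) :=
    { carrier := {x | x.2 ∈ C.V (p + 1) ∧ C.D x.2 = ρ0 x.1}
      add_mem' := by
        rintro ⟨r, y⟩ ⟨r', y'⟩ ⟨h1, h2⟩ ⟨h3, h4⟩
        exact ⟨Submodule.add_mem _ h1 h3, by
          change C.D (y + y') = ρ0 (r + r')
          rw [map_add, map_add]
          change C.D y = ρ0 r at h2
          change C.D y' = ρ0 r' at h4
          rw [h2, h4]⟩
      zero_mem' := ⟨Submodule.zero_mem _, by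
        change C.D 0 = ρ0 0
        rw [map_zero, map_zero]⟩
      smul_mem' := by
        rintro c ⟨r, y⟩ ⟨h1, h2⟩
        exact ⟨Submodule.smul_mem _ c h1, by
          change C.D (c • y) = ρ0 (c • r)
          rw [map_smul, map_smul]
          change C.D y = ρ0 r at h2
          rw [h2]⟩ }
  have hG : ∀ x : R0 × Fld B α n, x ∈ G ↔ x.2 ∈ C.V (p + 1) ∧ C.D x.2 = ρ0 x.1 := fun x => Iff.rfl
  have hGZ : ∀ x : G, (x : R0 × Fld B α n).1 ∈ Z := by
    intro x
    obtain ⟨h1, h2⟩ := (hG _).mp x.2
    rw [hZ, ← h2, C.D_D h1]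
  let φ1 : G →ₗ[ℂ] Z ⧸ (LinearMap.range dR).comap Z.subtype :=
    (Submodule.mkQ _).comp (LinearMap.codRestrict Z ((LinearMap.fst ℂ _ _).comp G.subtype) hGZ)
  let φ2 : G →ₗ[ℂ] M1 ⧸ LinearMap.range dM :=
    (Submodule.mkQ _).comp (μ1.comp ((LinearMap.snd ℂ _ _).comp G.subtype))
  have s1 : Function.Surjective φ1 := by
    intro q
    obtain ⟨z, rfl⟩ := Submodule.mkQ_surjective _ q
    obtain ⟨y, hy, hy'⟩ := C.V_exact p (ρ0 z) (hρ0V _) ((hZ _).mp z.2)
    exact ⟨⟨((z : R0), y), ⟨hy, hy'⟩⟩, rfl⟩
  have s2 : Function.Surjective φ2 := by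
    intro q
    obtain ⟨m, rfl⟩ := Submodule.mkQ_surjective _ q
    obtain ⟨y0, hy0, rfl⟩ := hμ1s m
    have hf := hVsub p y0 hy0
    obtain ⟨z, hz, hz1, hz2⟩ := C.mid_exact p (C.D y0) hf (hbot _ hf) (by
      rw [C.D_D hy0]
      intro β S I h
      exact absurd rfl h)
    obtain ⟨r, hr⟩ := hρ0surj _ (Submodule.sub_mem _ hf (hVsub p z hz)) hz2
    refine ⟨⟨(r, y0 - z), ⟨Submodule.sub_mem _ hy0 hz, ?_⟩⟩, ?_⟩
    · change C.D (y0 - z) = ρ0 r
      rw [map_sub, hr]
    · change Submodule.mkQ _ (μ1 (y0 - z)) = Submodule.mkQ _ (μ1 y0)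
      rw [map_sub μ1, (hμ1 z hz).mpr hz1, sub_zero]
  have hk : LinearMap.ker φ1 = LinearMap.ker φ2 := by
    ext ⟨⟨r, y⟩, hx⟩
    obtain ⟨h1, h2⟩ := hx
    change y ∈ C.V (p + 1) at h1
    change C.D y = ρ0 r at h2
    rw [LinearMap.mem_ker, LinearMap.mem_ker]
    change Submodule.mkQ _ (⟨r, _⟩ : Z) = 0 ↔ Submodule.mkQ _ (μ1 y) = 0
    rw [Submodule.mkQ_apply, Submodule.mkQ_apply, Submodule.Quotient.mk_eq_zero,
      Submodule.Quotient.mk_eq_zero]
    change r ∈ LinearMap.range dR ↔ μ1 y ∈ LinearMap.range dM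
    constructor
    · rintro ⟨x, rfl⟩
      obtain ⟨y', hy', hy''⟩ := C.V_exact (p + 1) (y - ρ1 x)
        (Submodule.sub_mem _ h1 (hρ1V x)) (by rw [map_sub, h2, hdR, sub_self])
      refine ⟨μ2 y', ?_⟩
      rw [← hdM y' hy', hy'', map_sub, (hμ1 _ (hρ1V x)).mpr (hdisj _ (hρ1R x)), sub_zero]
    · rintro ⟨m', hm'⟩
      obtain ⟨y', hy', rfl⟩ := hμ2s m'
      have e1 : C.D y' ∈ C.V (p + 1) := hVsub _ _ hy'
      have e2 : y - C.D y' ∈ C.V (p + 1) := Submodule.sub_mem _ h1 e1
      have e3 : C.offM (y - C.D y') := by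
        rw [← hμ1 _ e2, map_sub, hdM y' hy', hm', sub_self]
      have e4 : C.D (y - C.D y') = ρ0 r := by
        rw [map_sub, C.D_D hy', sub_zero, h2]
      obtain ⟨z, hz, hz1, hz2⟩ := C.mid_exact (p + 1) _ e2 e3 (by rw [e4]; exact hρ0R r)
      obtain ⟨x, hx⟩ := hρ1surj _ (Submodule.sub_mem _ e2 (hVsub _ _ hz)) hz2
      refine ⟨x, hρ0inj ?_⟩
      rw [← hdR, hx, map_sub, C.D_D hz, sub_zero, e4]
  have l1 := (φ1.quotKerEquivOfSurjective s1).finrank_eq
  have l2 := (φ2.quotKerEquivOfSurjective s2).finrank_eq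
  rw [← l1, ← l2, hk]

end CechData

end Pool.Agent.GaussBetti
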