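import Pool.Agent.GaussBetti.Defs

/-!
# Monomial coordinates on the spaces of sections
-/

set_option autoImplicit false

open Finset

namespace Pool.Agent.GaussBetti

/-- The index set of the monomial basis of `Sec d`. -/
def Mon (d : ℕ) : Type := Lex (Fin 4 → Fin (d + 1))

noncomputable instance (d : ℕ) : LinearOrder (Mon d) :=
  inferInstanceAs (LinearOrder (Lex (Fin 4 → Fin (d + 1))))

noncomputable instance (d : ℕ) : Fintype (Mon d) :=
  inferInstanceAs (Fintype (Fin 4 → Fin (d + 1)))

/-- The monomial with given exponents. -/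
def mkMon {d : ℕ} (c : Fin 4 → Fin (d + 1)) : Mon d := toLex c

/-- The exponents of a monomial. -/
def Mon.val {d : ℕ} (u : Mon d) : Fin 4 → Fin (d + 1) := ofLex u

lemma mkMon_val {d : ℕ} (c : Fin 4 → Fin (d + 1)) : (mkMon c).val = c := rfl

lemma Mon.val_injective {d : ℕ} : Function.Injective (Mon.val (d := d)) := fun _ _ h => h

/-- The exponent vector (of the variables `x_{i,0}`). -/
def ex {d : ℕ} (u : Mon d) : Fin 4 → ℤ := fun i => ((u.val i : ℕ) : ℤ)

lemma ex_nonneg {d : ℕ} (u : Mon d) (i : Fin 4) : 0 ≤ ex u i := by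
  unfold ex; positivity

lemma ex_le {d : ℕ} (u : Mon d) (i : Fin 4) : ex u i ≤ d := by
  unfold ex
  have := (u.val i).isLt
  exact_mod_cast Nat.lt_succ_iff.mp this

lemma ex_injective {d : ℕ} : Function.Injective (ex (d := d)) := by
  intro u v h
  apply Mon.val_injective
  funext i
  have := congrFun h i
  unfold ex at this
  exact Fin.ext (by exact_mod_cast this)

/-- The box `[0,m]^4`. -/
def Box (m : ℕ) (b : Fin 4 → ℤ) : Prop := ∀ i, 0 ≤ b i ∧ b i ≤ m

lemma Box_ex {d : ℕ} (u : Mon d) : Box d (ex u) := fun i => ⟨ex_nonneg u i, ex_le u i⟩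

/-- The element of `Mon m` with a given exponent vector. -/
def toMon {m : ℕ} (b : Fin 4 → ℤ) (hb : Box m b) : Mon m :=
  mkMon fun i => ⟨(b i).toNat, by
    have := hb i
    omega⟩

lemma ex_toMon {m : ℕ} (b : Fin 4 → ℤ) (hb : Box m b) : ex (toMon b hb) = b := by
  funext i
  unfold ex toMon
  rw [mkMon_val]
  simp only
  have := hb i
  omega

/-- The exponent of the monomial of multidegree `(m,m,m,m)` with `x_{i,0}`-exponents `b`. -/
noncomputable def mon (m : ℕ) (b : Fin 4 → ℤ) : (Fin 4 × Fin 2) →₀ ℕ :=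
  Finsupp.equivFunOnFinite.symm fun ij => if ij.2 = 0 then (b ij.1).toNat else (m - b ij.1).toNat

lemma mon_zero (m : ℕ) (b : Fin 4 → ℤ) (i : Fin 4) : mon m b (i, 0) = (b i).toNat := by
  simp [mon]

lemma mon_one (m : ℕ) (b : Fin 4 → ℤ) (i : Fin 4) : mon m b (i, 1) = (m - b i).toNat := by
  simp [mon]

lemma weight_apply (μ : (Fin 4 × Fin 2) →₀ ℕ) (i : Fin 4) :
    Finsupp.weight wt μ i = μ (i, 0) + μ (i, 1) := by
  rw [Finsupp.weight_apply, Finsupp.sum_fintype _ _ (by simp), Finset.sum_apply,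
    Fintype.sum_prod_type]
  rw [Finset.sum_eq_single i]
  · simp [wt, Fin.sum_univ_two]
  · intro j _ hj
    simp [wt, Ne.symm hj]
  · simp

lemma weight_mon {m : ℕ} {b : Fin 4 → ℤ} (hb : Box m b) :
    Finsupp.weight wt (mon m b) = fun _ => m := by
  funext i
  rw [weight_apply, mon_zero, mon_one]
  have := hb i
  omega

lemma exists_of_weight {m : ℕ} {μ : (Fin 4 × Fin 2) →₀ ℕ}
    (h : Finsupp.weight wt μ = fun _ => m) :
    Box m (fun i => (μ (i, 0) : ℤ)) ∧ μ = mon m (fun i => (μ (i, 0) : ℤ)) := by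
  have h' : ∀ i, μ (i, 0) + μ (i, 1) = m := fun i => by rw [← weight_apply, h]
  refine ⟨fun i => ⟨by positivity, ?_⟩, ?_⟩
  · have := h' i
    change ((μ (i, 0) : ℕ) : ℤ) ≤ m
    omega
  · ext ⟨i, j⟩
    have := h' i
    fin_cases j
    · change μ (i, 0) = mon m _ (i, 0)
      rw [mon_zero]; omega
    · change μ (i, 1) = mon m _ (i, 1)
      rw [mon_one]; omega

lemma mem_Sec {m : ℕ} {f : MvPolynomial (Fin 4 × Fin 2) ℂ} :
    f ∈ Sec m ↔ ∀ μ, MvPolynomial.coeff μ f ≠ 0 → Finsupp.weight wt μ = fun _ => m := by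
  unfold Sec
  rw [MvPolynomial.mem_weightedHomogeneousSubmodule]
  exact Iff.rfl

open Classical in
/-- The coefficient functionals. -/
noncomputable def cf (m : ℕ) (b : Fin 4 → ℤ) : H0 m →ₗ[ℂ] ℂ :=
  if Box m b then (MvPolynomial.lcoeff ℂ (mon m b)).comp (Sec m).subtype else 0

lemma cf_of_box {m : ℕ} {b : Fin 4 → ℤ} (hb : Box m b) (f : H0 m) :
    cf m b f = MvPolynomial.coeff (mon m b) f.1 := by
  unfold cf
  rw [if_pos hb]; rfl

lemma cf_of_not_box {m : ℕ} {b : Fin 4 → ℤ} (hb : ¬ Box m b) (f : H0 m) :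
    cf m b f = 0 := by
  unfold cf
  rw [if_neg hb]; rfl

lemma monomial_mem {m : ℕ} {b : Fin 4 → ℤ} (hb : Box m b) :
    MvPolynomial.monomial (mon m b) (1 : ℂ) ∈ Sec m := by
  rw [mem_Sec]
  intro μ hμ
  classical
  rw [MvPolynomial.coeff_monomial] at hμ
  by_cases h : mon m b = μ
  · rw [← h, weight_mon hb]
  · rw [if_neg h] at hμ; exact absurd rfl hμ

/-- The monomial with exponents `b`. -/
noncomputable def xmon {m : ℕ} (b : Fin 4 → ℤ) (hb : Box m b) : H0 m :=
  ⟨MvPolynomial.monomial (mon m b) 1, monomial_mem hb⟩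

lemma mon_injOn {m : ℕ} {b b' : Fin 4 → ℤ} (hb : Box m b) (hb' : Box m b')
    (h : mon m b = mon m b') : b = b' := by
  funext i
  have := DFunLike.congr_fun h (i, 0)
  rw [mon_zero, mon_zero] at this
  have h1 := hb i
  have h2 := hb' i
  omega

open Classical in
lemma cf_xmon {m : ℕ} (b c : Fin 4 → ℤ) (hb : Box m b) :
    cf m c (xmon b hb) = if c = b then 1 else 0 := by
  by_cases hc : Box m c
  · rw [cf_of_box hc]
    change MvPolynomial.coeff (mon m c) (MvPolynomial.monomial (mon m b) (1 : ℂ)) = _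
    simp only [MvPolynomial.coeff_monomial]
    by_cases h : c = b
    · subst h; simp
    · rw [if_neg, if_neg h]
      intro h'
      exact h (mon_injOn hb hc h').symm
  · rw [cf_of_not_box hc, if_neg]
    rintro rfl; exact hc hb

lemma Sec_ext {m : ℕ} {f g : H0 m} (h : ∀ b, Box m b → cf m b f = cf m b g) : f = g := by
  apply Subtype.ext
  ext μ
  by_cases hw : Finsupp.weight wt μ = fun _ => m
  · obtain ⟨h1, h2⟩ := exists_of_weight hw
    have := h _ h1
    rw [cf_of_box h1, cf_of_box h1, ← h2] at this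
    exact this
  · have h1 : MvPolynomial.coeff μ f.1 = 0 := by
      by_contra h'
      exact hw (mem_Sec.mp f.2 μ h')
    have h2 : MvPolynomial.coeff μ g.1 = 0 := by
      by_contra h'
      exact hw (mem_Sec.mp g.2 μ h')
    rw [h1, h2]

/-- The monomial coordinates on `H0 m`. -/
noncomputable def secEquiv (m : ℕ) : H0 m ≃ₗ[ℂ] (Mon m → ℂ) where
  toFun f u := cf m (ex u) f
  map_add' f g := by funext u; simp
  map_smul' c f := by funext u; simp
  invFun c := ∑ u, c u • xmon (ex u) (Box_ex u)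
  left_inv f := by
    apply Sec_ext
    intro b hb
    rw [map_sum]
    classical
    rw [Finset.sum_eq_single (toMon b hb)]
    · rw [map_smul, cf_xmon, ex_toMon, if_pos rfl, smul_eq_mul, mul_one]
      change cf m (ex (toMon b hb)) f = _
      rw [ex_toMon]
    · intro u _ hu
      rw [map_smul, cf_xmon, if_neg, smul_zero]
      intro h
      apply hu
      apply ex_injective
      rw [ex_toMon, h]
    · simp
  right_inv c := by
    funext u
    change cf m (ex u) (∑ v, c v • xmon (ex v) (Box_ex v)) = c u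
    rw [map_sum]
    classical
    rw [Finset.sum_eq_single u]
    · rw [map_smul, cf_xmon]; simp
    · intro v _ hv
      rw [map_smul, cf_xmon, if_neg, smul_zero]
      intro h
      exact hv (ex_injective h).symm
    · simp

/-- The monomial basis of `H0 m`. -/
noncomputable def bas (m : ℕ) : Module.Basis (Mon m) ℂ (H0 m) := Module.Basis.ofEquivFun (secEquiv m)

lemma bas_repr (m : ℕ) (f : H0 m) (u : Mon m) : (bas m).repr f u = cf m (ex u) f := rfl

lemma bas_apply (m : ℕ) (u : Mon m) : bas m u = xmon (ex u) (Box_ex u) := by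
  apply (bas m).repr.injective
  rw [Module.Basis.repr_self]
  ext v
  rw [bas_repr, cf_xmon, Finsupp.single_apply]
  by_cases h : u = v
  · subst h; simp
  · rw [if_neg h, if_neg]
    intro h'; exact h (ex_injective h').symm

lemma finrank_Sec (m : ℕ) : Module.finrank ℂ (H0 m) = (m + 1) ^ 4 := by
  rw [Module.finrank_eq_card_basis (bas m)]
  change Fintype.card (Fin 4 → Fin (m + 1)) = _
  simp

lemma cf_mul_xmon {d q : ℕ} (u b : Fin 4 → ℤ) (hu : Box d u) (f : H0 (q * d)) :
    cf ((q + 1) * d) b (mulSec d q (xmon u hu) f) = cf (q * d) (b - u) f := by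
  have e : ((((q + 1) * d : ℕ)) : ℤ) = ((q * d : ℕ) : ℤ) + d := by push_cast; ring
  by_cases h : Box (q * d) (b - u)
  · have hb : Box ((q + 1) * d) b := by
      intro i
      have h1 := h i
      have h2 := hu i
      rw [e]
      simp only [Pi.sub_apply] at h1
      omega
    rw [cf_of_box h, cf_of_box hb]
    change MvPolynomial.coeff _ (MvPolynomial.monomial (mon d u) 1 * f.1) = _
    have e2 : mon ((q + 1) * d) b = mon d u + mon (q * d) (b - u) := by
      ext ⟨i, j⟩
      have h1 := h i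
      have h2 := hu i
      have h3 := hb i
      rw [e] at h3
      simp only [Pi.sub_apply] at h1
      fin_cases j
      · change mon _ _ (i, 0) = mon _ _ (i, 0) + mon _ _ (i, 0)
        rw [mon_zero, mon_zero, mon_zero, Pi.sub_apply]; omega
      · change mon _ _ (i, 1) = mon _ _ (i, 1) + mon _ _ (i, 1)
        rw [mon_one, mon_one, mon_one, Pi.sub_apply, e]; omega
    rw [e2, MvPolynomial.coeff_monomial_mul, one_mul]
  · rw [cf_of_not_box h]
    by_cases hb : Box ((q + 1) * d) b
    · rw [cf_of_box hb]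
      change MvPolynomial.coeff _ (MvPolynomial.monomial (mon d u) 1 * f.1) = _
      rw [MvPolynomial.coeff_monomial_mul', if_neg]
      intro hle
      apply h
      intro i
      have h1 := hle (i, 0)
      have h2 := hle (i, 1)
      rw [mon_zero, mon_zero] at h1
      rw [mon_one, mon_one, e] at h2
      have h3 := hu i
      have h4 := hb i
      rw [e] at h4
      rw [Pi.sub_apply]
      omega
    · rw [cf_of_not_box hb]

lemma cf_mul {d q : ℕ} (b : Fin 4 → ℤ) (s : H0 d) (f : H0 (q * d)) :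
    cf ((q + 1) * d) b (mulSec d q s f) = ∑ u : Mon d, cf d (ex u) s * cf (q * d) (b - ex u) f := by
  have h : s = ∑ u : Mon d, cf d (ex u) s • xmon (ex u) (Box_ex u) := by
    conv_lhs => rw [← (bas d).sum_repr s]
    refine Finset.sum_congr rfl fun u _ => ?_
    rw [bas_repr, bas_apply]
  conv_lhs => rw [h]
  rw [map_sum, LinearMap.sum_apply, map_sum]
  refine Finset.sum_congr rfl fun u _ => ?_
  rw [map_smul, LinearMap.smul_apply, map_smul, cf_mul_xmon, smul_eq_mul]

end Pool.Agent.GaussBetti
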