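import Pool.Agent.GaussBetti.CAR

/-!
# Coordinates on exterior powers
-/

set_option autoImplicit false

open Finset

namespace Pool.Agent.GaussBetti

variable {α : Type*} [LinearOrder α] [Fintype α] {U : Type*} [AddCommGroup U] [Module ℂ U]

/-- wedge with the vector with coordinates `c` -/
noncomputable def epsV (c : α → ℂ) : Module.End ℂ (Finset α → ℂ) := ∑ u, c u • eps u

lemma epsV_apply (c : α → ℂ) (f : Finset α → ℂ) : epsV c f = ∑ u, c u • eps u f := by
  unfold epsV
  rw [LinearMap.sum_apply]
  rfl

lemma epsV_sq (c : α → ℂ) : epsV c * epsV c = 0 := by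
  apply LinearMap.ext
  intro f
  rw [Module.End.mul_apply, epsV_apply, epsV_apply, LinearMap.zero_apply]
  have h1 : ∀ u, eps u (∑ v, c v • eps v f) = ∑ v, c v • eps u (eps v f) := by
    intro u
    rw [map_sum]
    exact Finset.sum_congr rfl fun v _ => by rw [map_smul]
  simp_rw [h1, Finset.smul_sum, smul_smul]
  funext S
  rw [Finset.sum_apply]
  simp_rw [Finset.sum_apply]
  have h2 : ∑ u, ∑ v, ((c u * c v) • eps u (eps v f)) S =
      ∑ u, ∑ v, ((c v * c u) • eps v (eps u f)) S := Finset.sum_comm
  have h3 : ∑ u, ∑ v, ((c v * c u) • eps v (eps u f)) S =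
      - ∑ u, ∑ v, ((c u * c v) • eps u (eps v f)) S := by
    rw [← Finset.sum_neg_distrib]
    refine Finset.sum_congr rfl fun u _ => ?_
    rw [← Finset.sum_neg_distrib]
    refine Finset.sum_congr rfl fun v _ => ?_
    rw [eps_eps v u]
    simp only [Pi.smul_apply, Pi.neg_apply, smul_eq_mul]
    ring
  have h4 := h2.trans h3
  exact self_eq_neg.mp h4

lemma iota_epsV (u : α) (c : α → ℂ) (f : Finset α → ℂ) :
    iota u (epsV c f) = c u • f - epsV c (iota u f) := by
  rw [epsV_apply, epsV_apply, map_sum]
  have : ∀ v, iota u (c v • eps v f) = (if u = v then c v • f else 0) - c v • eps v (iota u f) := by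
    intro v
    rw [map_smul, iota_eps, smul_sub]
    congr 1
    by_cases h : u = v
    · rw [if_pos h, if_pos h]
    · rw [if_neg h, if_neg h, smul_zero]
  rw [Finset.sum_congr rfl fun v _ => this v, Finset.sum_sub_distrib]
  congr 1
  simp

/-- The linear map sending a vector to the wedge operator. -/
noncomputable def epsL (b : Module.Basis α ℂ U) : U →ₗ[ℂ] Module.End ℂ (Finset α → ℂ) where
  toFun v := epsV (b.repr v)
  map_add' v w := by
    unfold epsV
    rw [map_add, ← Finset.sum_add_distrib]
    exact Finset.sum_congr rfl fun u _ => by rw [Finsupp.add_apply, add_smul]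
  map_smul' c v := by
    unfold epsV
    rw [map_smul, RingHom.id_apply, Finset.smul_sum]
    exact Finset.sum_congr rfl fun u _ => by rw [Finsupp.smul_apply, smul_eq_mul, mul_smul]

lemma epsL_apply (b : Module.Basis α ℂ U) (v : U) : epsL b v = epsV (b.repr v) := rfl

/-- The Fock representation of the exterior algebra. -/
noncomputable def fock (b : Module.Basis α ℂ U) :
    ExteriorAlgebra ℂ U →ₐ[ℂ] Module.End ℂ (Finset α → ℂ) :=
  ExteriorAlgebra.lift ℂ ⟨epsL b, fun v => (show epsL b v * epsL b v = 0 from epsV_sq _)⟩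

lemma fock_ι (b : Module.Basis α ℂ U) (v : U) :
    fock b (ExteriorAlgebra.ι ℂ v) = epsV (b.repr v) := by
  unfold fock
  rw [ExteriorAlgebra.lift_ι_apply]; rfl

/-- The vacuum vector. -/
noncomputable def vac : Finset α → ℂ := Pi.single ∅ 1

/-- The coordinates of an element of an exterior power. -/
noncomputable def wed (b : Module.Basis α ℂ U) (p : ℕ) : (⋀[ℂ]^p U) →ₗ[ℂ] (Finset α → ℂ) where
  toFun ω := fock b (ω : ExteriorAlgebra ℂ U) vac
  map_add' ω η := by
    change fock b ((ω : ExteriorAlgebra ℂ U) + (η : ExteriorAlgebra ℂ U)) vac = _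
    rw [map_add, LinearMap.add_apply]
  map_smul' c ω := by
    change fock b (c • (ω : ExteriorAlgebra ℂ U)) vac = _
    rw [map_smul, LinearMap.smul_apply]; rfl

lemma wed_zero (b : Module.Basis α ℂ U) (v : Fin 0 → U) :
    wed b 0 (exteriorPower.ιMulti ℂ 0 v) = vac := by
  change fock b ((exteriorPower.ιMulti ℂ 0 v : ⋀[ℂ]^0 U) : ExteriorAlgebra ℂ U) vac = vac
  rw [exteriorPower.ιMulti_apply_coe, ExteriorAlgebra.ιMulti_zero_apply, map_one]
  rfl

lemma wed_succ (b : Module.Basis α ℂ U) (p : ℕ) (v : Fin (p + 1) → U) :
    wed b (p + 1) (exteriorPower.ιMulti ℂ (p + 1) v) =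
      epsV (b.repr (v 0)) (wed b p (exteriorPower.ιMulti ℂ p (Fin.tail v))) := by
  change fock b ((exteriorPower.ιMulti ℂ (p + 1) v : ⋀[ℂ]^(p + 1) U) : ExteriorAlgebra ℂ U) vac =
    epsV (b.repr (v 0))
      (fock b ((exteriorPower.ιMulti ℂ p (Fin.tail v) : ⋀[ℂ]^p U) : ExteriorAlgebra ℂ U) vac)
  rw [exteriorPower.ιMulti_apply_coe, exteriorPower.ιMulti_apply_coe,
    ExteriorAlgebra.ιMulti_succ_apply, map_mul, fock_ι]
  rfl

/-- The contraction formula. -/
lemma iota_wed (b : Module.Basis α ℂ U) (u : α) : ∀ (p : ℕ) (v : Fin (p + 1) → U),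
    iota u (wed b (p + 1) (exteriorPower.ιMulti ℂ (p + 1) v)) =
      ∑ i : Fin (p + 1), ((-1 : ℂ) ^ (i : ℕ) * b.repr (v i) u) •
        wed b p (exteriorPower.ιMulti ℂ p (i.removeNth v)) := by
  intro p
  induction p with
  | zero =>
    intro v
    rw [wed_succ, iota_epsV, wed_zero]
    have h0 : iota u (vac : Finset α → ℂ) = 0 := by
      funext S
      rw [iota_apply]
      by_cases h : u ∈ S
      · rw [if_pos h]; rfl
      · rw [if_neg h]
        have : (vac : Finset α → ℂ) (insert u S) = 0 := by
          unfold vac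
          rw [Pi.single_apply, if_neg (Finset.insert_ne_empty u S)]
        rw [this, mul_zero]; rfl
    rw [h0, map_zero, sub_zero, Fin.sum_univ_one, wed_zero]
    simp
  | succ p ih =>
    intro v
    rw [wed_succ, iota_epsV, ih, map_sum, sub_eq_add_neg]
    conv_rhs => rw [Fin.sum_univ_succ]
    congr 1
    · rw [Fin.removeNth_zero]; simp
    · rw [← Finset.sum_neg_distrib]
      refine Finset.sum_congr rfl fun i _ => ?_
      rw [map_smul, Fin.val_succ, pow_succ]
      have e : wed b (p + 1) (exteriorPower.ιMulti ℂ (p + 1) (i.succ.removeNth v)) =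
          epsV (b.repr (v 0)) (wed b p (exteriorPower.ιMulti ℂ p (i.removeNth (Fin.tail v)))) := by
        rw [wed_succ]
        have e1 : i.succ.removeNth v 0 = v 0 := by
          simp [Fin.removeNth]
        have e2 : Fin.tail (i.succ.removeNth v) = i.removeNth (Fin.tail v) := by
          funext j
          simp [Fin.removeNth, Fin.tail]
        rw [e1, e2]
      rw [e, ← neg_smul]
      congr 1
      simp [Fin.tail]

/-- The sorted wedge monomials are mapped to delta functions. -/
lemma wed_strictMono (b : Module.Basis α ℂ U) : ∀ (p : ℕ) (f : Fin p → α), StrictMono f →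
    wed b p (exteriorPower.ιMulti ℂ p (fun i => b (f i))) = Pi.single (univ.image f) 1 := by
  intro p
  induction p with
  | zero =>
    intro f _
    rw [wed_zero]
    unfold vac
    simp
  | succ p ih =>
    intro f hf
    rw [wed_succ, epsV_apply, Finset.sum_eq_single (f 0)]
    · rw [Module.Basis.repr_self, Finsupp.single_eq_same, one_smul]
      have e : Fin.tail (fun i => b (f i)) = fun i : Fin p => b ((f ∘ Fin.succ) i) := rfl
      rw [e, ih (f ∘ Fin.succ) (hf.comp (Fin.strictMono_succ))]
      have him : univ.image f = insert (f 0) (univ.image (f ∘ Fin.succ)) := by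
        ext a
        simp only [mem_image, mem_univ, true_and, mem_insert, Function.comp_apply]
        constructor
        · rintro ⟨i, rfl⟩
          rcases Fin.eq_zero_or_eq_succ i with h | ⟨j, h⟩
          · left; rw [h]
          · right; exact ⟨j, by rw [h]⟩
        · rintro (h | ⟨j, h⟩)
          · exact ⟨0, h.symm⟩
          · exact ⟨j.succ, h⟩
      have hni : f 0 ∉ univ.image (f ∘ Fin.succ) := by
        simp only [mem_image, mem_univ, true_and, Function.comp_apply, not_exists]
        intro j h
        exact absurd (hf.injective h) (Fin.succ_ne_zero j)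
      funext S
      rw [eps_apply]
      by_cases hS : S = univ.image f
      · rw [hS, Pi.single_eq_same, him, if_pos (mem_insert_self _ _), erase_insert hni,
          Pi.single_eq_same, mul_one, sg_insert_self]
        unfold sg
        have : (univ.image (f ∘ Fin.succ)).filter (· < f 0) = ∅ := by
          rw [Finset.filter_eq_empty_iff]
          intro a ha
          simp only [mem_image, mem_univ, true_and, Function.comp_apply] at ha
          obtain ⟨j, rfl⟩ := ha
          exact not_lt.mpr (hf (Fin.succ_pos j)).le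
        rw [this]; simp
      · rw [Pi.single_eq_of_ne hS]
        by_cases h0 : f 0 ∈ S
        · rw [if_pos h0, Pi.single_eq_of_ne, mul_zero]
          intro h1
          apply hS
          rw [him, ← h1, insert_erase h0]
        · rw [if_neg h0]
    · intro a _ ha
      rw [Module.Basis.repr_self, Finsupp.single_apply, if_neg (Ne.symm ha), zero_smul]
    · simp

lemma wed_family (b : Module.Basis α ℂ U) (p : ℕ) (S : Set.powersetCard α p) :
    wed b p (exteriorPower.ιMulti_family ℂ p b S) = Pi.single (S : Finset α) 1 := by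
  have h := wed_strictMono b p (Set.powersetCard.ofFinEmbEquiv.symm S)
    (Set.powersetCard.ofFinEmbEquiv.symm S).strictMono
  have h2 : univ.image (Set.powersetCard.ofFinEmbEquiv.symm S) = (S : Finset α) := by
    ext a
    have := Set.powersetCard.mem_range_ofFinEmbEquiv_symm_iff_mem S a
    simp only [mem_image, mem_univ, true_and]
    exact this
  rw [h2] at h
  exact h

end Pool.Agent.GaussBetti
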