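import Pool.Agent.GaussBetti.Cech
import Pool.Agent.GaussBetti.Wedge
import Pool.Agent.GaussBetti.Sections

/-!
# The Koszul complex in coordinates
-/

set_option autoImplicit false

open Finset

namespace Pool.Agent.GaussBetti

/-- The multidegree of a wedge monomial. -/
noncomputable def tot {d : ℕ} (S : Finset (Mon d)) : Fin 4 → ℤ := ∑ u ∈ S, ex u

lemma tot_insert {d : ℕ} {S : Finset (Mon d)} {u : Mon d} (h : u ∉ S) :
    tot (insert u S) = ex u + tot S := Finset.sum_insert h

lemma tot_erase {d : ℕ} {S : Finset (Mon d)} {u : Mon d} (h : u ∈ S) :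
    tot (S.erase u) = tot S - ex u := by
  have : tot S = ex u + tot (S.erase u) := by
    rw [← tot_insert (Finset.notMem_erase u S), Finset.insert_erase h]
  rw [this]; abel

/-- The corners of the box. -/
def corner {d : ℕ} (I : Finset (Fin 4)) : Mon d := mkMon fun i => if i ∈ I then Fin.last d else 0

lemma ex_corner_mem {d : ℕ} {I : Finset (Fin 4)} {i : Fin 4} (h : i ∈ I) :
    ex (corner (d := d) I) i = d := by
  unfold ex corner
  rw [mkMon_val]
  simp [h]

lemma ex_corner_not_mem {d : ℕ} {I : Finset (Fin 4)} {i : Fin 4} (h : i ∉ I) :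
    ex (corner (d := d) I) i = 0 := by
  unfold ex corner
  rw [mkMon_val]
  simp [h]

/-- The Cech - Koszul data in total degree `t`. -/
noncomputable def cd (d : ℕ) (t : ℤ) : CechData (Fin 4 → ℤ) (Mon d) 4 where
  L β S i := tot S i ≤ β i
  H β S i := β i - tot S i ≤ (t - S.card) * d
  co := corner
  L_anti β S u i h := by
    by_cases hu : u ∈ S
    · rwa [Finset.insert_eq_of_mem hu] at h
    · rw [tot_insert hu, Pi.add_apply] at h
      have := ex_nonneg u i
      omega
  H_anti β S u i h := by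
    by_cases hu : u ∈ S
    · rwa [Finset.insert_eq_of_mem hu] at h
    · rw [tot_insert hu, Pi.add_apply, Finset.card_insert_of_notMem hu] at h
      have := ex_le u i
      push_cast at h
      have e : (t - (S.card + 1)) * (d : ℤ) = (t - S.card) * d - d := by ring
      rw [e] at h
      omega
  L_co β S I i hi hS h := by
    rw [tot_insert hS, Pi.add_apply, ex_corner_not_mem hi]
    omega
  H_co β S I i hi hS h := by
    rw [tot_insert hS, Pi.add_apply, ex_corner_mem hi, Finset.card_insert_of_notMem hS]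
    push_cast
    have e : (t - (S.card + 1)) * (d : ℤ) = (t - S.card) * d - d := by ring
    rw [e]
    omega
  mix β S i j h1 h2 h3 := by
    omega

lemma cd_L {d : ℕ} {t : ℤ} {β : Fin 4 → ℤ} {S : Finset (Mon d)} {i : Fin 4} :
    (cd d t).L β S i ↔ tot S i ≤ β i := Iff.rfl

lemma cd_H {d : ℕ} {t : ℤ} {β : Fin 4 → ℤ} {S : Finset (Mon d)} {i : Fin 4} :
    (cd d t).H β S i ↔ β i - tot S i ≤ (t - S.card) * d := Iff.rfl

/-- The coordinates on the exterior power. -/
noncomputable def wedL (d p : ℕ) : Lam d p →ₗ[ℂ] (Finset (Mon d) → ℂ) := wed (bas d) p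

/-- The monomial basis of the exterior power. -/
noncomputable def lamBasis (d p : ℕ) : Module.Basis (Set.powersetCard (Mon d) p) ℂ (Lam d p) :=
  (bas d).exteriorPower p

lemma lamBasis_apply (d p : ℕ) (S : Set.powersetCard (Mon d) p) : lamBasis d p S =
    wedge d p (fun i => bas d (Set.powersetCard.ofFinEmbEquiv.symm S i)) := by
  have := exteriorPower.basis_apply ℂ p (bas d) S
  exact this

lemma wedL_lamBasis (d p : ℕ) (S : Set.powersetCard (Mon d) p) :
    wedL d p (lamBasis d p S) = Pi.single (S : Finset (Mon d)) 1 := by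
  have h1 := wed_family (bas d) p S
  have h2 := exteriorPower.basis_apply ℂ p (bas d) S
  rw [← h2] at h1
  exact h1

lemma iota_wedL (d p : ℕ) (u : Mon d) (v : Fin (p + 1) → H0 d) :
    iota u (wedL d (p + 1) (wedge d (p + 1) v)) =
      ∑ i : Fin (p + 1), ((-1 : ℂ) ^ (i : ℕ) * (bas d).repr (v i) u) •
        wedL d p (wedge d p (i.removeNth v)) :=
  iota_wed (bas d) u p v

/-- The embedding of the Koszul complex in the space of fields. -/
noncomputable def rho (d p q : ℕ) :
    Kos d p q →ₗ[ℂ] CechData.Fld (Fin 4 → ℤ) (Mon d) 4 :=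
  TensorProduct.lift (LinearMap.mk₂ ℂ
    (fun (ω : Lam d p) (f : H0 (q * d)) (β : Fin 4 → ℤ) (S : Finset (Mon d))
      (I : Finset (Fin 4)) => if I = ∅ then wedL d p ω S * cf (q * d) (β - tot S) f else 0)
    (fun ω ω' f => by
      funext β S I
      by_cases h : I = ∅
      · simp [h, add_mul]
      · simp [h])
    (fun c ω f => by
      funext β S I
      by_cases h : I = ∅
      · simp [h, mul_assoc]
      · simp [h])
    (fun ω f f' => by
      funext β S I
      by_cases h : I = ∅
      · simp [h, mul_add]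
      · simp [h])
    (fun c ω f => by
      funext β S I
      by_cases h : I = ∅
      · simp only [h, if_true, map_smul, Pi.smul_apply, smul_eq_mul]; ring
      · simp [h]))

lemma rho_mk (d p q : ℕ) (ω : Lam d p) (f : H0 (q * d)) (β : Fin 4 → ℤ)
    (S : Finset (Mon d)) (I : Finset (Fin 4)) : rho d p q (Kos.mk d p q ω f) β S I =
      if I = ∅ then wedL d p ω S * cf (q * d) (β - tot S) f else 0 := rfl

/-- The monomial basis of the Koszul complex. -/
noncomputable def kb (d p q : ℕ) :
    Module.Basis (Set.powersetCard (Mon d) p × Mon (q * d)) ℂ (Kos d p q) :=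
  ((lamBasis d p).tensorProduct (bas (q * d)) :
    Module.Basis (Set.powersetCard (Mon d) p × Mon (q * d)) ℂ
      (TensorProduct ℂ (Lam d p) (H0 (q * d))))

lemma kb_apply (d p q : ℕ) (S : Set.powersetCard (Mon d) p) (b : Mon (q * d)) :
    kb d p q (S, b) = Kos.mk d p q (lamBasis d p S) (bas (q * d) b) := by
  unfold kb Kos.mk
  have := Module.Basis.tensorProduct_apply (lamBasis d p) (bas (q * d)) S b
  exact this

open Classical in
lemma rho_kb (d p q : ℕ) (S' : Set.powersetCard (Mon d) p) (b : Mon (q * d)) (β : Fin 4 → ℤ)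
    (S : Finset (Mon d)) (I : Finset (Fin 4)) : rho d p q (kb d p q (S', b)) β S I =
      if I = ∅ ∧ S = S' ∧ β - tot S = ex b then 1 else 0 := by
  rw [kb_apply, rho_mk, wedL_lamBasis, bas_apply, cf_xmon]
  by_cases h1 : I = ∅
  · by_cases h2 : S = S'
    · by_cases h3 : β - tot S = ex b
      · rw [if_pos h1, if_pos h3, if_pos ⟨h1, h2, h3⟩, h2, Pi.single_eq_same, mul_one]
      · rw [if_pos h1, if_neg h3, if_neg (fun h => h3 h.2.2), mul_zero]
    · rw [if_pos h1, Pi.single_eq_of_ne h2, zero_mul, if_neg (fun h => h2 h.2.1)]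
  · rw [if_neg h1, if_neg (fun h => h1 h.1)]

lemma rho_apply_of (d p q : ℕ) (ξ : Kos d p q) (β : Fin 4 → ℤ) (S : Finset (Mon d))
    (hS : S.card = p) (hb : Box (q * d) (β - tot S)) : rho d p q ξ β S ∅ =
      (kb d p q).repr ξ (⟨S, hS⟩, toMon (β - tot S) hb) := by
  classical
  conv_lhs => rw [← (kb d p q).sum_repr ξ]
  rw [map_sum, Finset.sum_apply, Finset.sum_apply, Finset.sum_apply,
    Finset.sum_eq_single (⟨S, hS⟩, toMon (β - tot S) hb)]
  · rw [map_smul]
    simp only [Pi.smul_apply]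
    rw [rho_kb, if_pos ⟨rfl, rfl, (ex_toMon _ hb).symm⟩, smul_eq_mul, mul_one]
  · rintro ⟨S', b⟩ _ hj
    rw [map_smul]
    simp only [Pi.smul_apply]
    rw [rho_kb, if_neg, smul_zero]
    rintro ⟨_, h2, h3⟩
    apply hj
    refine Prod.ext (Subtype.ext h2.symm) ?_
    apply ex_injective
    rw [ex_toMon]; exact h3.symm
  · simp

lemma rho_apply_ne_zero {d p q : ℕ} {ξ : Kos d p q} {β : Fin 4 → ℤ} {S : Finset (Mon d)}
    {I : Finset (Fin 4)} (h : rho d p q ξ β S I ≠ 0) :
    I = ∅ ∧ S.card = p ∧ Box (q * d) (β - tot S) := by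
  classical
  rw [← (kb d p q).sum_repr ξ, map_sum, Finset.sum_apply, Finset.sum_apply, Finset.sum_apply] at h
  obtain ⟨⟨S', b⟩, _, hj⟩ := Finset.exists_ne_zero_of_sum_ne_zero h
  rw [map_smul] at hj
  simp only [Pi.smul_apply] at hj
  rw [rho_kb] at hj
  by_cases hc : I = ∅ ∧ S = S' ∧ β - tot S = ex b
  · refine ⟨hc.1, ?_, ?_⟩
    · rw [hc.2.1]; exact Set.powersetCard.card_eq S'
    · rw [hc.2.2]; exact Box_ex b
  · rw [if_neg hc, smul_zero] at hj
    exact absurd rfl hj

lemma box_iff {d p q : ℕ} {t : ℤ} (ht : t = p + q) {β : Fin 4 → ℤ} {S : Finset (Mon d)}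
    (hS : S.card = p) : Box (q * d) (β - tot S) ↔ (cd d t).Rset β S := by
  have e : (t - (S.card : ℤ)) * d = ((q * d : ℕ) : ℤ) := by
    rw [ht, hS]; push_cast; ring
  constructor
  · intro h i
    have := h i
    rw [Pi.sub_apply] at this
    refine ⟨?_, ?_⟩
    · rw [cd_L]; omega
    · rw [cd_H, e]; omega
  · intro h i
    have := h i
    rw [cd_L, cd_H, e] at this
    rw [Pi.sub_apply]
    omega

lemma rho_onR {d p q : ℕ} {t : ℤ} (ht : t = p + q) (ξ : Kos d p q) :
    (cd d t).onR (rho d p q ξ) := by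
  intro β S I h
  obtain ⟨h1, h2, h3⟩ := rho_apply_ne_zero h
  exact ⟨(box_iff ht h2).mp h3, h1⟩

lemma rho_mem_V {d p q : ℕ} {t : ℤ} (ht : t = p + q) (ξ : Kos d p q) :
    rho d p q ξ ∈ (cd d t).V p := by
  intro β S I h
  obtain ⟨h1, h2, h3⟩ := rho_apply_ne_zero h
  have h4 := (box_iff ht h2).mp h3
  refine ⟨⟨fun i _ => (h4 i).1, fun i hi => ?_⟩, ?_⟩
  · rw [h1] at hi; simp at hi
  · rw [h1, h2]; simp

lemma rho_injective (d p q : ℕ) : Function.Injective (rho d p q) := by
  rw [injective_iff_map_eq_zero]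
  intro ξ hξ
  apply (kb d p q).repr.injective
  rw [map_zero]
  ext ⟨S, b⟩
  have h := rho_apply_of d p q ξ (ex b + tot (S : Finset (Mon d))) S S.2 (by
    rw [add_sub_cancel_right]; exact Box_ex b)
  rw [hξ] at h
  have e : toMon (m := q * d) (ex b + tot (S : Finset (Mon d)) - tot (S : Finset (Mon d))) (by
    rw [add_sub_cancel_right]; exact Box_ex b) = b := by
    apply ex_injective
    rw [ex_toMon, add_sub_cancel_right]
  rw [e] at h
  exact h.symm

lemma rho_surj {d p q : ℕ} {t : ℤ} (ht : t = p + q) (f : CechData.Fld (Fin 4 → ℤ) (Mon d) 4)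
    (hf : f ∈ (cd d t).V p) (hR : (cd d t).onR f) : ∃ ξ, rho d p q ξ = f := by
  classical
  refine ⟨(kb d p q).equivFun.symm (fun j => f (ex j.2 + tot (j.1 : Finset (Mon d))) j.1 ∅), ?_⟩
  set ξ := (kb d p q).equivFun.symm (fun j => f (ex j.2 + tot (j.1 : Finset (Mon d))) j.1 ∅) with hξ
  have hrep : ∀ j, (kb d p q).repr ξ j = f (ex j.2 + tot (j.1 : Finset (Mon d))) j.1 ∅ := by
    intro j
    have := congrFun ((kb d p q).equivFun.apply_symm_apply
      (fun j => f (ex j.2 + tot (j.1 : Finset (Mon d))) j.1 ∅)) j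
    exact this
  funext β S I
  by_cases hc : I = ∅ ∧ S.card = p ∧ Box (q * d) (β - tot S)
  · obtain ⟨h1, h2, h3⟩ := hc
    subst h1
    rw [rho_apply_of d p q ξ β S h2 h3, hrep]
    change f (ex (toMon (β - tot S) h3) + tot S) S ∅ = f β S ∅
    rw [ex_toMon, sub_add_cancel]
  · have h0 : rho d p q ξ β S I = 0 := by
      by_contra h
      exact hc (rho_apply_ne_zero h)
    rw [h0]
    by_contra h
    have h' : f β S I ≠ 0 := fun h'' => h h''.symm
    obtain ⟨h1, h2⟩ := hR β S I h'
    have h3 := (hf β S I h').2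
    rw [h2] at h3
    have h4 : S.card = p := by simpa using h3
    exact hc ⟨h2, h4, (box_iff ht h4).mpr h1⟩

/-- The comparison of differentials. -/
lemma D_rho_mk {d p q : ℕ} {t : ℤ} (ht : t = p + 1 + q) (v : Fin (p + 1) → H0 d)
    (f : H0 (q * d)) :
    (cd d t).D (rho d (p + 1) q (Kos.mk d (p + 1) q (wedge d (p + 1) v) f)) =
      rho d p (q + 1) (koszulD d p q
        (Kos.mk d (p + 1) q (wedge d (p + 1) v) f)) := by
  set ξ := Kos.mk d (p + 1) q (wedge d (p + 1) v) f with hξ
  have ht1 : t = ((p + 1 : ℕ) : ℤ) + (q : ℤ) := by rw [ht]; push_cast; ring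
  have ht2 : t = (p : ℤ) + ((q + 1 : ℕ) : ℤ) := by rw [ht]; push_cast; ring
  have hR := rho_onR ht1 ξ
  funext β S I
  by_cases hI : I = ∅
  swap
  · have h0 : rho d p (q + 1) (koszulD d p q ξ) β S I = 0 := by
      by_contra h
      exact hI (rho_apply_ne_zero h).1
    rw [h0]
    by_contra h
    by_cases hv : (cd d t).valid β S I
    swap
    · exact h ((cd d t).D_apply_not_valid hv)
    rw [(cd d t).D_apply_valid hv] at h
    apply h
    rw [CechData.pa_eq_zero, CechData.de_eq_zero, add_zero]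
    · intro i hi
      by_contra h1
      obtain ⟨h2, _⟩ := hR β S _ h1
      exact hv.2 i hi (h2 i).2
    · intro u _
      by_contra h1
      exact hI (rho_apply_ne_zero h1).1
  subst hI
  have hrhs : rho d p (q + 1) (koszulD d p q ξ) β S ∅ =
      ∑ i : Fin (p + 1), (-1 : ℂ) ^ (i : ℕ) *
        (wedL d p (wedge d p (i.removeNth v)) S *
          cf ((q + 1) * d) (β - tot S) (mulSec d q (v i) f)) := by
    rw [hξ, koszulD_apply, map_sum, Finset.sum_apply, Finset.sum_apply, Finset.sum_apply]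
    refine Finset.sum_congr rfl fun i _ => ?_
    rw [map_zsmul]
    simp only [Pi.smul_apply]
    rw [rho_mk, if_pos rfl, zsmul_eq_mul]
    push_cast
    rfl
  rw [hrhs]
  by_cases hv : (cd d t).valid β S ∅
  swap
  · rw [(cd d t).D_apply_not_valid hv]
    symm
    apply Finset.sum_eq_zero
    intro i _
    rw [cf_of_not_box, mul_zero, mul_zero]
    intro hb
    apply hv
    refine ⟨fun j _ => ?_, fun j hj => by simp at hj⟩
    have := hb j
    rw [Pi.sub_apply] at this
    rw [cd_L]; omega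
  rw [(cd d t).D_apply_valid hv, CechData.de_eq_zero (by simp), add_zero]
  unfold CechData.pa
  have h1 : ∀ u : Mon d, iota u (fun S' => rho d (p + 1) q ξ β S' ∅) S =
      ∑ i : Fin (p + 1), (-1 : ℂ) ^ (i : ℕ) * ((bas d).repr (v i) u *
        (wedL d p (wedge d p (i.removeNth v)) S *
          cf (q * d) (β - tot S - ex u) f)) := by
    intro u
    have h2 : iota u (fun S' => rho d (p + 1) q ξ β S' ∅) S =
        iota u (wedL d (p + 1) (wedge d (p + 1) v)) S *
          cf (q * d) (β - tot S - ex u) f := by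
      rw [iota_apply, iota_apply]
      by_cases hu : u ∈ S
      · rw [if_pos hu, if_pos hu, zero_mul]
      · rw [if_neg hu, if_neg hu, hξ, rho_mk, if_pos rfl, tot_insert hu, mul_assoc]
        have e : β - (ex u + tot S) = β - tot S - ex u := by abel
        rw [e]
    rw [h2, iota_wedL, Finset.sum_apply, Finset.sum_mul]
    refine Finset.sum_congr rfl fun i _ => ?_
    rw [Pi.smul_apply, smul_eq_mul]
    ring
  rw [Finset.sum_congr rfl fun u _ => h1 u, Finset.sum_comm]
  refine Finset.sum_congr rfl fun i _ => ?_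
  rw [cf_mul, Finset.mul_sum, Finset.mul_sum]
  refine Finset.sum_congr rfl fun u _ => ?_
  rw [bas_repr]
  ring

lemma D_rho {d p q : ℕ} {t : ℤ} (ht : t = p + 1 + q) (ξ : Kos d (p + 1) q) :
    (cd d t).D (rho d (p + 1) q ξ) = rho d p (q + 1) (koszulD d p q ξ) := by
  have : (cd d t).D.comp (rho d (p + 1) q) = (rho d p (q + 1)).comp (koszulD d p q) := by
    apply Module.Basis.ext (kb d (p + 1) q)
    rintro ⟨S, b⟩
    rw [LinearMap.comp_apply, LinearMap.comp_apply, kb_apply, lamBasis_apply]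
    exact D_rho_mk ht _ _
  exact LinearMap.congr_fun this ξ

end Pool.Agent.GaussBetti
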