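import Mathlib

/-!
# Koszul cohomology of `X = P¹ × P¹ × P¹ × P¹` embedded by `L_d = O(d,d,d,d)`

Everything is over `ℂ`.
-/

set_option autoImplicit false

open scoped TensorProduct

namespace Pool.Agent.GaussBetti

/-- The multidegree of the variable `x_{i,j}` (`i < 4`, `j < 2`) is the `i`-th unit vector:
`x_{i,0}, x_{i,1}` are the homogeneous coordinates of the `i`-th factor `P¹`. -/
def wt : Fin 4 × Fin 2 → (Fin 4 → ℕ) := fun ij => Pi.single ij.1 1

/-- The polynomials in the eight variables `x_{i,j}` that are homogeneous of degree `m` in each of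
the four pairs `x_{i,0}, x_{i,1}`. -/
noncomputable def Sec (m : ℕ) : Submodule ℂ (MvPolynomial (Fin 4 × Fin 2) ℂ) :=
  MvPolynomial.weightedHomogeneousSubmodule ℂ wt (fun _ => m)

/-- `H⁰(X, O(m,m,m,m))` for `X = P¹ × P¹ × P¹ × P¹`: the polynomials in the eight variables
`x_{i,j}` that are homogeneous of degree `m` in each of the four pairs `x_{i,0}, x_{i,1}`. -/
def H0 (m : ℕ) : Type := Sec m

noncomputable instance (m : ℕ) : AddCommGroup (H0 m) := Submodule.addCommGroup (Sec m)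

noncomputable instance (m : ℕ) : Module ℂ (H0 m) := Submodule.module (Sec m)

/-- The product of a section of `L_d = O(d,d,d,d)` and a section of `q L_d` is a section of
`(q+1) L_d`. -/
lemma mul_mem_Sec {d q : ℕ} {s f : MvPolynomial (Fin 4 × Fin 2) ℂ} (hs : s ∈ Sec d)
    (hf : f ∈ Sec (q * d)) : s * f ∈ Sec ((q + 1) * d) := by
  have h := MvPolynomial.IsWeightedHomogeneous.mul
    ((MvPolynomial.mem_weightedHomogeneousSubmodule ℂ _ _ _).mp hs)
    ((MvPolynomial.mem_weightedHomogeneousSubmodule ℂ _ _ _).mp hf)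
  refine (MvPolynomial.mem_weightedHomogeneousSubmodule ℂ _ _ _).mpr ?_
  have e : ((fun _ => d) + (fun _ => q * d) : Fin 4 → ℕ) = fun _ => (q + 1) * d := by
    funext i
    simp only [Pi.add_apply]
    ring
  rwa [e] at h

/-- The product of a section of `L_d` and a section of `q L_d`, a section of `(q+1) L_d`. -/
noncomputable def mulSec' (d q : ℕ) (s : H0 d) (f : H0 (q * d)) : H0 ((q + 1) * d) :=
  ⟨s.1 * f.1, mul_mem_Sec s.2 f.2⟩

/-- Multiplication of sections `H⁰(L_d) × H⁰(q L_d) → H⁰((q+1) L_d)`. -/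
noncomputable def mulSec (d q : ℕ) : H0 d →ₗ[ℂ] H0 (q * d) →ₗ[ℂ] H0 ((q + 1) * d) :=
  LinearMap.mk₂ ℂ (mulSec' d q)
    (fun s s' f => Subtype.ext (add_mul s.1 s'.1 f.1))
    (fun c s f => Subtype.ext (smul_mul_assoc c s.1 f.1))
    (fun s f f' => Subtype.ext (mul_add s.1 f.1 f'.1))
    (fun c s f => Subtype.ext (mul_smul_comm c s.1 f.1))

/-- The exterior power `Λ^p H⁰(L_d)`. -/
def Lam (d p : ℕ) : Type := ⋀[ℂ]^p (H0 d)

noncomputable instance (d p : ℕ) : AddCommGroup (Lam d p) := Submodule.addCommGroup (⋀[ℂ]^p (H0 d))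

noncomputable instance (d p : ℕ) : Module ℂ (Lam d p) := Submodule.module (⋀[ℂ]^p (H0 d))

/-- The alternating map `(s_1, ..., s_p) ↦ s_1 ∧ ... ∧ s_p`. -/
noncomputable def wedge (d p : ℕ) : H0 d [⋀^Fin p]→ₗ[ℂ] Lam d p := exteriorPower.ιMulti ℂ p

/-- The term `Λ^p H⁰(L_d) ⊗ H⁰(q L_d)` of the Koszul complex. -/
def Kos (d p q : ℕ) : Type := Lam d p ⊗[ℂ] H0 (q * d)

noncomputable instance (d p q : ℕ) : AddCommGroup (Kos d p q) := TensorProduct.addCommGroup

noncomputable instance (d p q : ℕ) : Module ℂ (Kos d p q) :=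
  TensorProduct.instModule (R := ℂ) (M := Lam d p) (N := H0 (q * d))

/-- The bilinear map `(w, f) ↦ w ⊗ f` into `Λ^p H⁰(L_d) ⊗ H⁰(q L_d)`. -/
noncomputable def Kos.mk (d p q : ℕ) : Lam d p →ₗ[ℂ] H0 (q * d) →ₗ[ℂ] Kos d p q :=
  TensorProduct.mk ℂ (Lam d p) (H0 (q * d))

/-- The space of linear maps `H⁰(q L_d) → Λ^p H⁰(L_d) ⊗ H⁰((q+1) L_d)`. -/
def HomK (d p q : ℕ) : Type := H0 (q * d) →ₗ[ℂ] Kos d p (q + 1)

noncomputable instance (d p q : ℕ) : AddCommGroup (HomK d p q) := LinearMap.addCommGroup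

noncomputable instance (d p q : ℕ) : Module ℂ (HomK d p q) := LinearMap.module

/-- For a section `s` of `L_d`, the linear map sending `w` to the linear map `f ↦ w ⊗ (s f)`. -/
noncomputable def tmulSec (d p q : ℕ) (s : H0 d) : Lam d p →ₗ[ℂ] HomK d p q :=
  (Kos.mk d p (q + 1)).compl₂ (mulSec d q s)

/-- For a section `s` of `L_d`, the alternating map sending `v = (v_1, ..., v_p)` to the linear
map `f ↦ (v_1 ∧ ... ∧ v_p) ⊗ (s f)`. -/
noncomputable def koszulAux (d p q : ℕ) : H0 d →ₗ[ℂ] H0 d [⋀^Fin p]→ₗ[ℂ] HomK d p q where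
  toFun s := (tmulSec d p q s).compAlternatingMap (wedge d p)
  map_add' s s' := by
    ext v
    refine LinearMap.ext fun f => ?_
    change Kos.mk d p (q + 1) (wedge d p v) (mulSec d q (s + s') f) =
      Kos.mk d p (q + 1) (wedge d p v) (mulSec d q s f) +
      Kos.mk d p (q + 1) (wedge d p v) (mulSec d q s' f)
    simp
  map_smul' c s := by
    ext v
    refine LinearMap.ext fun f => ?_
    change Kos.mk d p (q + 1) (wedge d p v) (mulSec d q (c • s) f) =
      c • Kos.mk d p (q + 1) (wedge d p v) (mulSec d q s f)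
    simp

/-- The universal property of the exterior power `Λ^p H⁰(L_d)`. -/
noncomputable def liftAlt (d p : ℕ) (W : Type) [AddCommGroup W] [Module ℂ W] :
    (H0 d [⋀^Fin p]→ₗ[ℂ] W) ≃ₗ[ℂ] (Lam d p →ₗ[ℂ] W) :=
  exteriorPower.alternatingMapLinearEquiv

/-- The Koszul differential as a bilinear map. -/
noncomputable def koszulB (d p q : ℕ) : Lam d (p + 1) →ₗ[ℂ] HomK d p q :=
  liftAlt d (p + 1) (HomK d p q) (AlternatingMap.alternatizeUncurryFin (koszulAux d p q))

/-- The Koszul differential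
`Λ^{p+1} H⁰(L_d) ⊗ H⁰(q L_d) → Λ^p H⁰(L_d) ⊗ H⁰((q+1) L_d)`,
`(s_0 ∧ ... ∧ s_p) ⊗ f ↦ ∑_i (-1)^i (s_0 ∧ ... ŝ_i ... ∧ s_p) ⊗ (s_i f)`
(see `koszulD_apply`). -/
noncomputable def koszulD (d p q : ℕ) : Kos d (p + 1) q →ₗ[ℂ] Kos d p (q + 1) :=
  TensorProduct.lift (koszulB d p q)

lemma koszulD_apply (d p q : ℕ) (s : Fin (p + 1) → H0 d) (f : H0 (q * d)) :
    koszulD d p q (Kos.mk d (p + 1) q (wedge d (p + 1) s) f) =
      ∑ i : Fin (p + 1), (-1 : ℤ) ^ (i : ℕ) •
        Kos.mk d p (q + 1) (wedge d p (i.removeNth s)) (mulSec d q (s i) f) := by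
  let ev : HomK d p q →ₗ[ℂ] Kos d p (q + 1) := LinearMap.applyₗ (R := ℂ) (M := H0 (q * d)) f
  have h : koszulD d p q (Kos.mk d (p + 1) q (wedge d (p + 1) s) f) =
      ev (exteriorPower.alternatingMapLinearEquiv
        (AlternatingMap.alternatizeUncurryFin (koszulAux d p q))
        (exteriorPower.ιMulti ℂ (p + 1) s)) := rfl
  rw [h, exteriorPower.alternatingMapLinearEquiv_apply_ιMulti,
    AlternatingMap.alternatizeUncurryFin_apply, map_sum]
  refine Finset.sum_congr rfl fun i _ => ?_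
  rw [map_zsmul]
  rfl

/-- The cycles in `Λ^p H⁰(L_d) ⊗ H⁰(q L_d)`. -/
noncomputable def cycles (d : ℕ) : (p q : ℕ) → Submodule ℂ (Kos d p q)
  | 0, _ => ⊤
  | p + 1, q => LinearMap.ker (koszulD d p q)

/-- The boundaries in `Λ^p H⁰(L_d) ⊗ H⁰(q L_d)`. -/
noncomputable def boundaries (d : ℕ) : (p q : ℕ) → Submodule ℂ (Kos d p q)
  | _, 0 => ⊥
  | p, q + 1 => LinearMap.range (koszulD d p q)

/-- The Koszul cohomology group `K_{p,q}(X; L_d)`: the cohomology at the middle term of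
`Λ^{p+1} H⁰(L_d) ⊗ H⁰((q-1) L_d) → Λ^p H⁰(L_d) ⊗ H⁰(q L_d) → Λ^{p-1} H⁰(L_d) ⊗ H⁰((q+1) L_d)`. -/
def K (p q d : ℕ) : Type := cycles d p q ⧸ (boundaries d p q).comap (cycles d p q).subtype

noncomputable instance (p q d : ℕ) : AddCommGroup (K p q d) :=
  Submodule.Quotient.addCommGroup ((boundaries d p q).comap (cycles d p q).subtype)

noncomputable instance (p q d : ℕ) : Module ℂ (K p q d) :=
  Submodule.Quotient.module ((boundaries d p q).comap (cycles d p q).subtype)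

/-- `k_{p,q}(X; L_d) = dim K_{p,q}(X; L_d)`. -/
noncomputable def k (p q d : ℕ) : ℕ := Module.finrank ℂ (K p q d)

/-- `r_d = h⁰(X, L_d) - 1`. -/
noncomputable def r (d : ℕ) : ℕ := Module.finrank ℂ (H0 d) - 1

end Pool.Agent.GaussBetti
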