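import Pool.Agent.GaussBetti.Coord

/-!
# Duality: the Koszul cohomology in weight four as a space of annihilated fields
-/

set_option autoImplicit false

open Finset

namespace Pool.Agent.GaussBetti

/-- Index set of the top part. -/
@[ext]
structure MI (d s m : ℕ) where
  /-- the wedge monomial -/
  S : Finset (Mon d)
  /-- the exponent vector -/
  w : Fin 4 → ℤ
  card_S : S.card = s
  pos : ∀ i, 0 < w i ∧ w i < m

instance (d s m : ℕ) : Finite (MI d s m) := by
  have : Function.Injective (fun x : MI d s m =>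
      ((x.S, fun i => ⟨(x.w i).toNat, by have := x.pos i; omega⟩) :
        Finset (Mon d) × (Fin 4 → Fin m))) := by
    intro x x' h
    simp only [Prod.mk.injEq] at h
    refine MI.ext h.1 ?_
    funext i
    have h3 := congrFun h.2 i
    have h4 := x.pos i
    have h5 := x'.pos i
    simp only [Fin.mk.injEq] at h3
    omega
  exact Finite.of_injective _ this

noncomputable instance (d s m : ℕ) : Fintype (MI d s m) := Fintype.ofFinite _

open Classical in
/-- The matrix of the Koszul differential on the top part. -/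
noncomputable def mat (d s : ℕ) : Matrix (MI d s d) (MI d (s + 1) (2 * d)) ℂ :=
  fun x y => ∑ u : Mon d,
    if u ∉ x.S ∧ insert u x.S = y.S ∧ x.w + ex u = y.w then sg u x.S else 0

/-- Annihilated fields. -/
noncomputable def KK (d s : ℕ) : Submodule ℂ ((Fin 4 → ℤ) → Finset (Mon d) → ℂ) where
  carrier := {Ψ | (∀ w S, Ψ w S ≠ 0 → S.card = s ∧ ∀ i, 0 < w i ∧ w i < d) ∧
    ∀ z, ∑ u : Mon d, eps u (Ψ (z - ex u)) = 0}
  add_mem' {Ψ Ψ'} h h' := by
    refine ⟨fun w S hne => ?_, fun z => ?_⟩
    · by_cases h1 : Ψ w S = 0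
      · by_cases h2 : Ψ' w S = 0
        · exact absurd (by simp [h1, h2]) hne
        · exact h'.1 w S h2
      · exact h.1 w S h1
    · have := congrArg₂ (· + ·) (h.2 z) (h'.2 z)
      simp only [add_zero] at this
      rw [← this, ← Finset.sum_add_distrib]
      refine Finset.sum_congr rfl fun u _ => ?_
      rw [← map_add]; rfl
  zero_mem' := by
    refine ⟨fun w S hne => absurd rfl hne, fun z => ?_⟩
    apply Finset.sum_eq_zero
    intro u _
    exact map_zero (eps u)
  smul_mem' c Ψ h := by
    refine ⟨fun w S hne => ?_, fun z => ?_⟩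
    · refine h.1 w S fun h1 => hne ?_
      simp [h1]
    · have := congrArg (c • ·) (h.2 z)
      simp only [smul_zero] at this
      rw [← this, Finset.smul_sum]
      refine Finset.sum_congr rfl fun u _ => ?_
      rw [← map_smul]; rfl

lemma mem_KK {d s : ℕ} {Ψ : (Fin 4 → ℤ) → Finset (Mon d) → ℂ} : Ψ ∈ KK d s ↔
    (∀ w S, Ψ w S ≠ 0 → S.card = s ∧ ∀ i, 0 < w i ∧ w i < d) ∧
    ∀ z, ∑ u : Mon d, eps u (Ψ (z - ex u)) = 0 := Iff.rfl

open Classical in
/-- Extension by zero. -/
noncomputable def exz {d s m : ℕ} (ψ : MI d s m → ℂ) : (Fin 4 → ℤ) → Finset (Mon d) → ℂ :=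
  fun w S => if h : S.card = s ∧ ∀ i, 0 < w i ∧ w i < m then ψ ⟨S, w, h.1, h.2⟩ else 0

lemma exz_mk {d s m : ℕ} (ψ : MI d s m → ℂ) (x : MI d s m) : exz ψ x.w x.S = ψ x := by
  unfold exz
  rw [dif_pos ⟨x.card_S, x.pos⟩]

lemma exz_ne_zero {d s m : ℕ} {ψ : MI d s m → ℂ} {w : Fin 4 → ℤ} {S : Finset (Mon d)}
    (h : exz ψ w S ≠ 0) : S.card = s ∧ ∀ i, 0 < w i ∧ w i < m := by
  by_contra h'
  apply h
  unfold exz
  rw [dif_neg h']

lemma transpose_mulVec {d s : ℕ} (ψ : MI d s d → ℂ) (y : MI d (s + 1) (2 * d)) :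
    ((mat d s).transpose.mulVec ψ) y =
      (∑ u : Mon d, eps u (exz ψ (y.w - ex u))) y.S := by
  classical
  rw [Matrix.mulVec, dotProduct, Finset.sum_apply]
  have h1 : ∀ x, (mat d s).transpose y x * ψ x = ∑ u : Mon d,
      (if u ∉ x.S ∧ insert u x.S = y.S ∧ x.w + ex u = y.w then sg u x.S else 0) *
        ψ x := by
    intro x
    rw [Matrix.transpose_apply, ← Finset.sum_mul]
    rfl
  rw [Finset.sum_congr rfl fun x _ => h1 x, Finset.sum_comm]
  refine Finset.sum_congr rfl fun u _ => ?_
  rw [eps_apply]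
  by_cases hu : u ∈ y.S
  · rw [if_pos hu]
    by_cases hx : (y.S.erase u).card = s ∧ ∀ i, 0 < (y.w - ex u) i ∧ (y.w - ex u) i < d
    · have h5 := exz_mk ψ (⟨y.S.erase u, y.w - ex u, hx.1, hx.2⟩ : MI d s d)
      simp only at h5
      rw [h5, Finset.sum_eq_single (⟨y.S.erase u, y.w - ex u, hx.1, hx.2⟩ : MI d s d)]
      · rw [if_pos ⟨Finset.notMem_erase u _, Finset.insert_erase hu, sub_add_cancel _ _⟩]
        rw [sg_erase_self]
      · intro x _ hne
        rw [if_neg, zero_mul]
        rintro ⟨h2, h3, h4⟩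
        apply hne
        refine MI.ext ?_ ?_
        · change x.S = y.S.erase u
          rw [← h3, Finset.erase_insert h2]
        · change x.w = y.w - ex u
          rw [← h4, add_sub_cancel_right]
      · simp
    · have : exz ψ (y.w - ex u) (y.S.erase u) = 0 := by
        by_contra h
        exact hx (exz_ne_zero h)
      rw [this, mul_zero]
      apply Finset.sum_eq_zero
      intro x _
      rw [if_neg, zero_mul]
      rintro ⟨h2, h3, h4⟩
      apply hx
      rw [← h3, Finset.erase_insert h2, ← h4, add_sub_cancel_right]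
      exact ⟨x.card_S, x.pos⟩
  · rw [if_neg hu]
    apply Finset.sum_eq_zero
    intro x _
    rw [if_neg, zero_mul]
    rintro ⟨h2, h3, h4⟩
    exact hu (h3 ▸ Finset.mem_insert_self _ _)

lemma mulVec_eq {d s : ℕ} (m : MI d (s + 1) (2 * d) → ℂ) (x : MI d s d) :
    ((mat d s).mulVec m) x =
      ∑ u : Mon d, iota u (fun S => exz m (x.w + ex u) S) x.S := by
  classical
  rw [Matrix.mulVec, dotProduct]
  have h1 : ∀ y, mat d s x y * m y = ∑ u : Mon d,
      (if u ∉ x.S ∧ insert u x.S = y.S ∧ x.w + ex u = y.w then sg u x.S else 0) *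
        m y := by
    intro y
    rw [← Finset.sum_mul]
    rfl
  rw [Finset.sum_congr rfl fun x _ => h1 x, Finset.sum_comm]
  refine Finset.sum_congr rfl fun u _ => ?_
  rw [iota_apply]
  by_cases hu : u ∈ x.S
  · rw [if_pos hu]
    apply Finset.sum_eq_zero
    intro y _
    rw [if_neg, zero_mul]
    rintro ⟨h2, _⟩
    exact h2 hu
  · rw [if_neg hu]
    have hy : (insert u x.S).card = s + 1 ∧
        ∀ i, 0 < (x.w + ex u) i ∧ (x.w + ex u) i < (2 * d : ℕ) := by
      refine ⟨by rw [Finset.card_insert_of_notMem hu, x.card_S], fun i => ?_⟩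
      have h2 := x.pos i
      have h3 := ex_nonneg u i
      have h4 := ex_le u i
      rw [Pi.add_apply]
      push_cast
      omega
    have h5 := exz_mk m (⟨insert u x.S, x.w + ex u, hy.1, hy.2⟩ : MI d (s + 1) (2 * d))
    simp only at h5
    rw [h5, Finset.sum_eq_single (⟨insert u x.S, x.w + ex u, hy.1, hy.2⟩ : MI d (s + 1) (2 * d))]
    · rw [if_pos ⟨hu, rfl, rfl⟩]
    · intro y _ hne
      rw [if_neg, zero_mul]
      rintro ⟨h2, h3, h4⟩
      exact hne (MI.ext h3.symm h4.symm)
    · simp

lemma KK_of_ker {d s : ℕ} (ψ : MI d s d → ℂ) (h : (mat d s).transpose.mulVec ψ = 0) :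
    exz ψ ∈ KK d s := by
  refine ⟨fun w S h => exz_ne_zero h, fun z => ?_⟩
  funext S
  by_cases hc : S.card = s + 1 ∧ ∀ i, 0 < z i ∧ z i < (2 * d : ℕ)
  · have h1 := transpose_mulVec ψ ⟨S, z, hc.1, hc.2⟩
    rw [h] at h1
    exact h1.symm
  · rw [Finset.sum_apply]
    apply Finset.sum_eq_zero
    intro u _
    by_contra h
    obtain ⟨h1, h2⟩ := CechData.eps_ne_zero h
    obtain ⟨h3, h4⟩ := exz_ne_zero h2
    apply hc
    refine ⟨?_, fun i => ?_⟩
    · rw [Finset.card_erase_of_mem h1] at h3
      have := Finset.card_pos.mpr ⟨u, h1⟩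
      omega
    · have h5 := h4 i
      have h6 := ex_nonneg u i
      have h7 := ex_le u i
      rw [Pi.sub_apply] at h5
      push_cast
      omega

lemma exz_restrict {d s : ℕ} (Ψ : KK d s) :
    exz (fun x : MI d s d => (Ψ : (Fin 4 → ℤ) → Finset (Mon d) → ℂ) x.w x.S) =
      (Ψ : (Fin 4 → ℤ) → Finset (Mon d) → ℂ) := by
  funext w S
  unfold exz
  by_cases h : S.card = s ∧ ∀ i, 0 < w i ∧ w i < (d : ℤ)
  · rw [dif_pos h]
  · rw [dif_neg h]
    by_contra h'
    exact h ((mem_KK.mp Ψ.2).1 w S (Ne.symm h'))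

/-- The kernel of the transposed matrix. -/
noncomputable def kerEquiv (d s : ℕ) :
    LinearMap.ker (mat d s).transpose.mulVecLin ≃ₗ[ℂ] KK d s where
  toFun ψ := ⟨exz (ψ : MI d s d → ℂ), KK_of_ker _ (LinearMap.mem_ker.mp ψ.2)⟩
  map_add' ψ ψ' := by
    apply Subtype.ext
    funext w S
    change exz ((ψ : MI d s d → ℂ) + (ψ' : MI d s d → ℂ)) w S = exz _ w S + exz _ w S
    unfold exz
    by_cases h : S.card = s ∧ ∀ i, 0 < w i ∧ w i < (d : ℤ)
    · rw [dif_pos h, dif_pos h, dif_pos h]; rfl
    · rw [dif_neg h, dif_neg h, dif_neg h, add_zero]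
  map_smul' c ψ := by
    apply Subtype.ext
    funext w S
    change exz (c • (ψ : MI d s d → ℂ)) w S = c * exz _ w S
    unfold exz
    by_cases h : S.card = s ∧ ∀ i, 0 < w i ∧ w i < (d : ℤ)
    · rw [dif_pos h, dif_pos h]; rfl
    · rw [dif_neg h, dif_neg h, mul_zero]
  invFun Ψ := ⟨fun x => (Ψ : (Fin 4 → ℤ) → Finset (Mon d) → ℂ) x.w x.S, by
    rw [LinearMap.mem_ker]
    funext y
    rw [Matrix.mulVecLin_apply, transpose_mulVec, exz_restrict, (mem_KK.mp Ψ.2).2]
    rfl⟩
  left_inv ψ := by
    apply Subtype.ext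
    funext x
    exact exz_mk _ x
  right_inv Ψ := by
    apply Subtype.ext
    exact exz_restrict Ψ

instance (d s : ℕ) : Module.Finite ℂ (KK d s) := Module.Finite.equiv (kerEquiv d s)

lemma finrank_coker (d s : ℕ) :
    Module.finrank ℂ ((MI d s d → ℂ) ⧸ LinearMap.range (mat d s).mulVecLin) =
      Module.finrank ℂ (KK d s) := by
  rw [← (kerEquiv d s).finrank_eq]
  have h1 := Submodule.finrank_quotient_add_finrank (LinearMap.range (mat d s).mulVecLin)
  have h2 := LinearMap.finrank_range_add_finrank_ker (mat d s).transpose.mulVecLin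
  have h3 : Module.finrank ℂ (LinearMap.range (mat d s).transpose.mulVecLin) =
      Module.finrank ℂ (LinearMap.range (mat d s).mulVecLin) := Matrix.rank_transpose (mat d s)
  omega

/-- Restriction of a field to its top part. -/
noncomputable def mu (d s m : ℕ) :
    CechData.Fld (Fin 4 → ℤ) (Mon d) 4 →ₗ[ℂ] (MI d s m → ℂ) where
  toFun y x := y (tot x.S - x.w) x.S univ
  map_add' _ _ := rfl
  map_smul' _ _ := rfl

lemma mu_apply (d s m : ℕ) (y : CechData.Fld (Fin 4 → ℤ) (Mon d) 4) (x : MI d s m) :
    mu d s m y x = y (tot x.S - x.w) x.S univ := rfl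

lemma finrank_K (d p : ℕ) : k (p + 1) 4 d = Module.finrank ℂ (KK d (p + 6)) := by
  classical
  rw [← finrank_coker]
  unfold k
  set C := cd d ((p : ℤ) + 5) with hC
  have htop : ∀ β S, C.Mset β S ↔
      (∀ i, 0 < tot S i - β i ∧ tot S i - β i < (S.card - (p + 5)) * (d : ℤ)) := by
    intro β S
    refine forall_congr' fun i => ?_
    rw [hC, cd_L, cd_H]
    have e : ((p : ℤ) + 5 - S.card) * d = - ((S.card - (p + 5)) * (d : ℤ)) := by ring
    rw [e]
    constructor
    · rintro ⟨h1, h2⟩; omega
    · rintro ⟨h1, h2⟩; omega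
  refine CechData.zigzag C (((p + 1 : ℕ) : ℤ)) (rho d (p + 1) 4) (rho d (p + 2) 3)
    (koszulD d (p + 1) 3) (cycles d (p + 1) 4) ?_ ?_ ?_ ?_ ?_ ?_ ?_ ?_ ?_
    (mu d (p + 6) d) (mu d (p + 7) (2 * d)) (mat d (p + 6)).mulVecLin ?_ ?_ ?_ ?_ ?_ ?_
  · exact fun r => rho_mem_V (by push_cast; ring) r
  · intro x
    have := rho_mem_V (t := (p : ℤ) + 5) (p := p + 2) (q := 3) (by push_cast; ring) x
    have e : (((p + 2 : ℕ)) : ℤ) = ((p + 1 : ℕ) : ℤ) + 1 := by push_cast; ring
    rwa [e] at this
  · exact fun r => rho_onR (by push_cast; ring) r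
  · exact fun r => rho_onR (by push_cast; ring) r
  · exact rho_injective d (p + 1) 4
  · exact fun f hf hR => rho_surj (by push_cast; ring) f hf hR
  · intro f hf hR
    have e : (((p + 2 : ℕ)) : ℤ) = ((p + 1 : ℕ) : ℤ) + 1 := by push_cast; ring
    rw [← e] at hf
    exact rho_surj (by push_cast; ring) f hf hR
  · intro x
    exact D_rho (d := d) (p := p + 1) (q := 3) (by push_cast; ring) x
  · intro r
    have h1 := D_rho (d := d) (p := p) (q := 4) (t := (p : ℤ) + 5) (by push_cast; ring) r
    rw [h1]
    constructor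
    · intro h
      have : koszulD d p 4 r = 0 := h
      rw [this, map_zero]
    · intro h
      have h2 : koszulD d p 4 r = 0 := rho_injective d p 5 (by rw [h, map_zero])
      exact h2
  · intro y hy
    constructor
    · intro h β S hM
      by_contra hne
      have h1 := (hy β S univ hne).2
      have hcard : S.card = p + 6 := by
        have : (univ : Finset (Fin 4)).card = 4 := by simp
        rw [this] at h1
        push_cast at h1
        omega
      rw [htop] at hM
      have h2 : ∀ i, 0 < (tot S - β) i ∧ (tot S - β) i < d := by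
        intro i
        have := hM i
        rw [hcard] at this
        push_cast at this
        have e : ((p : ℤ) + 6 - (p + 5)) * (d : ℤ) = d := by ring
        rw [e] at this
        exact this
      have h3 := congrFun h (⟨S, tot S - β, hcard, h2⟩ : MI d (p + 6) d)
      rw [mu_apply] at h3
      simp only [sub_sub_cancel] at h3
      exact hne h3
    · intro h
      funext x
      rw [mu_apply]
      apply h
      rw [htop]
      intro i
      have := x.pos i
      rw [x.card_S, Pi.sub_apply]
      push_cast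
      have e : ((p : ℤ) + 6 - (p + 5)) * (d : ℤ) = d := by ring
      rw [e]
      omega
  · intro m
    refine ⟨fun β S I => if I = univ then exz m (tot S - β) S else 0, ?_, ?_⟩
    · intro β S I hne
      by_cases hI : I = univ
      swap
      · simp [hI] at hne
      simp only [hI, if_true] at hne
      obtain ⟨h1, h2⟩ := exz_ne_zero hne
      rw [hI]
      refine ⟨⟨fun i hi => absurd (mem_univ i) hi, fun i _ => ?_⟩, ?_⟩
      · rw [hC, cd_H, h1]
        have := h2 i
        rw [Pi.sub_apply] at this
        push_cast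
        have e : ((p : ℤ) + 5 - (p + 6)) * (d : ℤ) = - d := by ring
        rw [e]
        omega
      · rw [h1]
        have : (univ : Finset (Fin 4)).card = 4 := by simp
        rw [this]
        push_cast
        ring
    · funext x
      rw [mu_apply]
      simp only [if_true, sub_sub_cancel]
      exact exz_mk m x
  · intro m
    refine ⟨fun β S I => if I = univ then exz m (tot S - β) S else 0, ?_, ?_⟩
    · intro β S I hne
      by_cases hI : I = univ
      swap
      · simp [hI] at hne
      simp only [hI, if_true] at hne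
      obtain ⟨h1, h2⟩ := exz_ne_zero hne
      rw [hI]
      refine ⟨⟨fun i hi => absurd (mem_univ i) hi, fun i _ => ?_⟩, ?_⟩
      · rw [hC, cd_H, h1]
        have := h2 i
        rw [Pi.sub_apply] at this
        push_cast at this ⊢
        have e : ((p : ℤ) + 5 - (p + 7)) * (d : ℤ) = - (2 * d) := by ring
        rw [e]
        omega
      · rw [h1]
        have : (univ : Finset (Fin 4)).card = 4 := by simp
        rw [this]
        push_cast
        ring
    · funext x
      rw [mu_apply]
      simp only [if_true, sub_sub_cancel]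
      exact exz_mk m x
  · intro y hy
    funext x
    rw [mu_apply, Matrix.mulVecLin_apply, mulVec_eq]
    have hcard := x.card_S
    have hv : C.valid (tot x.S - x.w) x.S univ := by
      refine ⟨fun i hi => absurd (mem_univ i) hi, fun i _ => ?_⟩
      rw [hC, cd_H, hcard]
      have := x.pos i
      rw [Pi.sub_apply]
      push_cast
      have e : ((p : ℤ) + 5 - (p + 6)) * (d : ℤ) = - d := by ring
      rw [e]
      omega
    rw [C.D_apply_valid hv]
    have hde : CechData.de (y (tot x.S - x.w)) x.S univ = 0 := by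
      apply CechData.de_eq_zero
      intro i _
      by_contra h
      have h1 := (hy _ _ _ h).1.1 i (by simp)
      rw [hC, cd_L, Pi.sub_apply] at h1
      have := x.pos i
      omega
    rw [hde, add_zero]
    unfold CechData.pa
    refine Finset.sum_congr rfl fun u _ => ?_
    rw [iota_apply, iota_apply]
    by_cases hu : u ∈ x.S
    · rw [if_pos hu, if_pos hu]
    · rw [if_neg hu, if_neg hu]
      have hy' : (insert u x.S).card = p + 7 ∧
          ∀ i, 0 < (x.w + ex u) i ∧ (x.w + ex u) i < (2 * d : ℕ) := by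
        refine ⟨by rw [Finset.card_insert_of_notMem hu, x.card_S], fun i => ?_⟩
        have h2 := x.pos i
        have h3 := ex_nonneg u i
        have h4 := ex_le u i
        rw [Pi.add_apply]
        push_cast
        omega
      have h5 := exz_mk (mu d (p + 7) (2 * d) y)
        (⟨insert u x.S, x.w + ex u, hy'.1, hy'.2⟩ : MI d (p + 7) (2 * d))
      simp only at h5
      rw [h5, mu_apply]
      simp only
      rw [tot_insert hu]
      have e : ex u + tot x.S - (x.w + ex u) = tot x.S - x.w := by abel
      rw [e]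
  · intro f hf β S hM
    by_contra hne
    have h1 := (hf β S univ hne).2
    have hcard : S.card = p + 5 := by
      have : (univ : Finset (Fin 4)).card = 4 := by simp
      rw [this] at h1
      push_cast at h1
      omega
    rw [htop] at hM
    have := hM 0
    rw [hcard] at this
    push_cast at this
    have e : ((p : ℤ) + 5 - (p + 5)) * (d : ℤ) = 0 := by ring
    rw [e] at this
    omega
  · intro f hR β S _
    by_contra hne
    have := (hR β S univ hne).2
    exact absurd this (by decide)

end Pool.Agent.GaussBetti
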