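import Pool.Agent.GaussBetti.LYM

/-!
# The failure of the Gaussian shape
-/

set_option autoImplicit false

open Finset Filter Topology

namespace Pool.Agent.GaussBetti

lemma r_eq (d : ℕ) : r d = (d + 1) ^ 4 - 1 := by
  unfold r
  rw [finrank_Sec]

lemma r_cast (d : ℕ) : (r d : ℝ) = ((d : ℝ) + 1) ^ 4 - 1 := by
  rw [r_eq, Nat.cast_sub (Nat.one_le_pow _ _ (Nat.succ_pos d))]
  push_cast
  ring

/-- The middle index. -/
def p0 (d : ℕ) : ℕ := ((d + 1) ^ 4 - 1) / 2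

/-- The shifted index. -/
def p1 (d : ℕ) : ℕ := p0 d - (d + 1) ^ 2 / 2

lemma k_ineq {d p : ℕ} (hd : 1 ≤ d) (hp : 1 ≤ p) :
    (((d : ℝ) + 1) ^ 4 - (p + 5) - (((d : ℝ) + 1) ^ 2 - 1)) * (k p 4 d : ℝ) ≤
      ((p : ℝ) + 6 - 4 * ((d : ℝ) + 1) ^ 2 + (((d : ℝ) + 1) ^ 2 - 1)) * (k (p + 1) 4 d : ℝ) := by
  obtain ⟨p', rfl⟩ : ∃ p', p = p' + 1 := ⟨p - 1, by omega⟩
  rw [finrank_K d p', finrank_K d (p' + 1)]
  have h := local_ineq (d := d) (s := p' + 6) hd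
  have h' : ((((((d + 1) ^ 4 : ℤ) - (p' + 6 : ℕ) - ((d + 1) ^ 2 - 1)) *
      Module.finrank ℂ (KK d (p' + 6)) : ℤ)) : ℝ) ≤
      ((((((p' + 6 : ℕ) : ℤ) + 1 - 4 * (d + 1) ^ 2 + ((d + 1) ^ 2 - 1)) *
        Module.finrank ℂ (KK d (p' + 6 + 1)) : ℤ)) : ℝ) := by
    exact_mod_cast h
  push_cast at h'
  have e : p' + 1 + 6 = p' + 6 + 1 := by ring
  rw [e]
  push_cast
  have e1 : ((d : ℝ) + 1) ^ 4 - ((p' : ℝ) + 1 + 5) - (((d : ℝ) + 1) ^ 2 - 1) =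
      ((d : ℝ) + 1) ^ 4 - ((p' : ℝ) + 6) - (((d : ℝ) + 1) ^ 2 - 1) := by ring
  have e2 : (p' : ℝ) + 1 + 6 - 4 * ((d : ℝ) + 1) ^ 2 + (((d : ℝ) + 1) ^ 2 - 1) =
      (p' : ℝ) + 6 + 1 - 4 * ((d : ℝ) + 1) ^ 2 + (((d : ℝ) + 1) ^ 2 - 1) := by ring
  rw [e1, e2]
  exact h'

/-- The ratio bound. -/
lemma k_ratio {d p : ℕ} (hd : 2 ≤ d) (hp : 1 ≤ p) (hp0 : p + 1 ≤ p0 d) :
    (k p 4 d : ℝ) ≤ (1 - (4 * ((d : ℝ) + 1) ^ 2 - 12) / (((d : ℝ) + 1) ^ 2) ^ 2) *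
      (k (p + 1) 4 d : ℝ) := by
  have h := k_ineq (d := d) (p := p) (by omega) hp
  set D : ℝ := ((d : ℝ) + 1) ^ 2 with hD
  have hdr : (2 : ℝ) ≤ d := by exact_mod_cast hd
  have hD9 : 9 ≤ D := by rw [hD]; nlinarith
  have e4 : ((d : ℝ) + 1) ^ 4 = D ^ 2 := by rw [hD]; ring
  rw [e4] at h
  have hpr : (p : ℝ) + 1 ≤ (D ^ 2 - 1) / 2 := by
    have h1 : 2 * (p + 1) ≤ (d + 1) ^ 4 - 1 := by unfold p0 at hp0; omega
    have h2 : 2 * (p + 1) + 1 ≤ (d + 1) ^ 4 := by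
      have : 1 ≤ (d + 1) ^ 4 := Nat.one_le_pow _ _ (Nat.succ_pos d)
      omega
    have h3 : 2 * ((p : ℝ) + 1) + 1 ≤ ((d : ℝ) + 1) ^ 4 := by exact_mod_cast h2
    rw [e4] at h3
    linarith
  have k0 : (0 : ℝ) ≤ (k p 4 d : ℝ) := by positivity
  have k1 : (0 : ℝ) ≤ (k (p + 1) 4 d : ℝ) := by positivity
  set x : ℝ := (k p 4 d : ℝ) with hx
  set y : ℝ := (k (p + 1) 4 d : ℝ) with hy
  have h1 : (D ^ 2 - 2 * D - 5) / 2 * x ≤ (D ^ 2 - 6 * D + 7) / 2 * y := by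
    have a1 : (D ^ 2 - 2 * D - 5) / 2 * x ≤ (D ^ 2 - (p + 5) - (D - 1)) * x := by
      apply mul_le_mul_of_nonneg_right _ k0
      linarith
    have a2 : ((p : ℝ) + 6 - 4 * D + (D - 1)) * y ≤ (D ^ 2 - 6 * D + 7) / 2 * y := by
      apply mul_le_mul_of_nonneg_right _ k1
      linarith
    linarith
  have hpos : 0 < (D ^ 2 - 2 * D - 5) / 2 := by nlinarith
  have hD2 : 0 < D ^ 2 := by positivity
  have h2 : (D ^ 2 - 6 * D + 7) / 2 ≤ (1 - (4 * D - 12) / D ^ 2) * ((D ^ 2 - 2 * D - 5) / 2) := by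
    have e : (1 - (4 * D - 12) / D ^ 2) = (D ^ 2 - 4 * D + 12) / D ^ 2 := by
      field_simp
      ring
    rw [e, div_mul_eq_mul_div, le_div_iff₀ hD2]
    nlinarith
  have h3 : (D ^ 2 - 2 * D - 5) / 2 * x ≤
      (D ^ 2 - 2 * D - 5) / 2 * ((1 - (4 * D - 12) / D ^ 2) * y) := by
    calc (D ^ 2 - 2 * D - 5) / 2 * x ≤ (D ^ 2 - 6 * D + 7) / 2 * y := h1
      _ ≤ (1 - (4 * D - 12) / D ^ 2) * ((D ^ 2 - 2 * D - 5) / 2) * y :=
          mul_le_mul_of_nonneg_right h2 k1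
      _ = (D ^ 2 - 2 * D - 5) / 2 * ((1 - (4 * D - 12) / D ^ 2) * y) := by ring
  exact le_of_mul_le_mul_left h3 hpos

lemma k_iter {d : ℕ} (hd : 2 ≤ d) : ∀ m : ℕ, m + 1 ≤ p0 d →
    (k (p0 d - m) 4 d : ℝ) ≤
      (1 - (4 * ((d : ℝ) + 1) ^ 2 - 12) / (((d : ℝ) + 1) ^ 2) ^ 2) ^ m * (k (p0 d) 4 d : ℝ) := by
  intro m
  induction m with
  | zero => intro _; simp
  | succ m ih =>
    intro hm
    have h1 := ih (by omega)
    have h2 := k_ratio (d := d) (p := p0 d - (m + 1)) hd (by omega) (by omega)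
    have e : p0 d - (m + 1) + 1 = p0 d - m := by omega
    rw [e] at h2
    have hρ : 0 ≤ 1 - (4 * ((d : ℝ) + 1) ^ 2 - 12) / (((d : ℝ) + 1) ^ 2) ^ 2 := by
      have hdr : (2 : ℝ) ≤ d := by exact_mod_cast hd
      have hD9 : 9 ≤ ((d : ℝ) + 1) ^ 2 := by nlinarith
      set D : ℝ := ((d : ℝ) + 1) ^ 2
      rw [sub_nonneg, div_le_one (by positivity)]
      nlinarith
    calc (k (p0 d - (m + 1)) 4 d : ℝ) ≤ _ := h2
      _ ≤ _ := mul_le_mul_of_nonneg_left h1 hρ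
      _ = _ := by rw [pow_succ]; ring

lemma p0_ge {d : ℕ} (hd : 2 ≤ d) : (d + 1) ^ 2 / 2 + 1 ≤ p0 d := by
  unfold p0
  have h9 : 9 ≤ (d + 1) ^ 2 := by nlinarith
  have h4 : (d + 1) ^ 4 = (d + 1) ^ 2 * (d + 1) ^ 2 := by ring
  rw [h4]
  set D := (d + 1) ^ 2
  have : 9 * D ≤ D * D := Nat.mul_le_mul_right D h9
  omega

/-- The main inequality. -/
lemma k_main {d : ℕ} (hd : 2 ≤ d) :
    (k (p1 d) 4 d : ℝ) ≤ Real.exp (-1) * (k (p0 d) 4 d : ℝ) := by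
  have h1 := k_iter hd ((d + 1) ^ 2 / 2) (p0_ge hd)
  refine le_trans h1 ?_
  apply mul_le_mul_of_nonneg_right _ (by positivity)
  have hdr : (2 : ℝ) ≤ d := by exact_mod_cast hd
  have hD9 : 9 ≤ ((d : ℝ) + 1) ^ 2 := by nlinarith
  have hm : (((d : ℝ) + 1) ^ 2 - 1) / 2 ≤ (((d + 1) ^ 2 / 2 : ℕ) : ℝ) := by
    have h2 : (d + 1) ^ 2 ≤ 2 * ((d + 1) ^ 2 / 2) + 1 := by omega
    have h3 : ((d : ℝ) + 1) ^ 2 ≤ 2 * (((d + 1) ^ 2 / 2 : ℕ) : ℝ) + 1 := by exact_mod_cast h2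
    linarith
  set m := (d + 1) ^ 2 / 2 with hmdef
  set D : ℝ := ((d : ℝ) + 1) ^ 2 with hD
  have hρ : 0 ≤ 1 - (4 * D - 12) / D ^ 2 := by
    rw [sub_nonneg, div_le_one (by positivity)]
    nlinarith
  have h2 : 1 - (4 * D - 12) / D ^ 2 ≤ Real.exp (-((4 * D - 12) / D ^ 2)) := by
    have := Real.add_one_le_exp (-((4 * D - 12) / D ^ 2))
    linarith
  calc (1 - (4 * D - 12) / D ^ 2) ^ m ≤ Real.exp (-((4 * D - 12) / D ^ 2)) ^ m :=
        pow_le_pow_left₀ hρ h2 m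
    _ = Real.exp (m * (-((4 * D - 12) / D ^ 2))) := by rw [← Real.exp_nat_mul]
    _ ≤ Real.exp (-1) := by
        rw [Real.exp_le_exp]
        have h3 : 1 ≤ (m : ℝ) * ((4 * D - 12) / D ^ 2) := by
          have h4 : 1 ≤ ((D - 1) / 2) * ((4 * D - 12) / D ^ 2) := by
            rw [← mul_div_assoc, le_div_iff₀ (by positivity)]
            nlinarith
          refine le_trans h4 ?_
          apply mul_le_mul_of_nonneg_right hm
          apply div_nonneg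
          · linarith
          · positivity
        linarith

lemma sqrt_r_tendsto : Tendsto (fun d : ℕ => Real.sqrt (r d)) atTop atTop := by
  apply Real.tendsto_sqrt_atTop.comp
  apply tendsto_natCast_atTop_atTop.comp
  apply tendsto_atTop_mono (f := fun d : ℕ => d)
  · intro d
    rw [r_eq]
    have : d + 1 ≤ (d + 1) ^ 4 := Nat.le_self_pow (by norm_num) _
    omega
  · exact tendsto_id

lemma inv_sqrt_r_tendsto (c : ℝ) : Tendsto (fun d : ℕ => c / Real.sqrt (r d)) atTop (𝓝 0) :=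
  sqrt_r_tendsto.const_div_atTop c

lemma p0_bound (d : ℕ) : |2 * (p0 d : ℝ) - r d| ≤ 1 := by
  have h1 : 2 * p0 d ≤ r d := by rw [r_eq]; unfold p0; omega
  have h2 : r d ≤ 2 * p0 d + 1 := by rw [r_eq]; unfold p0; omega
  have h1' : 2 * (p0 d : ℝ) ≤ r d := by exact_mod_cast h1
  have h2' : (r d : ℝ) ≤ 2 * p0 d + 1 := by exact_mod_cast h2
  rw [abs_le]
  constructor <;> linarith

lemma tendsto_p0 : Tendsto (fun d : ℕ => (2 * (p0 d : ℝ) - r d) / Real.sqrt (r d)) atTop (𝓝 0) := by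
  apply squeeze_zero_norm _ (inv_sqrt_r_tendsto 1)
  intro d
  rw [Real.norm_eq_abs, abs_div, abs_of_nonneg (Real.sqrt_nonneg _)]
  exact div_le_div_of_nonneg_right (p0_bound d) (Real.sqrt_nonneg _)

lemma tendsto_p1 :
    Tendsto (fun d : ℕ => (2 * (p1 d : ℝ) - r d) / Real.sqrt (r d)) atTop (𝓝 (-1)) := by
  rw [tendsto_iff_norm_sub_tendsto_zero]
  apply squeeze_zero' (g := fun d : ℕ => 3 / Real.sqrt (r d))
  · exact Eventually.of_forall fun d => norm_nonneg _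
  · filter_upwards [eventually_ge_atTop 2] with d hd
    have hdr : (2 : ℝ) ≤ d := by exact_mod_cast hd
    have hD9 : 9 ≤ ((d : ℝ) + 1) ^ 2 := by nlinarith
    have hp1 : (p1 d : ℝ) = p0 d - (((d + 1) ^ 2 / 2 : ℕ) : ℝ) := by
      unfold p1
      rw [Nat.cast_sub]
      have := p0_ge hd
      omega
    have h2 : (d + 1) ^ 2 ≤ 2 * ((d + 1) ^ 2 / 2) + 1 := by omega
    have h2' : 2 * ((d + 1) ^ 2 / 2) ≤ (d + 1) ^ 2 := by omega
    have h3 : ((d : ℝ) + 1) ^ 2 ≤ 2 * (((d + 1) ^ 2 / 2 : ℕ) : ℝ) + 1 := by exact_mod_cast h2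
    have h3' : 2 * (((d + 1) ^ 2 / 2 : ℕ) : ℝ) ≤ ((d : ℝ) + 1) ^ 2 := by exact_mod_cast h2'
    rw [hp1]
    set m : ℝ := (((d + 1) ^ 2 / 2 : ℕ) : ℝ) with hm
    have hb := p0_bound d
    have hr : (r d : ℝ) = (((d : ℝ) + 1) ^ 2) ^ 2 - 1 := by rw [r_cast]; ring
    set D : ℝ := ((d : ℝ) + 1) ^ 2 with hD
    have hs1 : Real.sqrt (r d) ≤ D := by
      rw [Real.sqrt_le_left (by linarith), hr]
      linarith
    have hs2 : D - 1 ≤ Real.sqrt (r d) := by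
      apply Real.le_sqrt_of_sq_le
      rw [hr]
      nlinarith
    have hspos : 0 < Real.sqrt (r d) := by linarith
    have e : (2 * ((p0 d : ℝ) - m) - r d) / Real.sqrt (r d) - -1 =
        ((2 * (p0 d : ℝ) - r d) + (Real.sqrt (r d) - 2 * m)) / Real.sqrt (r d) := by
      field_simp
      ring
    rw [e, Real.norm_eq_abs, abs_div, abs_of_pos hspos]
    apply div_le_div_of_nonneg_right _ hspos.le
    rw [abs_le] at hb ⊢
    constructor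
    · linarith [hb.1]
    · linarith [hb.2]
  · exact inv_sqrt_r_tendsto 3

/-- The Gaussian shape fails for `(P¹)⁴`. -/
theorem main : ¬ ∃ F : ℕ → ℝ, ∀ (a : ℝ) (p : ℕ → ℕ),
    Tendsto (fun d => (2 * (p d : ℝ) - r d) / Real.sqrt (r d)) atTop (𝓝 a) →
    Tendsto (fun d => F d * (k (p d) 4 d : ℝ)) atTop (𝓝 (Real.exp (-a ^ 2 / 2))) := by
  rintro ⟨F, hF⟩
  have h0 := hF 0 p0 tendsto_p0
  have h1 := hF (-1) p1 tendsto_p1
  have e0 : Real.exp (-(0 : ℝ) ^ 2 / 2) = 1 := by norm_num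
  rw [e0] at h0
  have hpos : ∀ᶠ d in atTop, 0 < F d * (k (p0 d) 4 d : ℝ) :=
    h0.eventually (lt_mem_nhds one_pos)
  have hle : ∀ᶠ d in atTop, F d * (k (p1 d) 4 d : ℝ) ≤
      Real.exp (-1) * (F d * (k (p0 d) 4 d : ℝ)) := by
    filter_upwards [hpos, eventually_ge_atTop 2] with d hd hd2
    have hFpos : 0 < F d := by
      have hk : (0 : ℝ) ≤ (k (p0 d) 4 d : ℝ) := by positivity
      by_contra hc
      push Not at hc
      have := mul_nonpos_of_nonpos_of_nonneg hc hk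
      linarith
    calc F d * (k (p1 d) 4 d : ℝ) ≤ F d * (Real.exp (-1) * (k (p0 d) 4 d : ℝ)) :=
          mul_le_mul_of_nonneg_left (k_main hd2) hFpos.le
      _ = _ := by ring
  have h2 := le_of_tendsto_of_tendsto h1 (h0.const_mul (Real.exp (-1))) hle
  rw [mul_one, Real.exp_le_exp] at h2
  norm_num at h2

end Pool.Agent.GaussBetti
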