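import Pool.Agent.GaussBetti.Vanish

/-!
# Leading monomials and the local inequality for the Koszul cohomology
-/

set_option autoImplicit false

open Finset

namespace Pool.Agent.GaussBetti

section Leading

variable {X K : Type*} [Fintype X] [LinearOrder K] (key : X → K)

/-- The set of leading monomials of a space of functions. -/
def LM (W : Submodule ℂ (X → ℂ)) : Set X :=
  {x | ∃ f ∈ W, f x ≠ 0 ∧ ∀ y, f y ≠ 0 → key x ≤ key y}

lemma finrank_le_card_LM (W : Submodule ℂ (X → ℂ)) : Module.finrank ℂ W ≤ Nat.card (LM key W) := by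
  classical
  have : Fintype (LM key W) := Fintype.ofFinite _
  let r : W →ₗ[ℂ] (LM key W → ℂ) :=
    { toFun := fun f x => (f : X → ℂ) x
      map_add' := fun _ _ => rfl
      map_smul' := fun _ _ => rfl }
  have hr : Function.Injective r := by
    rw [injective_iff_map_eq_zero]
    intro f hf
    by_contra hne
    have h1 : ∃ x, (f : X → ℂ) x ≠ 0 := by
      by_contra h
      push Not at h
      exact hne (Subtype.ext (funext h))
    obtain ⟨x0, hx0⟩ := h1
    obtain ⟨x, hx, hmin⟩ := Finset.exists_min_image (univ.filter fun x => (f : X → ℂ) x ≠ 0) key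
      ⟨x0, by simp [hx0]⟩
    rw [mem_filter] at hx
    have hxL : x ∈ LM key W := ⟨f, f.2, hx.2, fun y hy => hmin y (by simp [hy])⟩
    exact hx.2 (congrFun hf ⟨x, hxL⟩)
  have h2 := LinearMap.finrank_le_finrank_of_injective hr
  rw [Module.finrank_fintype_fun_eq_card, ← Nat.card_eq_fintype_card] at h2
  exact h2

lemma card_LM_le_finrank (hkey : Function.Injective key) (W : Submodule ℂ (X → ℂ)) :
    Nat.card (LM key W) ≤ Module.finrank ℂ W := by
  classical
  have : Fintype (LM key W) := Fintype.ofFinite _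
  have hch : ∀ x : LM key W, ∃ f ∈ W, f (x : X) ≠ 0 ∧ ∀ y, f y ≠ 0 → key x ≤ key y :=
    fun x => x.2
  choose f hfW hfx hfmin using hch
  have hli : LinearIndependent ℂ (fun x : LM key W => (⟨f x, hfW x⟩ : W)) := by
    rw [linearIndependent_iff']
    intro s g hg x hx
    by_contra hne
    obtain ⟨y, hy, hmin⟩ := Finset.exists_min_image (s.filter fun x => g x ≠ 0)
      (fun x => key (x : X)) ⟨x, by simp [hx, hne]⟩
    rw [mem_filter] at hy
    have h1 := congrArg (fun F : W => (F : X → ℂ) (y : X)) hg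
    simp only [Submodule.coe_sum, Submodule.coe_smul, Finset.sum_apply, Pi.smul_apply,
      smul_eq_mul, Submodule.coe_zero, Pi.zero_apply] at h1
    rw [Finset.sum_eq_single y] at h1
    · rcases mul_eq_zero.mp h1 with h2 | h2
      · exact hy.2 h2
      · exact hfx y h2
    · intro z hz hzy
      by_cases hgz : g z = 0
      · rw [hgz, zero_mul]
      · by_cases hfz : f z (y : X) = 0
        · rw [hfz, mul_zero]
        · exfalso
          have h2 := hmin z (by simp [hz, hgz])
          have h3 := hfmin z _ hfz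
          exact hzy (Subtype.ext (hkey (le_antisymm h3 h2)))
    · intro h; exact absurd hy.1 h
  have := hli.fintype_card_le_finrank
  rw [← Nat.card_eq_fintype_card] at this
  exact this

end Leading

/-- The type of keys. -/
abbrev Key (d : ℕ) : Type := ℕ ×ₗ (Colex (Finset (Mon d)) ×ₗ Lex (Fin 4 → ℤ))

/-- The monomial order. -/
noncomputable def mkey {d : ℕ} (S : Finset (Mon d)) (w : Fin 4 → ℤ) : Key d :=
  toLex ((TT d \ S).card, toLex (toColex S, toLex w))

lemma mkey_injective {d : ℕ} {S S' : Finset (Mon d)} {w w' : Fin 4 → ℤ}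
    (h : mkey S w = mkey S' w') : S = S' ∧ w = w' := by
  unfold mkey at h
  have h1 := toLex.injective h
  have h2 := toLex.injective (congrArg Prod.snd h1)
  exact ⟨toColex.injective (congrArg Prod.fst h2), toLex.injective (congrArg Prod.snd h2)⟩

lemma mkey_le {d : ℕ} {S S' : Finset (Mon d)} {w w' : Fin 4 → ℤ} : mkey S w ≤ mkey S' w' ↔
    (TT d \ S).card < (TT d \ S').card ∨ ((TT d \ S).card = (TT d \ S').card ∧
      (toColex S < toColex S' ∨ (S = S' ∧ toLex w ≤ toLex w'))) := by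
  unfold mkey
  rw [Prod.Lex.toLex_le_toLex, Prod.Lex.toLex_le_toLex]
  simp

lemma sdiff_insert_card {d : ℕ} {S : Finset (Mon d)} {a : Mon d} (ha : a ∉ TT d) :
    TT d \ insert a S = TT d \ S := by
  ext x
  simp only [mem_sdiff, mem_insert, not_or]
  constructor
  · rintro ⟨h1, _, h2⟩; exact ⟨h1, h2⟩
  · rintro ⟨h1, h2⟩; exact ⟨h1, fun h => ha (h ▸ h1), h2⟩

lemma mkey_insert {d : ℕ} {S S' : Finset (Mon d)} {w w' : Fin 4 → ℤ} {a : Mon d}
    (ha : a ∉ TT d) (hS : a ∉ S) (hS' : a ∉ S') (h : mkey S w ≤ mkey S' w') :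
    mkey (insert a S) w ≤ mkey (insert a S') w' := by
  rw [mkey_le] at h ⊢
  rw [sdiff_insert_card ha, sdiff_insert_card ha]
  rcases h with h | ⟨h, h'⟩
  · exact Or.inl h
  · right
    refine ⟨h, ?_⟩
    rcases h' with h' | ⟨h', h''⟩
    · left
      rw [← Finset.Colex.toColex_sdiff_lt_toColex_sdiff (u := {a}) (by simp) (by simp)]
      rw [Finset.insert_sdiff_of_mem _ (by simp), Finset.insert_sdiff_of_mem _ (by simp),
        Finset.sdiff_singleton_eq_erase, Finset.sdiff_singleton_eq_erase,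
        Finset.erase_eq_of_notMem hS, Finset.erase_eq_of_notMem hS']
      exact h'
    · right
      exact ⟨by rw [h'], h''⟩

/-- The space of annihilated fields as functions on a finite set. -/
noncomputable def WW (d s : ℕ) : Submodule ℂ (MI d s d → ℂ) :=
  LinearMap.ker (mat d s).transpose.mulVecLin

lemma finrank_WW (d s : ℕ) : Module.finrank ℂ (WW d s) = Module.finrank ℂ (KK d s) :=
  (kerEquiv d s).finrank_eq

lemma exz_mem_KK {d s : ℕ} {f : MI d s d → ℂ} (hf : f ∈ WW d s) : exz f ∈ KK d s :=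
  KK_of_ker f (LinearMap.mem_ker.mp hf)

lemma restrict_mem_WW {d s : ℕ} {Ψ : (Fin 4 → ℤ) → Finset (Mon d) → ℂ} (hΨ : Ψ ∈ KK d s) :
    (fun x : MI d s d => Ψ x.w x.S) ∈ WW d s :=
  ((kerEquiv d s).symm ⟨Ψ, hΨ⟩).2

/-- The key restricted to the index set. -/
noncomputable def ikey {d s : ℕ} (x : MI d s d) : Key d := mkey x.S x.w

lemma ikey_injective {d s : ℕ} : Function.Injective (ikey (d := d) (s := s)) := by
  intro x y h
  obtain ⟨h1, h2⟩ := mkey_injective h
  exact MI.ext h1 h2

/-- Leading monomials have small defect. -/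
lemma LM_defect {d s : ℕ} (hd : 1 ≤ d) {x : MI d s d} (hx : x ∈ LM ikey (WW d s)) :
    (TT d \ x.S).card < (d + 1) ^ 2 := by
  obtain ⟨f, hf, hfx, hmin⟩ := hx
  by_contra hc
  push Not at hc
  have hmin' : ∀ w S, exz f w S ≠ 0 → (TT d \ x.S).card ≤ (TT d \ S).card := by
    intro w S hne
    obtain ⟨h1, h2⟩ := exz_ne_zero hne
    have h3 := exz_mk f ⟨S, w, h1, h2⟩
    simp only at h3
    rw [h3] at hne
    have h4 := hmin _ hne
    unfold ikey at h4
    rw [mkey_le] at h4
    rcases h4 with h4 | h4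
    · exact h4.le
    · exact h4.1.le
  have h1 := KK_vanish hd (exz_mem_KK hf) hmin' hc x.w x.S rfl
  rw [exz_mk] at h1
  exact hfx h1

lemma eps_mem_KK {d s : ℕ} {Ψ : (Fin 4 → ℤ) → Finset (Mon d) → ℂ} (hΨ : Ψ ∈ KK d s) (a : Mon d) :
    (fun w => eps a (Ψ w)) ∈ KK d (s + 1) := by
  refine ⟨fun w S hne => ?_, fun z => ?_⟩
  · obtain ⟨h1, h2⟩ := CechData.eps_ne_zero hne
    obtain ⟨h3, h4⟩ := hΨ.1 _ _ h2
    refine ⟨?_, h4⟩
    rw [Finset.card_erase_of_mem h1] at h3
    have := Finset.card_pos.mpr ⟨a, h1⟩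
    omega
  · have h1 : ∑ u : Mon d, eps u (eps a (Ψ (z - ex u))) =
        - eps a (∑ u : Mon d, eps u (Ψ (z - ex u))) := by
      rw [map_sum, ← Finset.sum_neg_distrib]
      exact Finset.sum_congr rfl fun u _ => eps_eps u a _
    rw [hΨ.2, map_zero, neg_zero] at h1
    exact h1

/-- Leading monomials are closed under adding elements outside the transversal. -/
lemma LM_insert {d s : ℕ} {x : MI d s d} (hx : x ∈ LM ikey (WW d s)) {a : Mon d}
    (ha : a ∉ TT d) (haS : a ∉ x.S) :
    (⟨insert a x.S, x.w, by rw [Finset.card_insert_of_notMem haS, x.card_S], x.pos⟩ :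
      MI d (s + 1) d) ∈ LM ikey (WW d (s + 1)) := by
  obtain ⟨f, hf, hfx, hmin⟩ := hx
  refine ⟨_, restrict_mem_WW (eps_mem_KK (exz_mem_KK hf) a), ?_, ?_⟩
  · simp only
    rw [eps_apply, if_pos (mem_insert_self _ _), erase_insert haS, exz_mk]
    exact mul_ne_zero (sg_ne_zero _ _) hfx
  · intro y hy
    obtain ⟨h1, h2⟩ := CechData.eps_ne_zero hy
    obtain ⟨h3, h4⟩ := exz_ne_zero h2
    have h5 := exz_mk f ⟨y.S.erase a, y.w, h3, h4⟩
    simp only at h5
    rw [h5] at h2
    have h6 := hmin _ h2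
    have h7 := mkey_insert ha haS (Finset.notMem_erase a y.S) h6
    rw [Finset.insert_erase h1] at h7
    exact h7

/-- The local inequality. -/
theorem local_ineq {d s : ℕ} (hd : 1 ≤ d) :
    (((d + 1) ^ 4 : ℤ) - s - ((d + 1) ^ 2 - 1)) * Module.finrank ℂ (KK d s) ≤
      ((s : ℤ) + 1 - 4 * (d + 1) ^ 2 + ((d + 1) ^ 2 - 1)) * Module.finrank ℂ (KK d (s + 1)) := by
  classical
  set L0 : Finset (MI d s d) := univ.filter (fun x => x ∈ LM ikey (WW d s)) with hL0
  set L1 : Finset (MI d (s + 1) d) := univ.filter (fun x => x ∈ LM ikey (WW d (s + 1))) with hL1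
  have hc0 : L0.card = Module.finrank ℂ (KK d s) := by
    rw [← finrank_WW]
    have h1 := finrank_le_card_LM ikey (WW d s)
    have h2 := card_LM_le_finrank ikey ikey_injective (WW d s)
    have h3 : Nat.card (LM ikey (WW d s)) = L0.card := by
      rw [hL0, Nat.card_eq_fintype_card, Fintype.card_subtype]
    omega
  have hc1 : L1.card = Module.finrank ℂ (KK d (s + 1)) := by
    rw [← finrank_WW]
    have h1 := finrank_le_card_LM ikey (WW d (s + 1))
    have h2 := card_LM_le_finrank ikey ikey_injective (WW d (s + 1))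
    have h3 : Nat.card (LM ikey (WW d (s + 1))) = L1.card := by
      rw [hL1, Nat.card_eq_fintype_card, Fintype.card_subtype]
    omega
  have hN : Fintype.card (Mon d) = (d + 1) ^ 4 := by
    change Fintype.card (Fin 4 → Fin (d + 1)) = _
    simp
  set A0 : Finset (Σ _ : MI d s d, Mon d) := L0.sigma (fun x => univ \ (x.S ∪ TT d)) with hA0
  set A1 : Finset (Σ _ : MI d (s + 1) d, Mon d) := L1.sigma (fun y => y.S \ TT d) with hA1
  have hA : A0.card ≤ A1.card := by
    let g0 : (Σ _ : MI d s d, Mon d) → Finset (Mon d) × (Fin 4 → ℤ) × Mon d :=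
      fun x => (insert x.2 x.1.S, x.1.w, x.2)
    let g1 : (Σ _ : MI d (s + 1) d, Mon d) → Finset (Mon d) × (Fin 4 → ℤ) × Mon d :=
      fun y => (y.1.S, y.1.w, y.2)
    have h1 : (A0.image g0).card = A0.card := by
      apply Finset.card_image_of_injOn
      rintro ⟨x, a⟩ hx ⟨y, b⟩ hy h
      simp only [hA0, coe_sigma, Set.mem_sigma_iff, mem_coe, mem_sdiff, mem_univ, true_and,
        mem_union, not_or] at hx hy
      simp only [g0, Prod.mk.injEq] at h
      obtain ⟨h2, h3, h4⟩ := h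
      subst h4
      have h5 : x.S = y.S := by
        rw [← Finset.erase_insert hx.2.1, ← Finset.erase_insert hy.2.1, h2]
      have h6 : x = y := MI.ext h5 h3
      rw [h6]
    rw [← h1]
    refine le_trans (Finset.card_le_card ?_) (Finset.card_image_le (f := g1))
    intro t ht
    rw [Finset.mem_image] at ht ⊢
    obtain ⟨⟨x, a⟩, hx, rfl⟩ := ht
    simp only [hA0, mem_sigma, mem_sdiff, mem_univ, true_and, mem_union, not_or] at hx
    obtain ⟨hxL, haS, haT⟩ := hx
    rw [hL0, mem_filter] at hxL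
    have h2 := LM_insert hxL.2 haT haS
    refine ⟨⟨(⟨insert a x.S, x.w, by rw [Finset.card_insert_of_notMem haS, x.card_S], x.pos⟩ :
        MI d (s + 1) d), a⟩, ?_, rfl⟩
    simp only [hA1, mem_sigma, mem_sdiff]
    refine ⟨?_, mem_insert_self _ _, haT⟩
    rw [hL1, mem_filter]
    exact ⟨mem_univ _, h2⟩
  rw [hA0, hA1, Finset.card_sigma, Finset.card_sigma] at hA
  have hlow : ∀ x ∈ L0, (((d + 1) ^ 4 : ℤ) - s - ((d + 1) ^ 2 - 1)) ≤
      ((univ \ (x.S ∪ TT d)).card : ℤ) := by
    intro x hx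
    rw [hL0, mem_filter] at hx
    have hdef := LM_defect hd hx.2
    have h1 := Finset.card_sdiff_add_card_eq_card (Finset.subset_univ (x.S ∪ TT d))
    have h2 : (x.S ∪ TT d).card = x.S.card + (TT d \ x.S).card := by
      rw [← Finset.union_sdiff_self_eq_union, Finset.card_union_of_disjoint]
      exact Finset.disjoint_sdiff
    rw [h2, x.card_S, Finset.card_univ, hN] at h1
    have h3 : ((univ \ (x.S ∪ TT d)).card : ℤ) + (s + (TT d \ x.S).card) =
        (d + 1) ^ 4 := by exact_mod_cast h1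
    have h4 : ((TT d \ x.S).card : ℤ) < (d + 1) ^ 2 := by exact_mod_cast hdef
    linarith
  have hup : ∀ y ∈ L1, ((y.S \ TT d).card : ℤ) ≤
      ((s : ℤ) + 1 - 4 * (d + 1) ^ 2 + ((d + 1) ^ 2 - 1)) := by
    intro y hy
    rw [hL1, mem_filter] at hy
    have hdef := LM_defect hd hy.2
    have h1 := Finset.card_sdiff_add_card_inter y.S (TT d)
    have h2 := Finset.card_sdiff_add_card_inter (TT d) y.S
    rw [Finset.inter_comm, card_TT hd] at h2
    rw [y.card_S] at h1
    have h3 : ((y.S \ TT d).card : ℤ) + (y.S ∩ TT d).card = s + 1 := by exact_mod_cast h1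
    have h4 : ((TT d \ y.S).card : ℤ) + (y.S ∩ TT d).card = 4 * (d + 1) ^ 2 := by
      exact_mod_cast h2
    have h5 : ((TT d \ y.S).card : ℤ) < (d + 1) ^ 2 := by exact_mod_cast hdef
    linarith
  rw [← hc0, ← hc1]
  have e0 : (((d + 1) ^ 4 : ℤ) - s - ((d + 1) ^ 2 - 1)) * L0.card ≤
      ∑ x ∈ L0, ((univ \ (x.S ∪ TT d)).card : ℤ) := by
    have := Finset.card_nsmul_le_sum L0 (fun x => ((univ \ (x.S ∪ TT d)).card : ℤ)) _ hlow
    rw [nsmul_eq_mul, mul_comm] at this
    exact this
  have e1 : ∑ y ∈ L1, ((y.S \ TT d).card : ℤ) ≤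
      ((s : ℤ) + 1 - 4 * (d + 1) ^ 2 + ((d + 1) ^ 2 - 1)) * L1.card := by
    have := Finset.sum_le_card_nsmul L1 (fun y => ((y.S \ TT d).card : ℤ)) _ hup
    rw [nsmul_eq_mul, mul_comm] at this
    exact this
  have e2 : ∑ x ∈ L0, ((univ \ (x.S ∪ TT d)).card : ℤ) ≤ ∑ y ∈ L1, ((y.S \ TT d).card : ℤ) := by
    exact_mod_cast hA
  linarith

end Pool.Agent.GaussBetti
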