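import Pool.Agent.GaussBetti.Dual

/-!
# The vanishing lemma
-/

set_option autoImplicit false

open Finset

namespace Pool.Agent.GaussBetti

/-- The algebraic core: anticommuting operators and power series identities. -/
lemma vanish_nat {W V : Type*} [AddCommGroup W] [Module ℂ W] (E : ℕ → V → W →ₗ[ℂ] W)
    (hE : ∀ m v m' v' x, E m v (E m' v' x) = - E m' v' (E m v x))
    (F : ℕ → Submodule ℂ W) (hF : ∀ j m v x, x ∈ F (j + 1) → E m v x ∈ F j)
    (hinj : ∀ j x, x ∈ F (j + 1) → (∀ m v, E m v x = 0) → x = 0) :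
    ∀ (B : ℕ) (κ : ℕ → W), (∀ m, B ≤ m → κ m = 0) → (∀ m, κ m ∈ F B) →
      (∀ v T, ∑ x ∈ antidiagonal T, E x.2 v (κ x.1) = 0) → ∀ m, κ m = 0 := by
  intro B
  induction B with
  | zero => exact fun κ h _ _ m => h m (Nat.zero_le m)
  | succ B ih =>
    intro κ h0 hdeg hrel
    have key : ∀ a : ℕ, ∀ v m, E a v (κ m) = 0 := by
      intro a
      induction a using Nat.strong_induction_on with
      | _ a iha =>
        have h1 : ∀ v, E a v (κ 0) = 0 := by
          intro v
          have h2 := hrel v a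
          rw [Finset.sum_eq_single (0, a)] at h2
          · exact h2
          · rintro ⟨x, y⟩ hxy hne
            rw [Finset.HasAntidiagonal.mem_antidiagonal] at hxy
            simp only at hxy
            apply iha y
            rcases Nat.eq_zero_or_pos x with hx | hx
            · exfalso
              apply hne
              subst hx
              rw [zero_add] at hxy
              rw [hxy]
            · omega
          · intro h; exact absurd (by simp) h
        intro v' m
        rcases Nat.eq_zero_or_pos m with hm | hm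
        · rw [hm]; exact h1 v'
        obtain ⟨m', rfl⟩ : ∃ m', m = m' + 1 := ⟨m - 1, by omega⟩
        refine ih (fun m => E a v' (κ (m + 1))) ?_ ?_ ?_ m'
        · intro n hn
          rw [h0 (n + 1) (by omega), map_zero]
        · exact fun n => hF B a v' _ (hdeg (n + 1))
        · intro v T
          have h3 := hrel v (T + 1)
          rw [Finset.Nat.sum_antidiagonal_succ] at h3
          simp only at h3
          have h4 : ∑ x ∈ antidiagonal T, E x.2 v (E a v' (κ (x.1 + 1))) =
              - E a v' (∑ x ∈ antidiagonal T, E x.2 v (κ (x.1 + 1))) := by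
            rw [map_sum, ← Finset.sum_neg_distrib]
            exact Finset.sum_congr rfl fun x _ => hE _ _ _ _ _
          rw [h4]
          have h5 : ∑ x ∈ antidiagonal T, E x.2 v (κ (x.1 + 1)) = - E (T + 1) v (κ 0) := by
            rw [eq_neg_iff_add_eq_zero, add_comm]
            exact h3
          rw [h5, map_neg, neg_neg, hE, h1, map_zero, neg_zero]
    intro m
    exact hinj B (κ m) (hdeg m) (fun a v => key a v m)

/-- Version indexed by a finite set with an injective weight. -/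
lemma vanish_fin {W V P : Type*} [AddCommGroup W] [Module ℂ W] [Fintype P] (τ : P → ℕ)
    (hτ : Function.Injective τ) (E : P → V → W →ₗ[ℂ] W)
    (hE : ∀ m v m' v' x, E m v (E m' v' x) = - E m' v' (E m v x))
    (F : ℕ → Submodule ℂ W) (hF : ∀ j m v x, x ∈ F (j + 1) → E m v x ∈ F j)
    (hinj : ∀ j x, x ∈ F (j + 1) → (∀ m v, E m v x = 0) → x = 0)
    (B : ℕ) (hB : ∀ a, τ a < B) (κ : P → W) (hdeg : ∀ a, κ a ∈ F B)
    (hrel : ∀ v T, ∑ a, ∑ b, (if τ a + τ b = T then E b v (κ a) else 0) = 0) (a : P) :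
    κ a = 0 := by
  classical
  let E' : ℕ → V → W →ₗ[ℂ] W := fun m v => ∑ b, if τ b = m then E b v else 0
  have hE'ap : ∀ m v x, E' m v x = ∑ b, if τ b = m then E b v x else 0 := by
    intro m v x
    change (∑ b, if τ b = m then E b v else 0) x = _
    rw [LinearMap.sum_apply]
    refine Finset.sum_congr rfl fun b _ => ?_
    split_ifs <;> rfl
  have hE'τ : ∀ b v x, E' (τ b) v x = E b v x := by
    intro b v x
    rw [hE'ap, Finset.sum_eq_single b]
    · rw [if_pos rfl]
    · intro c _ hc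
      rw [if_neg]
      intro h; exact hc (hτ h)
    · simp
  let κ' : ℕ → W := fun m => ∑ a, if τ a = m then κ a else 0
  have hκ'τ : ∀ a, κ' (τ a) = κ a := by
    intro a
    change (∑ c, if τ c = τ a then κ c else 0) = _
    rw [Finset.sum_eq_single a]
    · rw [if_pos rfl]
    · intro c _ hc
      rw [if_neg]
      intro h; exact hc (hτ h)
    · simp
  rw [← hκ'τ a]
  refine vanish_nat E' ?_ F ?_ ?_ B κ' ?_ ?_ ?_ (τ a)
  · intro m v m' v' x
    rw [hE'ap m v (E' m' v' x), hE'ap m' v' (E' m v x)]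
    have h1 : ∀ b : P, E b v (E' m' v' x) = ∑ c, if τ c = m' then E b v (E c v' x) else 0 := by
      intro b
      rw [hE'ap, map_sum]
      refine Finset.sum_congr rfl fun c _ => ?_
      split_ifs
      · rfl
      · exact map_zero _
    have h2 : ∀ c : P, E c v' (E' m v x) = ∑ b, if τ b = m then E c v' (E b v x) else 0 := by
      intro c
      rw [hE'ap, map_sum]
      refine Finset.sum_congr rfl fun b _ => ?_
      split_ifs
      · rfl
      · exact map_zero _
    simp_rw [h1, h2]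
    have h3 : (∑ b, if τ b = m then ∑ c, (if τ c = m' then E b v (E c v' x) else 0) else 0) =
        ∑ b, ∑ c, if τ b = m ∧ τ c = m' then E b v (E c v' x) else 0 := by
      refine Finset.sum_congr rfl fun b _ => ?_
      by_cases hb : τ b = m
      · simp [hb]
      · simp [hb]
    have h4 : (∑ c, if τ c = m' then ∑ b, (if τ b = m then E c v' (E b v x) else 0) else 0) =
        ∑ c, ∑ b, if τ b = m ∧ τ c = m' then E c v' (E b v x) else 0 := by
      refine Finset.sum_congr rfl fun c _ => ?_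
      by_cases hc : τ c = m'
      · simp [hc]
      · simp [hc]
    rw [h3, h4, Finset.sum_comm, ← Finset.sum_neg_distrib]
    refine Finset.sum_congr rfl fun c _ => ?_
    rw [← Finset.sum_neg_distrib]
    refine Finset.sum_congr rfl fun b _ => ?_
    split_ifs
    · exact hE _ _ _ _ _
    · rw [neg_zero]
  · intro j m v x hx
    rw [hE'ap]
    refine Submodule.sum_mem _ fun b _ => ?_
    split_ifs
    · exact hF j b v x hx
    · exact Submodule.zero_mem _
  · intro j x hx h
    exact hinj j x hx fun b v => by rw [← hE'τ]; exact h _ _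
  · intro m hm
    apply Finset.sum_eq_zero
    intro b _
    rw [if_neg]
    intro h
    have := hB b
    omega
  · intro m
    refine Submodule.sum_mem _ fun b _ => ?_
    split_ifs
    · exact hdeg b
    · exact Submodule.zero_mem _
  · intro v T
    rw [← hrel v T]
    have h1 : ∀ x : ℕ × ℕ, E' x.2 v (κ' x.1) =
        ∑ a, ∑ b, if τ a = x.1 ∧ τ b = x.2 then E b v (κ a) else 0 := by
      intro x
      change E' x.2 v (∑ a, if τ a = x.1 then κ a else 0) = _
      rw [map_sum]
      refine Finset.sum_congr rfl fun a _ => ?_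
      by_cases ha : τ a = x.1
      · rw [if_pos ha, hE'ap]
        refine Finset.sum_congr rfl fun b _ => ?_
        simp [ha]
      · rw [if_neg ha, map_zero]
        symm
        apply Finset.sum_eq_zero
        intro b _
        rw [if_neg]
        exact fun h => ha h.1
    rw [Finset.sum_congr rfl fun x _ => h1 x, Finset.sum_comm]
    refine Finset.sum_congr rfl fun a _ => ?_
    rw [Finset.sum_comm]
    refine Finset.sum_congr rfl fun b _ => ?_
    by_cases hT : τ a + τ b = T
    · rw [if_pos hT, Finset.sum_eq_single (τ a, τ b)]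
      · rw [if_pos ⟨rfl, rfl⟩]
      · intro x _ hx
        rw [if_neg]
        rintro ⟨h1, h2⟩
        exact hx (Prod.ext h1.symm h2.symm)
      · intro h
        exact absurd (Finset.HasAntidiagonal.mem_antidiagonal.mpr hT) h
    · rw [if_neg hT]
      apply Finset.sum_eq_zero
      intro x hx
      rw [if_neg]
      rintro ⟨h1, h2⟩
      apply hT
      rw [h1, h2]
      exact Finset.HasAntidiagonal.mem_antidiagonal.mp hx

/-- The index set of the first two exponents. -/
abbrev PP (d : ℕ) : Type := Fin (d + 1) × Fin (d + 1)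

/-- Kronecker weight. -/
def tau {d : ℕ} (a : PP d) : ℕ := (a.1 : ℕ) + (d + 1) * (a.2 : ℕ)

lemma tau_lt {d : ℕ} (a : PP d) : tau a < (d + 1) ^ 2 := by
  unfold tau
  have h1 := a.1.isLt
  have h2 := a.2.isLt
  nlinarith

lemma tau_injective {d : ℕ} : Function.Injective (tau (d := d)) := by
  intro a b h
  unfold tau at h
  have h1 := a.1.isLt
  have h2 := b.1.isLt
  have e1 : (a.1 : ℕ) = (b.1 : ℕ) := by
    have := congrArg (· % (d + 1)) h
    simp only [Nat.add_mul_mod_self_left, Nat.mod_eq_of_lt h1, Nat.mod_eq_of_lt h2] at this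
    exact this
  have e2 : (a.2 : ℕ) = (b.2 : ℕ) := by
    rw [e1] at h
    have := Nat.add_left_cancel h
    exact Nat.eq_of_mul_eq_mul_left (Nat.succ_pos d) this
  exact Prod.ext (Fin.ext e1) (Fin.ext e2)

/-- The two corner values. -/
def cv (d : ℕ) (b : Bool) : Fin (d + 1) := if b then Fin.last d else 0

lemma cv_val (d : ℕ) (b : Bool) : ((cv d b : ℕ) : ℤ) = if b then (d : ℤ) else 0 := by
  unfold cv
  cases b <;> simp

/-- The monomials whose last two exponents are corners. -/
def uu {d : ℕ} (a : PP d) (v : Bool × Bool) : Mon d := mkMon ![a.1, a.2, cv d v.1, cv d v.2]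

lemma ex_uu {d : ℕ} (a : PP d) (v : Bool × Bool) : ex (uu a v) =
    ![(a.1 : ℤ), (a.2 : ℤ), if v.1 then (d : ℤ) else 0, if v.2 then (d : ℤ) else 0] := by
  funext i
  unfold ex uu
  rw [mkMon_val]
  fin_cases i
  · rfl
  · rfl
  · exact cv_val d v.1
  · exact cv_val d v.2

lemma uu_injective {d : ℕ} (hd : 1 ≤ d) :
    Function.Injective (fun x : PP d × (Bool × Bool) => uu x.1 x.2) := by
  rintro ⟨a, v⟩ ⟨b, w⟩ h
  have h' : ex (uu a v) = ex (uu b w) := congrArg ex h
  rw [ex_uu, ex_uu] at h'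
  have h0 := congrFun h' 0
  have h1 := congrFun h' 1
  have h2 := congrFun h' 2
  have h3 := congrFun h' 3
  simp only [Matrix.cons_val] at h0 h1 h2 h3
  have e0 : a.1 = b.1 := Fin.ext (by exact_mod_cast h0)
  have e1 : a.2 = b.2 := Fin.ext (by exact_mod_cast h1)
  have e2 : v.1 = w.1 := by
    rcases v with ⟨v1, v2⟩
    rcases w with ⟨w1, w2⟩
    cases v1 <;> cases w1 <;> simp at h2 ⊢ <;> omega
  have e3 : v.2 = w.2 := by
    rcases v with ⟨v1, v2⟩
    rcases w with ⟨w1, w2⟩
    cases v2 <;> cases w2 <;> simp at h3 ⊢ <;> omega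
  exact Prod.ext (Prod.ext e0 e1) (Prod.ext e2 e3)

/-- The set of monomials whose last two exponents are corners. -/
noncomputable def TT (d : ℕ) : Finset (Mon d) :=
  univ.image (fun x : PP d × (Bool × Bool) => uu x.1 x.2)

lemma card_TT {d : ℕ} (hd : 1 ≤ d) : (TT d).card = 4 * (d + 1) ^ 2 := by
  unfold TT
  rw [Finset.card_image_of_injective _ (uu_injective hd), Finset.card_univ]
  simp only [Fintype.card_prod, Fintype.card_fin, Fintype.card_bool]
  ring

lemma mem_TT {d : ℕ} {u : Mon d} : u ∈ TT d ↔ ∃ a v, uu a v = u := by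
  unfold TT
  simp

/-- The filtration by the number of missing elements. -/
def FF (d : ℕ) (j : ℕ) : Submodule ℂ (Finset (Mon d) → ℂ) where
  carrier := {f | ∀ S, f S ≠ 0 → j ≤ (TT d \ S).card}
  add_mem' {f g} hf hg := by
    intro S h
    by_cases h1 : f S = 0
    · refine hg S fun h2 => h ?_
      simp [h1, h2]
    · exact hf S h1
  zero_mem' := fun S h => absurd rfl h
  smul_mem' c f hf := by
    intro S h
    refine hf S fun h1 => h ?_
    simp [h1]

lemma mem_FF {d j : ℕ} {f : Finset (Mon d) → ℂ} :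
    f ∈ FF d j ↔ ∀ S, f S ≠ 0 → j ≤ (TT d \ S).card := Iff.rfl

lemma sdiff_erase_mem {d : ℕ} {S : Finset (Mon d)} {u : Mon d} (hS : u ∈ S) (hu : u ∈ TT d) :
    (TT d \ S.erase u).card = (TT d \ S).card + 1 := by
  have : TT d \ S.erase u = insert u (TT d \ S) := by
    ext x
    simp only [mem_sdiff, mem_erase, mem_insert, not_and, ne_eq]
    by_cases hx : x = u
    · subst hx; simp [hu]
    · simp [hx]
  rw [this, Finset.card_insert_of_notMem (by simp [hS])]

lemma sdiff_erase_not_mem {d : ℕ} {S : Finset (Mon d)} {u : Mon d} (hu : u ∉ TT d) :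
    TT d \ S.erase u = TT d \ S := by
  ext x
  simp only [mem_sdiff, mem_erase, not_and, ne_eq]
  constructor
  · rintro ⟨h1, h2⟩
    exact ⟨h1, h2 (fun h => hu (h ▸ h1))⟩
  · rintro ⟨h1, h2⟩
    exact ⟨h1, fun _ => h2⟩

lemma eps_mem_FF {d j : ℕ} (u : Mon d) {f : Finset (Mon d) → ℂ} (hf : f ∈ FF d (j + 1)) :
    eps u f ∈ FF d j := by
  intro S h
  obtain ⟨h1, h2⟩ := CechData.eps_ne_zero h
  have h3 := hf _ h2
  by_cases hu : u ∈ TT d
  · rw [sdiff_erase_mem h1 hu] at h3
    omega
  · rw [sdiff_erase_not_mem hu] at h3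
    omega

lemma FF_inj {d j : ℕ} {f : Finset (Mon d) → ℂ} (hf : f ∈ FF d (j + 1))
    (h : ∀ a v, eps (uu a v) f = 0) : f = 0 := by
  funext S
  by_contra hS
  have h1 := hf S hS
  have h2 : (TT d \ S).Nonempty := Finset.card_pos.mp (by omega)
  obtain ⟨u, hu⟩ := h2
  rw [mem_sdiff, mem_TT] at hu
  obtain ⟨⟨a, v, rfl⟩, huS⟩ := hu
  have h3 := congrFun (h a v) (insert (uu a v) S)
  rw [eps_apply, if_pos (mem_insert_self _ _), erase_insert huS] at h3
  rcases mul_eq_zero.mp h3 with h4 | h4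
  · exact sg_ne_zero _ _ h4
  · exact hS h4

/-- The bottom component of an annihilated field. -/
noncomputable def low {d : ℕ} (i : ℕ) (Ψ : (Fin 4 → ℤ) → Finset (Mon d) → ℂ) :
    (Fin 4 → ℤ) → Finset (Mon d) → ℂ :=
  fun w S => if (TT d \ S).card = i then Ψ w S else 0

lemma low_rel {d s : ℕ} {Ψ : (Fin 4 → ℤ) → Finset (Mon d) → ℂ} (hΨ : Ψ ∈ KK d s) {i : ℕ}
    (hmin : ∀ w S, Ψ w S ≠ 0 → i ≤ (TT d \ S).card) (z : Fin 4 → ℤ) :
    ∑ u ∈ TT d, eps u (low i Ψ (z - ex u)) = 0 := by
  funext S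
  rw [Finset.sum_apply]
  by_cases hS : (TT d \ S).card + 1 = i
  · have h1 := congrFun (hΨ.2 z) S
    rw [Finset.sum_apply] at h1
    rw [← h1, ← Finset.sum_subset (Finset.subset_univ (TT d))]
    · refine Finset.sum_congr rfl fun u hu => ?_
      rw [eps_apply, eps_apply]
      by_cases huS : u ∈ S
      · rw [if_pos huS, if_pos huS]
        unfold low
        rw [if_pos (by rw [sdiff_erase_mem huS hu]; exact hS)]
      · rw [if_neg huS, if_neg huS]
    · intro u _ hu
      by_contra h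
      obtain ⟨h2, h3⟩ := CechData.eps_ne_zero h
      have h4 := hmin _ _ h3
      rw [sdiff_erase_not_mem hu] at h4
      omega
  · apply Finset.sum_eq_zero
    intro u hu
    by_contra h
    obtain ⟨h2, h3⟩ := CechData.eps_ne_zero h
    unfold low at h3
    rw [sdiff_erase_mem h2 hu, if_neg hS] at h3
    exact h3 rfl

lemma low_ne_zero {d i : ℕ} {Ψ : (Fin 4 → ℤ) → Finset (Mon d) → ℂ} {w : Fin 4 → ℤ}
    {S : Finset (Mon d)} (h : low i Ψ w S ≠ 0) : (TT d \ S).card = i ∧ Ψ w S ≠ 0 := by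
  unfold low at h
  by_cases hc : (TT d \ S).card = i
  · rw [if_pos hc] at h; exact ⟨hc, h⟩
  · rw [if_neg hc] at h; exact absurd rfl h

/-- The exponent with prescribed coordinates. -/
def wv {d : ℕ} (a : PP d) (x y : ℤ) : Fin 4 → ℤ := ![(a.1 : ℤ), (a.2 : ℤ), x, y]

lemma low_eq_zero {d s : ℕ} {Ψ : (Fin 4 → ℤ) → Finset (Mon d) → ℂ} (hΨ : Ψ ∈ KK d s) {i : ℕ}
    {w : Fin 4 → ℤ} (h : ∃ j, ¬ (0 < w j ∧ w j < d)) : low i Ψ w = 0 := by
  funext S
  by_contra h1
  obtain ⟨_, h2⟩ := low_ne_zero h1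
  obtain ⟨j, hj⟩ := h
  exact hj ((hΨ.1 _ _ h2).2 j)

lemma low_rel2 {d s : ℕ} (hd : 1 ≤ d) {Ψ : (Fin 4 → ℤ) → Finset (Mon d) → ℂ} (hΨ : Ψ ∈ KK d s)
    {i : ℕ} (hmin : ∀ w S, Ψ w S ≠ 0 → i ≤ (TT d \ S).card) (x y : ℤ) (v : Bool × Bool)
    (z : ℕ × ℕ) : ∑ b : PP d, ∑ a : PP d,
      (if (a.1 : ℕ) + (b.1 : ℕ) = z.1 ∧ (a.2 : ℕ) + (b.2 : ℕ) = z.2 then
        eps (uu b v) (low i Ψ (wv a x y)) else 0) = 0 := by
  by_cases hxy : (0 < x ∧ x < d) ∧ (0 < y ∧ y < d)
  swap
  · apply Finset.sum_eq_zero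
    intro b _
    apply Finset.sum_eq_zero
    intro a _
    have : low i Ψ (wv a x y) = 0 := by
      apply low_eq_zero hΨ
      by_cases hx : 0 < x ∧ x < d
      · exact ⟨3, fun h => hxy ⟨hx, h⟩⟩
      · exact ⟨2, hx⟩
    rw [this, map_zero, ite_self]
  obtain ⟨⟨hx0, hxd⟩, hy0, hyd⟩ := hxy
  set Z : Fin 4 → ℤ := ![(z.1 : ℤ), (z.2 : ℤ), x + (if v.1 then (d : ℤ) else 0),
    y + (if v.2 then (d : ℤ) else 0)] with hZ
  have h1 := low_rel hΨ hmin Z
  unfold TT at h1
  rw [Finset.sum_image (fun a _ b _ h => uu_injective hd h), Fintype.sum_prod_type] at h1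
  refine Eq.trans ?_ h1
  refine Finset.sum_congr rfl fun b _ => ?_
  rw [Finset.sum_eq_single v]
  · simp only
    have e : Z - ex (uu b v) = ![(z.1 : ℤ) - b.1, (z.2 : ℤ) - b.2, x, y] := by
      rw [ex_uu, hZ]
      funext j
      fin_cases j
      · rfl
      · rfl
      · exact add_sub_cancel_right _ _
      · exact add_sub_cancel_right _ _
    rw [e]
    by_cases hb : ∃ a : PP d, (a.1 : ℕ) + (b.1 : ℕ) = z.1 ∧ (a.2 : ℕ) + (b.2 : ℕ) = z.2
    · obtain ⟨a, ha1, ha2⟩ := hb
      rw [Finset.sum_eq_single a]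
      · rw [if_pos ⟨ha1, ha2⟩]
        have e2 : wv a x y = ![(z.1 : ℤ) - b.1, (z.2 : ℤ) - b.2, x, y] := by
          unfold wv
          rw [← ha1, ← ha2]
          push_cast
          rw [add_sub_cancel_right, add_sub_cancel_right]
        rw [e2]
      · intro c _ hc
        rw [if_neg]
        rintro ⟨h2, h3⟩
        apply hc
        refine Prod.ext (Fin.ext ?_) (Fin.ext ?_)
        · omega
        · omega
      · simp
    · have h0 : low i Ψ ![(z.1 : ℤ) - b.1, (z.2 : ℤ) - b.2, x, y] = 0 := by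
        apply low_eq_zero hΨ
        by_contra hc
        push Not at hc
        have c0 := hc 0
        have c1 := hc 1
        simp only [Matrix.cons_val] at c0 c1
        apply hb
        refine ⟨(⟨z.1 - b.1, by omega⟩, ⟨z.2 - b.2, by omega⟩), ?_, ?_⟩
        · simp only; omega
        · simp only; omega
      rw [h0, map_zero]
      apply Finset.sum_eq_zero
      intro a _
      rw [if_neg]
      exact fun h => hb ⟨a, h⟩
  · intro v' _ hv'
    simp only
    have : low i Ψ (Z - ex (uu b v')) = 0 := by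
      apply low_eq_zero hΨ
      rcases v with ⟨v1, v2⟩
      rcases v' with ⟨v1', v2'⟩
      rw [ex_uu, hZ]
      by_cases e1 : v1 = v1'
      · have e2 : v2 ≠ v2' := by
          rintro rfl
          exact hv' (by rw [e1])
        refine ⟨3, ?_⟩
        change ¬ (0 < (y + if v2 = true then (d : ℤ) else 0) - (if v2' = true then (d : ℤ) else 0) ∧
          (y + if v2 = true then (d : ℤ) else 0) - (if v2' = true then (d : ℤ) else 0) < d)
        cases v2 <;> cases v2' <;> simp at e2 ⊢ <;> omega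
      · refine ⟨2, ?_⟩
        change ¬ (0 < (x + if v1 = true then (d : ℤ) else 0) - (if v1' = true then (d : ℤ) else 0) ∧
          (x + if v1 = true then (d : ℤ) else 0) - (if v1' = true then (d : ℤ) else 0) < d)
        cases v1 <;> cases v1' <;> simp at e1 ⊢ <;> omega
    rw [this, map_zero]
  · simp

lemma low_rel3 {d s : ℕ} (hd : 1 ≤ d) {Ψ : (Fin 4 → ℤ) → Finset (Mon d) → ℂ} (hΨ : Ψ ∈ KK d s)
    {i : ℕ} (hmin : ∀ w S, Ψ w S ≠ 0 → i ≤ (TT d \ S).card) (x y : ℤ) (v : Bool × Bool)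
    (T : ℕ) : ∑ a : PP d, ∑ b : PP d,
      (if tau a + tau b = T then eps (uu b v) (low i Ψ (wv a x y)) else 0) = 0 := by
  classical
  set R : Finset (ℕ × ℕ) := range (2 * d + 1) ×ˢ range (2 * d + 1) with hR
  have h1 : ∑ z ∈ R, (if z.1 + (d + 1) * z.2 = T then
      ∑ b : PP d, ∑ a : PP d,
      (if (a.1 : ℕ) + (b.1 : ℕ) = z.1 ∧ (a.2 : ℕ) + (b.2 : ℕ) = z.2 then
        eps (uu b v) (low i Ψ (wv a x y)) else 0) else 0) = 0 := by
    apply Finset.sum_eq_zero
    intro z _
    rw [low_rel2 hd hΨ hmin x y v z, ite_self]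
  refine Eq.trans ?_ h1
  have h2 : ∀ z ∈ R, (if z.1 + (d + 1) * z.2 = T then
      ∑ b : PP d, ∑ a : PP d,
      (if (a.1 : ℕ) + (b.1 : ℕ) = z.1 ∧ (a.2 : ℕ) + (b.2 : ℕ) = z.2 then
        eps (uu b v) (low i Ψ (wv a x y)) else 0) else 0) =
      ∑ a : PP d, ∑ b : PP d, (if (a.1 : ℕ) + (b.1 : ℕ) = z.1 ∧ (a.2 : ℕ) + (b.2 : ℕ) = z.2 then
        (if tau a + tau b = T then eps (uu b v) (low i Ψ (wv a x y)) else 0) else 0) := by
    intro z _
    by_cases hz : z.1 + (d + 1) * z.2 = T
    · rw [if_pos hz, Finset.sum_comm]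
      refine Finset.sum_congr rfl fun a _ => Finset.sum_congr rfl fun b _ => ?_
      by_cases hab : (a.1 : ℕ) + (b.1 : ℕ) = z.1 ∧ (a.2 : ℕ) + (b.2 : ℕ) = z.2
      · rw [if_pos hab, if_pos hab, if_pos]
        unfold tau
        rw [← hz, ← hab.1, ← hab.2]
        ring
      · rw [if_neg hab, if_neg hab]
    · rw [if_neg hz]
      symm
      apply Finset.sum_eq_zero
      intro a _
      apply Finset.sum_eq_zero
      intro b _
      by_cases hab : (a.1 : ℕ) + (b.1 : ℕ) = z.1 ∧ (a.2 : ℕ) + (b.2 : ℕ) = z.2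
      · rw [if_pos hab, if_neg]
        intro h
        apply hz
        unfold tau at h
        rw [← h, ← hab.1, ← hab.2]
        ring
      · rw [if_neg hab]
  rw [Finset.sum_congr rfl h2]
  symm
  rw [Finset.sum_comm]
  refine Finset.sum_congr rfl fun a _ => ?_
  rw [Finset.sum_comm]
  refine Finset.sum_congr rfl fun b _ => ?_
  rw [Finset.sum_eq_single ((a.1 : ℕ) + (b.1 : ℕ), (a.2 : ℕ) + (b.2 : ℕ))]
  · rw [if_pos ⟨rfl, rfl⟩]
  · rintro z _ hz
    rw [if_neg]
    rintro ⟨h3, h4⟩
    exact hz (Prod.ext h3.symm h4.symm)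
  · intro h
    exfalso
    apply h
    rw [hR, mem_product, mem_range, mem_range]
    have ha1 := a.1.isLt
    have ha2 := a.2.isLt
    have hb1 := b.1.isLt
    have hb2 := b.2.isLt
    simp only
    omega

/-- Vanishing of the bottom component when it has large defect. -/
theorem KK_vanish {d s : ℕ} (hd : 1 ≤ d) {Ψ : (Fin 4 → ℤ) → Finset (Mon d) → ℂ}
    (hΨ : Ψ ∈ KK d s) {i : ℕ} (hmin : ∀ w S, Ψ w S ≠ 0 → i ≤ (TT d \ S).card)
    (hi : (d + 1) ^ 2 ≤ i) (w : Fin 4 → ℤ) (S : Finset (Mon d)) (hS : (TT d \ S).card = i) :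
    Ψ w S = 0 := by
  by_contra hne
  have hbox := (hΨ.1 w S hne).2
  have b0 := hbox 0
  have b1 := hbox 1
  set a : PP d := (⟨(w 0).toNat, by omega⟩, ⟨(w 1).toNat, by omega⟩) with ha
  have hw : w = wv a (w 2) (w 3) := by
    unfold wv
    funext j
    fin_cases j
    · change w 0 = (((w 0).toNat : ℕ) : ℤ)
      omega
    · change w 1 = (((w 1).toNat : ℕ) : ℤ)
      omega
    · rfl
    · rfl
  have h1 := vanish_fin (W := Finset (Mon d) → ℂ) (tau (d := d)) tau_injective
    (fun (b : PP d) (v : Bool × Bool) => eps (uu b v))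
    (fun m v m' v' f => eps_eps _ _ f) (FF d) (fun j m v f hf => eps_mem_FF _ hf)
    (fun j f hf h => FF_inj hf h) ((d + 1) ^ 2) tau_lt
    (fun a => low i Ψ (wv a (w 2) (w 3))) (by
      intro a S' hS'
      obtain ⟨h2, _⟩ := low_ne_zero hS'
      omega) (fun v T => low_rel3 hd hΨ hmin (w 2) (w 3) v T) a
  have h2 := congrFun h1 S
  rw [← hw] at h2
  unfold low at h2
  rw [if_pos hS] at h2
  exact hne h2

end Pool.Agent.GaussBetti
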